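import Pool.Agent.H974R2.Static
import Pool.Agent.H973R3.NC.Defs

/-!
The Bessel inequality for the influences of disjoint blocks, abstract form.
-/

set_option autoImplicit false

namespace Pool.Agent.W2helper75.AU

open H974 H973N Finset

section Bes

variable {E ι : Type*} [DecidableEq E] [DecidableEq ι]

/-- The test function of a block. -/
noncomputable def VV (q : ℝ) (S : Finset E) (U D : Finset E → Prop) (F : Finset E) : ℝ :=
  (Pr (fun _ => q) S U)⁻¹ * ind (U F) - (Pr (fun _ => q) S D)⁻¹ * ind (D F)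

theorem VV_mean {q : ℝ} {S : Finset E} {U D : Finset E → Prop}
    (hU : 0 < Pr (fun _ => q) S U) (hD : 0 < Pr (fun _ => q) S D) :
    Ex (fun _ => q) S (VV q S U D) = 0 := by
  unfold VV
  rw [Ex_sub, Ex_mul_left, Ex_mul_left]
  change (Pr (fun _ => q) S U)⁻¹ * Pr (fun _ => q) S U -
    (Pr (fun _ => q) S D)⁻¹ * Pr (fun _ => q) S D = 0
  rw [inv_mul_cancel₀ hU.ne', inv_mul_cancel₀ hD.ne']
  ring

theorem VV_sq {q : ℝ} (h0 : 0 ≤ q) (h1 : q ≤ 1) {S : Finset E} {U D : Finset E → Prop}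
    (hU : 0 < Pr (fun _ => q) S U) (hD : 0 < Pr (fun _ => q) S D) :
    Ex (fun _ => q) S (fun F => VV q S U D F * VV q S U D F) ≤
      (Pr (fun _ => q) S U)⁻¹ + (Pr (fun _ => q) S D)⁻¹ := by
  have hok : Ok (fun _ : E => q) := fun _ => ⟨h0, h1⟩
  set a := (Pr (fun _ => q) S U)⁻¹ with ha
  set d := (Pr (fun _ => q) S D)⁻¹ with hdd
  have ha0 : 0 < a := inv_pos.mpr hU
  have hd0 : 0 < d := inv_pos.mpr hD
  have key : ∀ F, F ⊆ S → VV q S U D F * VV q S U D F ≤
      a ^ 2 * ind (U F) + d ^ 2 * ind (D F) := by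
    intro F _
    have a1 := ind_sq (U F)
    have a2 := ind_sq (D F)
    have a3 : 0 ≤ ind (U F) * ind (D F) := mul_nonneg (ind_nonneg _) (ind_nonneg _)
    have a4 : 0 ≤ a * d * (ind (U F) * ind (D F)) := by positivity
    unfold VV
    rw [← ha, ← hdd]
    nlinarith
  refine (Ex_mono hok key).trans ?_
  rw [Ex_add, Ex_mul_left, Ex_mul_left]
  have e1 : a ^ 2 * Ex (fun _ => q) S (fun F => ind (U F)) = a := by
    change a ^ 2 * Pr (fun _ => q) S U = a
    rw [ha]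
    field_simp
  have e2 : d ^ 2 * Ex (fun _ => q) S (fun F => ind (D F)) = d := by
    change d ^ 2 * Pr (fun _ => q) S D = d
    rw [hdd]
    field_simp
  rw [e1, e2]

theorem infl {q : ℝ} (h0 : 0 ≤ q) (h1 : q ≤ 1) {S : Finset E} {A : Finset E → Prop}
    (hA : ∀ F G : Finset E, F ⊆ G → A F → A G) {b : Finset E} {U D : Finset E → Prop}
    (Umono : ∀ F G : Finset E, F ⊆ G → U F → U G) (Dmono : ∀ F G : Finset E, F ⊆ G → D G → D F)
    (hU : 0 < Pr (fun _ => q) S U) (hD : 0 < Pr (fun _ => q) S D)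
    (cU : ∀ F, F ⊆ S → U F → A (F ∪ b) → A F) (cD : ∀ F, F ⊆ S → D F → A F → A (F \ b)) :
    Pr (fun _ => q) S (Bf A b) ≤ Ex (fun _ => q) S (fun F => ind (A F) * VV q S U D F) := by
  have hok : Ok (fun _ : E => q) := fun _ => ⟨h0, h1⟩
  have a1 : Pr (fun _ => q) S (Bf A b) =
      Pr (fun _ => q) S (fun F => A (F ∪ b)) - Pr (fun _ => q) S (fun F => A (F \ b)) := by
    unfold Pr
    rw [← Ex_sub]
    apply Ex_congr
    intro F _
    by_cases k1 : A (F \ b)
    · have k2 : A (F ∪ b) := hA _ _ (Finset.sdiff_subset.trans Finset.subset_union_left) k1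
      rw [ind_of k1, ind_of k2, ind_not_of (fun h : Bf A b F => h.2 k1)]
      ring
    · by_cases k2 : A (F ∪ b)
      · rw [ind_not_of k1, ind_of k2, ind_of (show Bf A b F from ⟨k2, k1⟩)]
        ring
      · rw [ind_not_of k1, ind_not_of k2, ind_not_of (fun h : Bf A b F => k2 h.1)]
        ring
  have a2 : Pr (fun _ => q) S (fun F => A (F ∪ b)) ≤
      (Pr (fun _ => q) S U)⁻¹ * Pr (fun _ => q) S (fun F => A F ∧ U F) := by
    have g1 : Pr (fun _ => q) S (fun F => A (F ∪ b)) * Pr (fun _ => q) S U ≤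
        Pr (fun _ => q) S (fun F => A F ∧ U F) := by
      refine (Pr_harris hok (A := fun F => A (F ∪ b)) (B := U) ?_ ?_).trans ?_
      · intro F G hFG _ hF
        exact hA _ _ (Finset.union_subset_union_left hFG) hF
      · intro F G hFG _ hF
        exact Umono _ _ hFG hF
      · apply Pr_mono hok
        rintro F hF ⟨k1, k2⟩
        exact ⟨cU F hF k2 k1, k2⟩
    rw [inv_mul_eq_div, le_div_iff₀ hU]
    exact g1
  have a3 : (Pr (fun _ => q) S D)⁻¹ * Pr (fun _ => q) S (fun F => A F ∧ D F) ≤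
      Pr (fun _ => q) S (fun F => A (F \ b)) := by
    have g1 : Pr (fun _ => q) S (fun F => A F ∧ D F) ≤
        Pr (fun _ => q) S (fun F => A (F \ b)) * Pr (fun _ => q) S D := by
      refine le_trans ?_ (Pr_harris_decr hok (A := fun F => A (F \ b)) (B := D) ?_ ?_)
      · apply Pr_mono hok
        rintro F hF ⟨k1, k2⟩
        exact ⟨cD F hF k2 k1, k2⟩
      · intro F G hFG _ hF
        exact hA _ _ (Finset.sdiff_subset_sdiff hFG (Finset.Subset.refl _)) hF
      · intro F G hFG _ hF hG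
        exact hF (Dmono _ _ hFG hG)
    rw [inv_mul_eq_div, div_le_iff₀ hD]
    exact g1
  have a4 : Ex (fun _ => q) S (fun F => ind (A F) * VV q S U D F) =
      (Pr (fun _ => q) S U)⁻¹ * Pr (fun _ => q) S (fun F => A F ∧ U F) -
      (Pr (fun _ => q) S D)⁻¹ * Pr (fun _ => q) S (fun F => A F ∧ D F) := by
    unfold Pr
    rw [← Ex_mul_left, ← Ex_mul_left, ← Ex_sub]
    apply Ex_congr
    intro F _
    rw [ind_and, ind_and]
    unfold VV Pr
    ring
  rw [a1, a4]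
  linarith

/-- **Bessel inequality** for the influences of disjoint blocks. -/
theorem bessel {q κ : ℝ} (h0 : 0 ≤ q) (h1 : q ≤ 1) (hκ : 0 < κ) (hκ1 : κ ≤ 1)
    {S : Finset E} {A : Finset E → Prop} (hA : ∀ F G : Finset E, F ⊆ G → A F → A G)
    {T : Finset ι} {b B : ι → Finset E} {U D : ι → Finset E → Prop}
    (hB : ∀ t ∈ T, B t ⊆ S)
    (hd : ∀ t ∈ T, ∀ t' ∈ T, t ≠ t' → Disjoint (B t) (B t'))
    (Umono : ∀ t ∈ T, ∀ F G : Finset E, F ⊆ G → U t F → U t G)
    (Dmono : ∀ t ∈ T, ∀ F G : Finset E, F ⊆ G → D t G → D t F)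
    (Uloc : ∀ t ∈ T, ∀ F, U t F ↔ U t (F ∩ B t)) (Dloc : ∀ t ∈ T, ∀ F, D t F ↔ D t (F ∩ B t))
    (hU : ∀ t ∈ T, κ ≤ Pr (fun _ => q) S (U t)) (hD : ∀ t ∈ T, κ ≤ Pr (fun _ => q) S (D t))
    (cU : ∀ t ∈ T, ∀ F, F ⊆ S → U t F → A (F ∪ b t) → A F)
    (cD : ∀ t ∈ T, ∀ F, F ⊆ S → D t F → A F → A (F \ b t)) :
    ∑ t ∈ T, Pr (fun _ => q) S (Bf A (b t)) ≤ 2 * κ⁻¹ * Real.sqrt T.card := by
  have hok : Ok (fun _ : E => q) := fun _ => ⟨h0, h1⟩
  have hU' : ∀ t ∈ T, 0 < Pr (fun _ => q) S (U t) := fun t ht => hκ.trans_le (hU t ht)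
  have hD' : ∀ t ∈ T, 0 < Pr (fun _ => q) S (D t) := fun t ht => hκ.trans_le (hD t ht)
  have Vloc : ∀ t ∈ T, ∀ F, VV q S (U t) (D t) F = VV q S (U t) (D t) (F ∩ B t) := by
    intro t ht F
    unfold VV
    rw [ind_congr (Uloc t ht F), ind_congr (Dloc t ht F)]
  set f : Finset E → ℝ := fun F => ind (A F) with hf
  set g : Finset E → ℝ := fun F => ∑ t ∈ T, VV q S (U t) (D t) F with hg
  have b1 : ∑ t ∈ T, Pr (fun _ => q) S (Bf A (b t)) ≤ Ex (fun _ => q) S (fun F => f F * g F) := by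
    have e1 : Ex (fun _ => q) S (fun F => f F * g F) =
        ∑ t ∈ T, Ex (fun _ => q) S (fun F => f F * VV q S (U t) (D t) F) := by
      rw [← Ex_sum]
      apply Ex_congr
      intro F _
      rw [hg, Finset.mul_sum]
    rw [e1]
    apply Finset.sum_le_sum
    intro t ht
    exact infl h0 h1 hA (Umono t ht) (Dmono t ht) (hU' t ht) (hD' t ht) (cU t ht) (cD t ht)
  have b2 : Ex (fun _ => q) S (fun F => (f F) ^ 2) ≤ 1 := by
    apply Ex_le_of_le hok
    intro F _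
    exact pow_le_one₀ (ind_nonneg _) (ind_le_one _)
  have b3 : Ex (fun _ => q) S (fun F => (g F) ^ 2) =
      ∑ t ∈ T, Ex (fun _ => q) S (fun F => VV q S (U t) (D t) F * VV q S (U t) (D t) F) := by
    have e1 : Ex (fun _ => q) S (fun F => (g F) ^ 2) =
        ∑ t ∈ T, ∑ t' ∈ T,
          Ex (fun _ => q) S (fun F => VV q S (U t) (D t) F * VV q S (U t') (D t') F) := by
      have e2 : ∀ F : Finset E, F ⊆ S → (g F) ^ 2 =
          ∑ t ∈ T, ∑ t' ∈ T, VV q S (U t) (D t) F * VV q S (U t') (D t') F := by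
        intro F _
        rw [hg, sq, Finset.sum_mul_sum]
      rw [Ex_congr e2, Ex_sum]
      apply Finset.sum_congr rfl
      intro t _
      rw [Ex_sum]
    rw [e1]
    apply Finset.sum_congr rfl
    intro t ht
    rw [Finset.sum_eq_single t]
    · intro t' ht' hne
      rw [Ex_mul_indep (hB t ht) (hB t' ht') (hd t ht t' ht' (Ne.symm hne))
        (fun F _ => Vloc t ht F) (fun F _ => Vloc t' ht' F),
        VV_mean (hU' t ht) (hD' t ht), zero_mul]
    · intro h; exact absurd ht h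
  have b4 : Ex (fun _ => q) S (fun F => (g F) ^ 2) ≤ T.card * (2 * κ⁻¹) := by
    rw [b3]
    have : ∀ t ∈ T, Ex (fun _ => q) S
        (fun F => VV q S (U t) (D t) F * VV q S (U t) (D t) F) ≤ 2 * κ⁻¹ := by
      intro t ht
      refine (VV_sq h0 h1 (hU' t ht) (hD' t ht)).trans ?_
      have i1 : (Pr (fun _ => q) S (U t))⁻¹ ≤ κ⁻¹ := inv_anti₀ hκ (hU t ht)
      have i2 : (Pr (fun _ => q) S (D t))⁻¹ ≤ κ⁻¹ := inv_anti₀ hκ (hD t ht)
      linarith
    refine (Finset.sum_le_sum this).trans ?_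
    rw [Finset.sum_const, nsmul_eq_mul]
  have b5 := Ex_cs hok S f g
  have hg0 : 0 ≤ Ex (fun _ => q) S (fun F => (g F) ^ 2) := Ex_nonneg hok (fun F _ => sq_nonneg _)
  have b6 : (Ex (fun _ => q) S (fun F => f F * g F)) ^ 2 ≤ T.card * (2 * κ⁻¹) := by
    refine b5.trans ?_
    calc Ex (fun _ => q) S (fun F => (f F) ^ 2) * Ex (fun _ => q) S (fun F => (g F) ^ 2)
        ≤ 1 * Ex (fun _ => q) S (fun F => (g F) ^ 2) := mul_le_mul_of_nonneg_right b2 hg0
      _ ≤ _ := by rw [one_mul]; exact b4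
  refine b1.trans ?_
  have hinv : 1 ≤ κ⁻¹ := by
    rw [one_le_inv₀ hκ]
    exact hκ1
  have hT0 : (0:ℝ) ≤ T.card := Nat.cast_nonneg _
  apply le_trans (le_abs_self _)
  apply abs_le_of_sq_le_sq _ (by positivity)
  rw [mul_pow, Real.sq_sqrt hT0]
  refine b6.trans ?_
  nlinarith [mul_nonneg hT0 (show 0 ≤ κ⁻¹ by positivity)]

end Bes

end Pool.Agent.W2helper75.AU
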