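import Pool.Agent.W2helper75.AU.Wn
import Pool.Agent.H974R2.Infinite

/-!
Number of clusters in the `n × n` box.
-/

set_option autoImplicit false

namespace Pool.Agent.W2helper75.AU

open H974 H973N H12S Finset Filter Topology MeasureTheory

/-- The vertices of the `n × n` box. -/
def boxV (n : ℕ) : Set (ℤ × ℤ) := {v | (0 ≤ v.1 ∧ v.1 < n) ∧ (0 ≤ v.2 ∧ v.2 < n)}

/-- The number of open clusters of the configuration restricted to the `n × n` box. -/
noncomputable def clusterCount (n : ℕ) (ω : sqLattice.edgeSet → Bool) : ℕ :=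
  Nat.card ((openGraph ω).induce (boxV n)).ConnectedComponent

/-- The mean number of clusters in the `n × n` box. -/
noncomputable def meanCount (p : unitInterval) (n : ℕ) : ℝ :=
  ∫ ω, (clusterCount n ω : ℝ) ∂(bondLaw p)

/-- The edges of the `n × n` box. -/
noncomputable def EB (n : ℕ) : Finset Edg := RE 0 (n - 1) 0 (n - 1)

section
variable {n : ℕ} [NeZero n]

theorem val_lt' (x : ZMod n) : (x.val : ℤ) < n ∧ 0 ≤ (x.val : ℤ) :=
  ⟨by exact_mod_cast ZMod.val_lt x, by positivity⟩

theorem val_cast' {x : ℤ} (h0 : 0 ≤ x) (h1 : x < n) : ((x : ZMod n).val : ℤ) = x := by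
  have h3 := val_lt' (x : ZMod n)
  apply cast_inj (N := n)
  · rw [abs_lt]
    constructor <;> omega
  · push_cast
    rw [ZMod.natCast_zmod_val]

/-- Vertices of the box and of the torus. -/
def nuV (n : ℕ) [NeZero n] : boxV n ≃ TV n where
  toFun v := pv n v.1
  invFun u := ⟨((u.1.val : ℤ), (u.2.val : ℤ)),
    ⟨⟨(val_lt' u.1).2, (val_lt' u.1).1⟩, ⟨(val_lt' u.2).2, (val_lt' u.2).1⟩⟩⟩
  left_inv v := by
    obtain ⟨⟨x, y⟩, ⟨⟨h1, h2⟩, h3, h4⟩⟩ := v
    apply Subtype.ext
    show (((x : ZMod n).val : ℤ), ((y : ZMod n).val : ℤ)) = (x, y)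
    simp only at h1 h2 h3 h4
    rw [val_cast' h1 h2, val_cast' h3 h4]
  right_inv u := by
    show pv n ((u.1.val : ℤ), (u.2.val : ℤ)) = u
    unfold pv
    simp

theorem EB_ends {e : Edg} (he : e ∈ EB n) : src e ∈ boxV n ∧ tgt e ∈ boxV n := by
  unfold EB at he
  unfold boxV
  obtain ⟨x, y, _ | _⟩ := e
  · rw [mem_RE_false] at he
    simp only [Set.mem_ofPred_eq, src_mk, tgt_false]
    omega
  · rw [mem_RE_true] at he
    simp only [Set.mem_ofPred_eq, src_mk, tgt_true]
    omega

theorem EB_of_ends {e : Edg} (h1 : src e ∈ boxV n) (h2 : tgt e ∈ boxV n) : e ∈ EB n := by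
  unfold EB
  unfold boxV at h1 h2
  obtain ⟨x, y, _ | _⟩ := e
  · rw [mem_RE_false]
    simp only [Set.mem_ofPred_eq, src_mk, tgt_false] at h1 h2
    omega
  · rw [mem_RE_true]
    simp only [Set.mem_ofPred_eq, src_mk, tgt_true] at h1 h2
    omega

theorem count_eq (ω : sqLattice.edgeSet → Bool) :
    clusterCount n ω = nc ts tt (pe n '' (↑(FF (EB n) ω) : Set Edg)) := by
  unfold clusterCount nc
  apply Nat.card_congr
  refine Quot.congr (nuV n) ?_
  intro u v
  show ((openGraph ω).induce (boxV n)).Reachable u v ↔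
    GR ts tt (pe n '' (↑(FF (EB n) ω) : Set Edg)) (pv n u.1) (pv n v.1)
  constructor
  · intro h
    rw [SimpleGraph.reachable_iff_reflTransGen] at h
    induction h with
    | refl => exact GR.refl _ _
    | @tail w w' _ hs ih =>
      refine ih.trans (GAdj.gr ?_)
      have h1 : (openGraph ω).Adj w.1 w'.1 := hs
      rw [openGraph_adj] at h1
      obtain ⟨e, he, hc⟩ := h1
      have heB : e ∈ EB n := by
        rcases hc with ⟨h2, h3⟩ | ⟨h2, h3⟩
        · exact EB_of_ends (by rw [h2]; exact w.2) (by rw [h3]; exact w'.2)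
        · exact EB_of_ends (by rw [h2]; exact w'.2) (by rw [h3]; exact w.2)
      refine ⟨pe n e, ⟨e, ?_, rfl⟩, ?_⟩
      · rw [FF_coe]
        exact ⟨he, heB⟩
      · rw [ts_pe, tt_pe]
        rcases hc with ⟨h2, h3⟩ | ⟨h2, h3⟩
        · left; rw [h2, h3]; exact ⟨rfl, rfl⟩
        · right; rw [h2, h3]; exact ⟨rfl, rfl⟩
  · intro h
    have key : ∀ a b : TV n, GR ts tt (pe n '' (↑(FF (EB n) ω) : Set Edg)) a b →
        ((openGraph ω).induce (boxV n)).Reachable ((nuV n).symm a) ((nuV n).symm b) := by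
      intro a b hab
      induction hab with
      | refl => exact SimpleGraph.Reachable.refl _
      | @tail w w' _ hs ih =>
        refine ih.trans ?_
        obtain ⟨_, ⟨e, he, rfl⟩, hc⟩ := hs
        rw [FF_coe] at he
        obtain ⟨heo, heB⟩ := he
        obtain ⟨hb1, hb2⟩ := EB_ends (n := n) heB
        have s1 : (nuV n).symm (pv n (src e)) = ⟨src e, hb1⟩ := by
          rw [Equiv.symm_apply_eq]
          rfl
        have s2 : (nuV n).symm (pv n (tgt e)) = ⟨tgt e, hb2⟩ := by
          rw [Equiv.symm_apply_eq]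
          rfl
        have hadj : (openGraph ω).Adj (src e) (tgt e) := by
          rw [openGraph_adj]
          exact ⟨e, heo, Or.inl ⟨rfl, rfl⟩⟩
        have hadj2 : ((openGraph ω).induce (boxV n)).Adj ⟨src e, hb1⟩ ⟨tgt e, hb2⟩ := hadj
        rw [ts_pe, tt_pe] at hc
        rcases hc with ⟨h2, h3⟩ | ⟨h2, h3⟩
        · rw [← h2, ← h3, s1, s2]
          exact hadj2.reachable
        · rw [← h2, ← h3, s1, s2]
          exact hadj2.reachable.symm
    have h2 := key _ _ h
    have e1 : ∀ w : boxV n, (nuV n).symm (pv n w.1) = w := fun w => (nuV n).symm_apply_apply w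
    rwa [e1, e1] at h2

theorem integral_FF (p : unitInterval) (S : Finset Edg) (f : Finset Edg → ℝ) :
    ∫ ω, f (FF S ω) ∂(bondLaw p) = Ex (fun _ => (p:ℝ)) S f := by
  classical
  have e1 : (fun ω => f (FF S ω)) = fun ω => ∑ T ∈ S.powerset,
      Set.indicator {ω | FF S ω = T} (fun _ => f T) ω := by
    funext ω
    rw [Finset.sum_eq_single (FF S ω)]
    · rw [Set.indicator_of_mem]
      rfl
    · intro T _ hT
      rw [Set.indicator_of_notMem]
      intro h
      exact hT (Eq.symm h)
    · intro h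
      exact absurd (Finset.mem_powerset.mpr (Finset.filter_subset _ _)) h
  rw [e1, integral_finsetSum]
  · unfold Ex
    apply Finset.sum_congr rfl
    intro T hT
    rw [integral_indicator (meas_FF S T), setIntegral_const, smul_eq_mul,
      law_eq p (Finset.mem_powerset.mp hT)]
  · intro T _
    exact (integrable_const _).indicator (meas_FF S T)

/-- The section of the projection. -/
def psi (n : ℕ) [NeZero n] : TE n ↪ Edg :=
  ⟨fun a => ((a.1.val : ℤ), (a.2.1.val : ℤ), a.2.2), by
    intro a b hab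
    simp only [Prod.mk.injEq, Nat.cast_inj] at hab
    exact Prod.ext (ZMod.val_injective n hab.1) (Prod.ext (ZMod.val_injective n hab.2.1) hab.2.2)⟩

theorem pe_psi (a : TE n) : pe n (psi n a) = a := by
  show pe n ((a.1.val : ℤ), (a.2.1.val : ℤ), a.2.2) = a
  unfold pe
  simp

/-- The edges of the torus which are edges of the box. -/
noncomputable def Rn (n : ℕ) [NeZero n] : Finset (TE n) := by
  classical
  exact (Finset.univ : Finset (TE n)).filter (fun a => psi n a ∈ EB n)

theorem mem_Rn {a : TE n} : a ∈ Rn n ↔ psi n a ∈ EB n := by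
  unfold Rn
  rw [Finset.mem_filter]
  exact ⟨fun h => h.2, fun h => ⟨Finset.mem_univ _, h⟩⟩

theorem Rn_map : (Rn n).map (psi n) = EB n := by
  ext e
  rw [Finset.mem_map]
  constructor
  · rintro ⟨a, ha, rfl⟩
    exact mem_Rn.mp ha
  · intro he
    have hb := (EB_ends (n := n) he).1
    obtain ⟨⟨h1, h2⟩, h3, h4⟩ := hb
    have e1 : psi n (pe n e) = e := by
      show (((e.1 : ZMod n).val : ℤ), ((e.2.1 : ZMod n).val : ℤ), e.2.2) = e
      have k1 : (((e.1 : ZMod n).val : ℤ)) = e.1 := val_cast' h1 h2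
      have k2 : (((e.2.1 : ZMod n).val : ℤ)) = e.2.1 := val_cast' h3 h4
      rw [k1, k2]
    exact ⟨pe n e, mem_Rn.mpr (by rw [e1]; exact he), e1⟩

theorem mean_eq (p : unitInterval) :
    meanCount p n = Ex (fun _ => (p:ℝ)) (Rn n) (kk ts tt) := by
  unfold meanCount
  have e1 : (fun ω => (clusterCount n ω : ℝ)) = fun ω =>
      (fun F : Finset Edg => ((nc ts tt (pe n '' (↑F : Set Edg)) : ℕ) : ℝ)) (FF (EB n) ω) := by
    funext ω
    rw [count_eq]
  rw [e1]
  refine (integral_FF p (EB n)
    (fun F : Finset Edg => ((nc ts tt (pe n '' (↑F : Set Edg)) : ℕ) : ℝ))).trans ?_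
  rw [← Rn_map, Ex_map]
  apply Ex_congr
  intro F _
  unfold kk
  have e2 : pe n '' (↑(F.map (psi n)) : Set Edg) = (↑F : Set (TE n)) := by
    rw [Finset.coe_map, ← Set.image_comp]
    have : pe n ∘ (psi n) = id := by
      funext a
      exact pe_psi a
    rw [this, Set.image_id]
  rw [e2]

theorem card_compl : ((Finset.univ : Finset (TE n)) \ Rn n).card ≤ 2 * n := by
  classical
  have h1 : ((Finset.univ : Finset (TE n)) \ Rn n).card ≤
      (Finset.univ : Finset (ZMod n × Bool)).card := by
    apply Finset.card_le_card_of_injOn (fun a => (if a.2.2 then a.2.1 else a.1, a.2.2))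
    · intro a _
      exact Finset.mem_coe.mpr (Finset.mem_univ _)
    · intro a ha a' ha' haa
      rw [Finset.mem_coe, Finset.mem_sdiff, mem_Rn] at ha ha'
      have hn := ha.2
      have hn' := ha'.2
      obtain ⟨x, y, b⟩ := a
      obtain ⟨x', y', b'⟩ := a'
      simp only [Prod.mk.injEq] at haa
      obtain ⟨h1, h2⟩ := haa
      subst h2
      have hx := val_lt' x
      have hy := val_lt' y
      have hx' := val_lt' x'
      have hy' := val_lt' y'
      have hn1 : 1 ≤ n := Nat.one_le_iff_ne_zero.mpr (NeZero.ne n)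
      cases b
      · simp only [Bool.false_eq_true, if_false] at h1
        subst h1
        have k1 : ¬ (((x.val : ℤ), (y.val : ℤ), false) : Edg) ∈ EB n := hn
        have k2 : ¬ (((x.val : ℤ), (y'.val : ℤ), false) : Edg) ∈ EB n := hn'
        unfold EB at k1 k2
        rw [mem_RE_false] at k1 k2
        have e3 : y.val = y'.val := by omega
        rw [ZMod.val_injective n e3]
      · simp only [if_true] at h1
        subst h1
        have k1 : ¬ (((x.val : ℤ), (y.val : ℤ), true) : Edg) ∈ EB n := hn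
        have k2 : ¬ (((x'.val : ℤ), (y.val : ℤ), true) : Edg) ∈ EB n := hn'
        unfold EB at k1 k2
        rw [mem_RE_true] at k1 k2
        have e3 : x.val = x'.val := by omega
        rw [ZMod.val_injective n e3]
  refine h1.trans (le_of_eq ?_)
  rw [Finset.card_univ, Fintype.card_prod, ZMod.card, Fintype.card_bool]
  ring

end

/-- Adding edges. -/
theorem kk_union {E V : Type*} [DecidableEq E] [Finite V] {s t : E → V} (G H : Finset E) :
    kk s t (G ∪ H) ≤ kk s t G ∧ kk s t G ≤ kk s t (G ∪ H) + H.card := by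
  induction H using Finset.induction_on with
  | empty => simp
  | insert a H ha ih =>
    rw [Finset.union_insert, Finset.card_insert_of_notMem ha]
    have h1 : kk s t (insert a (G ∪ H)) ≤ kk s t (G ∪ H) ∧
        kk s t (G ∪ H) ≤ kk s t (insert a (G ∪ H)) + 1 := by
      unfold kk
      rw [Finset.coe_insert]
      by_cases h : GR s t (↑(G ∪ H) : Set E) (s a) (t a)
      · rw [nc_insert_of h]
        constructor <;> linarith
      · have := nc_insert_not h
        rw [this]
        push_cast
        constructor <;> linarith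
    push_cast
    constructor <;> linarith [h1.1, h1.2, ih.1, ih.2]

theorem Ex_zero {E : Type*} [DecidableEq E] (S : Finset E) (f : Finset E → ℝ) :
    Ex (fun _ => (0:ℝ)) S f = f ∅ := by
  induction S using Finset.induction_on generalizing f with
  | empty => exact Ex_empty _ _
  | insert a S ha ih =>
    rw [Ex_insert _ ha, ih, ih]
    ring

theorem kk_empty {E V : Type*} [DecidableEq E] {s t : E → V} :
    kk s t (∅ : Finset E) = Nat.card V := by
  unfold kk nc
  congr 1
  symm
  apply Nat.card_congr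
  refine Equiv.ofBijective (Quotient.mk (gset s t (↑(∅ : Finset E) : Set E))) ⟨?_, ?_⟩
  · intro u v h
    have h2 : GR s t (↑(∅ : Finset E) : Set E) u v := Quotient.exact h
    induction h2 with
    | refl => rfl
    | tail _ hs _ =>
      obtain ⟨e, he, _⟩ := hs
      simp at he
  · exact Quotient.mk_surjective

section
variable {n : ℕ} [NeZero n]

/-- Mean number of clusters per vertex on the torus. -/
noncomputable def kT (n : ℕ) [NeZero n] (q : ℝ) : ℝ :=
  Ex (fun _ => q) (Finset.univ : Finset (TE n)) (kk ts tt) / (n:ℝ) ^ 2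

theorem mean_kT (p : unitInterval) : |meanCount p n / (n:ℝ) ^ 2 - kT n p| ≤ 2 / n := by
  have hn1 : (1:ℝ) ≤ n := by
    exact_mod_cast Nat.one_le_iff_ne_zero.mpr (NeZero.ne n)
  have hok : Ok (fun _ : TE n => (p:ℝ)) := fun _ => ⟨p.2.1, p.2.2⟩
  have hU : (Finset.univ : Finset (TE n)) = Rn n ∪ (Finset.univ \ Rn n) := by
    rw [Finset.union_sdiff_of_subset (Finset.subset_univ _)]
  have e1 : Ex (fun _ => (p:ℝ)) (Finset.univ : Finset (TE n)) (kk ts tt) =
      Ex (fun _ => (p:ℝ)) (Rn n) (fun G => Ex (fun _ => (p:ℝ)) (Finset.univ \ Rn n)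
        (fun H => kk ts tt (G ∪ H))) := by
    conv_lhs => rw [hU]
    rw [Ex_union Finset.disjoint_sdiff]
  have hc : (((Finset.univ : Finset (TE n)) \ Rn n).card : ℝ) ≤ 2 * n := by
    exact_mod_cast card_compl (n := n)
  have k1 : Ex (fun _ => (p:ℝ)) (Finset.univ : Finset (TE n)) (kk ts tt) ≤ meanCount p n := by
    rw [e1, mean_eq]
    apply Ex_mono hok
    intro G _
    apply Ex_le_of_le hok
    intro H _
    exact (kk_union G H).1
  have k2 : meanCount p n ≤
      Ex (fun _ => (p:ℝ)) (Finset.univ : Finset (TE n)) (kk ts tt) + 2 * n := by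
    rw [e1, mean_eq]
    have : Ex (fun _ => (p:ℝ)) (Rn n) (kk ts tt) - 2 * n ≤
        Ex (fun _ => (p:ℝ)) (Rn n) (fun G => Ex (fun _ => (p:ℝ)) (Finset.univ \ Rn n)
        (fun H => kk ts tt (G ∪ H))) := by
      rw [← Ex_const (fun _ => (p:ℝ)) (Rn n) (2 * (n:ℝ)), ← Ex_sub]
      apply Ex_mono hok
      intro G _
      rw [← Ex_const (fun _ => (p:ℝ)) (Finset.univ \ Rn n) (kk ts tt G - 2 * (n:ℝ))]
      apply Ex_mono hok
      intro H hH
      have h1 := (kk_union (s := ts) (t := tt) G H).2
      have h2 : (H.card : ℝ) ≤ (((Finset.univ : Finset (TE n)) \ Rn n).card : ℝ) := by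
        exact_mod_cast Finset.card_le_card hH
      linarith
    linarith
  unfold kT
  rw [← sub_div, abs_div, abs_of_pos (show (0:ℝ) < (n:ℝ) ^ 2 by positivity),
    div_le_div_iff₀ (by positivity) (by positivity), abs_of_nonneg (by linarith)]
  nlinarith

theorem kT_zero : kT n 0 = 1 := by
  unfold kT
  rw [Ex_zero, kk_empty, Nat.card_eq_fintype_card, Fintype.card_prod, ZMod.card]
  have : (n:ℝ) ≠ 0 := by exact_mod_cast NeZero.ne n
  push_cast
  field_simp

theorem kT_deriv (q : ℝ) : HasDerivAt (kT n) (-2 * (1 - hT n true q)) q := by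
  have h := (deriv_kk (s := ts) (t := tt) (Finset.univ : Finset (TE n)) q).div_const ((n:ℝ) ^ 2)
  have e1 : (∑ e : TE n, (Pr (fun _ => q) (Finset.univ : Finset (TE n)) (AA ts tt e) - 1)) /
      (n:ℝ) ^ 2 = -2 * (1 - hT n true q) := by
    rw [Finset.sum_congr rfl (fun e _ => by rw [pr_AA]), Finset.sum_const, nsmul_eq_mul,
      Finset.card_univ, Fintype.card_prod, Fintype.card_prod, ZMod.card, Fintype.card_bool]
    have : (n:ℝ) ≠ 0 := by exact_mod_cast NeZero.ne n
    push_cast
    field_simp
    ring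
  rw [e1] at h
  exact h

theorem hT_cont : Continuous (hT n true) := by
  obtain ⟨D1, D2, h1, _, _⟩ := deriv_AA (s := ts) (t := tt)
    (Finset.univ : Finset (TE n)) (Finset.mem_univ (((0, 0, true) : TE n)))
  exact continuous_iff_continuousAt.mpr fun q => (h1 q).continuousAt

theorem kT_int (q : ℝ) : kT n q = 1 - 2 * ∫ t in (0:ℝ)..q, (1 - hT n true t) := by
  have h := intervalIntegral.integral_eq_sub_of_hasDerivAt (a := 0) (b := q) (f := kT n)
    (fun t _ => kT_deriv t)
    (Continuous.intervalIntegrable (by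
      have := hT_cont (n := n)
      fun_prop) _ _)
  rw [kT_zero, intervalIntegral.integral_const_mul] at h
  linarith

end

end Pool.Agent.W2helper75.AU
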