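import Pool.Agent.W2helper75.AU.Tri
import Pool.Agent.W424.NC.Stab

/-!
Comparison of the connection probability on the torus with the plane.
-/

set_option autoImplicit false

namespace Pool.Agent.W2helper75.AU

open H974 H973N H12S Finset

/-- The ends of `e0 b` are connected in the box of radius `m`, off the edge. -/
def RP (m : ℕ) (b : Bool) (F : Finset Edg) : Prop :=
  Reach (((↑F : Set Edg) ∩ ↑(boxE m)) \ {e0 b}) (src (e0 b)) (tgt (e0 b))

/-- Its probability. -/
noncomputable def hP (m : ℕ) (b : Bool) (q : ℝ) : ℝ := PQ q (boxE m) (RP m b)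

theorem src_e0 (b : Bool) : src (e0 b) = (0, 0) := rfl

theorem e0_mem {m : ℕ} (hm : 1 ≤ m) (b : Bool) : e0 b ∈ boxE m := by
  unfold e0 boxE
  cases b
  · rw [mem_RE_false]; omega
  · rw [mem_RE_true]; omega

theorem a4b_le_arm {q : ℝ} (h0 : 0 ≤ q) (h1 : q ≤ 1) (m : ℕ) (b : Bool) :
    a4b q m b ≤ arm q m := by
  refine le_trans (Pr_mono (okq h0 h1) ?_) (arm_bound h0 h1 (boxE m) (0, 0) m)
  rintro F _ ⟨⟨w, hw, h⟩, _, _⟩
  refine ⟨w, ?_, h.mono (fun x hx => hx.1.1)⟩
  unfold bdR inR at hw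
  simp only [Set.mem_ofPred_eq] at hw
  simp only
  omega

theorem a4b_le_dual {q : ℝ} (h0 : 0 ≤ q) (h1 : q ≤ 1) {m : ℕ} (hm : 1 ≤ m) (b : Bool) :
    a4b q m b ≤ arm (1 - q) m := by
  have k := arm_bound (q := 1 - q) (by linarith) (by linarith) (dmp (boxE m)) (0, 0) m
  have e1 := pr_dual (q := q) (boxE m) (fun F => ∃ u : Vtx, (u.1 ≤ ((0, 0) : Vtx).1 - m ∨
    ((0, 0) : Vtx).1 + m ≤ u.1 ∨ u.2 ≤ ((0, 0) : Vtx).2 - m ∨
      ((0, 0) : Vtx).2 + m ≤ u.2) ∧ Reach (↑F) (0, 0) u)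
  unfold PQ at e1
  rw [← e1] at k
  refine le_trans (Pr_mono (okq h0 h1) ?_) k
  rintro F hF ⟨hu, hv, huv⟩
  have he : e0 b ∈ RE (-(m:ℤ)) m (-m) m := e0_mem hm b
  obtain ⟨g, hg, hd⟩ := dual_arm (F := (((↑F : Set Edg) ∩ ↑(RE (-(m:ℤ)) m (-m) m)) \ {e0 b}))
    (fun x hx => hx.1.2) he (fun h => h.2 rfl) hu hv huv (f0 := dtgt (e0 b)) (f1 := dsrc (e0 b))
    (Or.inr ⟨rfl, rfl⟩)
  refine ⟨g, ?_, ?_⟩
  · unfold outF at hg
    simp only [Set.mem_ofPred_eq] at hg
    simp only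
    omega
  · rw [coe_dmp, reach_dl]
    refine DReach.mono ?_ hd
    rintro x ⟨⟨hx1, hx2⟩, hx3⟩
    rw [Finset.mem_coe, Finset.mem_sdiff]
    refine ⟨hx1, fun hxF => hx2 ⟨⟨hxF, hx1⟩, hx3⟩⟩

theorem a4b_le_half {q : ℝ} (h0 : 0 ≤ q) (h1 : q ≤ 1) {m : ℕ} (hm : 1 ≤ m) (b : Bool) :
    a4b q m b ≤ arm (1 / 2) m := by
  rcases le_total q (1 / 2) with h | h
  · exact (a4b_le_arm h0 h1 m b).trans (arm_mono_param h0 h (by norm_num) m)
  · exact (a4b_le_dual h0 h1 hm b).trans
      (arm_mono_param (by linarith) (by linarith) (by norm_num) m)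

section Tor
variable {N : ℕ} [NeZero N]

/-- Connection probability of the ends of an edge, off the edge, on the torus. -/
noncomputable def hT (N : ℕ) [NeZero N] (b : Bool) (q : ℝ) : ℝ :=
  Pr (fun _ => q) (Finset.univ : Finset (TE N)) (AA ts tt (0, 0, b))

theorem pe_e0 (b : Bool) : pe N (e0 b) = (0, 0, b) := by
  unfold pe e0
  simp

theorem blk00 (m : ℕ) : blk (0, 0) m = boxE m := by
  unfold blk boxE
  simp

theorem hT_cmp {m : ℕ} (hm : 1 ≤ m) (hN : 2 * m < N) (b : Bool) {q : ℝ} (h0 : 0 ≤ q)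
    (h1 : q ≤ 1) : hP m b q ≤ hT N b q ∧ hT N b q ≤ hP m b q + a4b q m b := by
  have hok : Ok (fun _ : TE N => q) := fun _ => ⟨h0, h1⟩
  have e1 : hP m b q = Pr (fun _ => q) (Finset.univ : Finset (TE N))
      (fun F => RP m b (lf N (0, 0) m F)) := by
    rw [pr_lf hN (Finset.subset_univ _) q (RP m b), blk00]
    rfl
  have e2 : a4b q m b = Pr (fun _ => q) (Finset.univ : Finset (TE N))
      (fun F => A4 (-m) m (-m) m (e0 b) (↑(lf N (0, 0) m F) : Set Edg)) := by
    rw [pr_lf hN (Finset.subset_univ _) q (fun G => A4 (-m) m (-m) m (e0 b) (↑G : Set Edg)),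
      blk00]
    rfl
  have hblk : e0 b ∈ blk (0, 0) m := by rw [blk00]; exact e0_mem hm b
  have hts : ts ((0, 0, b) : TE N) = pv N (src (e0 b)) := by rw [← pe_e0, ts_pe]
  have htt : tt ((0, 0, b) : TE N) = pv N (tgt (e0 b)) := by rw [← pe_e0, tt_pe]
  constructor
  · rw [e1]
    apply Pr_mono hok
    intro F _ h
    unfold AA
    rw [hts, htt]
    refine reach_proj ?_ h
    rintro g ⟨⟨hg1, _⟩, hg3⟩
    rw [Finset.mem_coe, mem_lf] at hg1
    rw [Set.mem_singleton_iff] at hg3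
    rw [Finset.mem_coe, Finset.mem_erase]
    refine ⟨fun h => hg3 (pe_inj hN hg1.1 hblk (by rw [h, pe_e0])), hg1.2⟩
  · rw [e1, e2]
    refine le_trans (Pr_mono hok (B := fun F => RP m b (lf N (0, 0) m F) ∨
      A4 (-m) m (-m) m (e0 b) (↑(lf N (0, 0) m F) : Set Edg)) ?_) (Pr_or_le hok _ _ _)
    intro F _ h
    by_cases hR : RP m b (lf N (0, 0) m F)
    · exact Or.inl hR
    · right
      unfold AA at h
      rw [hts, htt] at h
      have hsub : (↑(lf N (0, 0) m (F.erase (0, 0, b))) : Set Edg) ⊆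
          ((↑(lf N (0, 0) m F) : Set Edg) ∩ ↑(boxE m)) \ {e0 b} := by
        intro g hg
        rw [Finset.mem_coe, mem_lf, Finset.mem_erase] at hg
        refine ⟨⟨?_, ?_⟩, ?_⟩
        · rw [Finset.mem_coe, mem_lf]
          exact ⟨hg.1, hg.2.2⟩
        · rw [← blk00]
          exact hg.1
        · rintro rfl
          exact hg.2.1 (pe_e0 b)
      have hin1 : inR (((0, 0) : ℤ × ℤ).1 - (m:ℤ)) (((0, 0) : ℤ × ℤ).1 + m)
          (((0, 0) : ℤ × ℤ).2 - (m:ℤ)) (((0, 0) : ℤ × ℤ).2 + m) (src (e0 b)) := by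
        unfold inR
        rw [src_e0]
        simp only
        omega
      have hin2 : inR (((0, 0) : ℤ × ℤ).1 - (m:ℤ)) (((0, 0) : ℤ × ℤ).1 + m)
          (((0, 0) : ℤ × ℤ).2 - (m:ℤ)) (((0, 0) : ℤ × ℤ).2 + m) (tgt (e0 b)) := by
        unfold inR e0
        cases b
        · rw [tgt_false]
          simp only
          omega
        · rw [tgt_true]
          simp only
          omega
      have g1 : ∃ w ∈ bdR (-(m:ℤ)) m (-m) m,
          Reach (((↑(lf N (0, 0) m F) : Set Edg) ∩ ↑(boxE m)) \ {e0 b}) (src (e0 b)) w := by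
        rcases texit (ρ := m) (c := (0, 0)) h (src (e0 b)) rfl hin1 with ⟨w, hw, k, _⟩ |
          ⟨y', k1, k2, k3⟩
        · refine ⟨w, ?_, k.mono hsub⟩
          simpa using hw
        · exfalso
          have := pv_inj hN k1 hin2 k2
          rw [this] at k3
          exact hR (k3.mono hsub)
      have g2 : ∃ w ∈ bdR (-(m:ℤ)) m (-m) m,
          Reach (((↑(lf N (0, 0) m F) : Set Edg) ∩ ↑(boxE m)) \ {e0 b}) (tgt (e0 b)) w := by
        rcases texit (ρ := m) (c := (0, 0)) h.symm (tgt (e0 b)) rfl hin2 with ⟨w, hw, k, _⟩ |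
          ⟨y', k1, k2, k3⟩
        · refine ⟨w, ?_, k.mono hsub⟩
          simpa using hw
        · exfalso
          have := pv_inj hN k1 hin1 k2
          rw [this] at k3
          exact hR (k3.symm.mono hsub)
      exact ⟨g1, g2, hR⟩

/-- Exchange of the coordinates, edges. -/
def swE (N : ℕ) : TE N ≃ TE N where
  toFun e := (e.2.1, e.1, !e.2.2)
  invFun e := (e.2.1, e.1, !e.2.2)
  left_inv e := by simp
  right_inv e := by simp

/-- Exchange of the coordinates, vertices. -/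
def swV (N : ℕ) : TV N ≃ TV N := Equiv.prodComm _ _

theorem sw_ts (e : TE N) : ts (swE N e) = swV N (ts e) := rfl

theorem sw_tt (e : TE N) : tt (swE N e) = swV N (tt e) := by
  obtain ⟨x, y, _ | _⟩ := e
  · show tt (y, x, true) = swV N (tt (x, y, false))
    unfold tt swV
    simp
  · show tt (y, x, false) = swV N (tt (x, y, true))
    unfold tt swV
    simp

theorem hT_swap (q : ℝ) : hT N true q = hT N false q := by
  unfold hT
  rw [Pr_univ_map q (swE N)]
  apply Pr_congr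
  intro F _
  have := AA_map (s := ts) (t := tt) (swE N) (swV N) sw_ts sw_tt (0, 0, false) F
  exact this

/-- The same probability for all the edges. -/
theorem pr_AA (q : ℝ) (e : TE N) :
    Pr (fun _ => q) (Finset.univ : Finset (TE N)) (AA ts tt e) = hT N true q := by
  have e1 : Pr (fun _ => q) (Finset.univ : Finset (TE N)) (AA ts tt e) = hT N e.2.2 q := by
    rw [Pr_univ_map q (sh (ts e))]
    unfold hT
    apply Pr_congr
    intro F _
    have k := AA_map (s := ts) (t := tt) (sh (ts e)) (shv (ts e)) (sh_ts _) (sh_tt _)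
      (0, 0, e.2.2) F
    have e2 : sh (ts e) ((0, 0, e.2.2) : TE N) = e := by
      obtain ⟨x, y, b⟩ := e
      show ((0 + x, 0 + y, b) : TE N) = (x, y, b)
      rw [zero_add, zero_add]
    rw [e2] at k
    exact k
  rw [e1]
  cases e.2.2
  · exact (hT_swap q).symm
  · rfl

end Tor

end Pool.Agent.W2helper75.AU
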