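import Pool.Agent.W2helper75.AU.Tri

/-!
Counting on the torus and sums over residue classes.
-/

set_option autoImplicit false

namespace Pool.Agent.W2helper75.AU

open H974 H973N H12S Finset

section Cnt
variable {N : ℕ} [NeZero N]

theorem card_ball (u : TV N) {D : ℕ} (hD : 1 ≤ D) (C : Finset (TE N))
    (hC : ∀ f ∈ C, vd u (ts f) < D) : C.card ≤ 8 * D ^ 2 := by
  classical
  have h1 : C.card ≤ ((Finset.Icc (-((D:ℤ) - 1)) ((D:ℤ) - 1)) ×ˢ
      ((Finset.Icc (-((D:ℤ) - 1)) ((D:ℤ) - 1)) ×ˢ (Finset.univ : Finset Bool))).card := by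
    apply Finset.card_le_card_of_injOn
      (fun f : TE N => ((f.1 - u.1).valMinAbs, (f.2.1 - u.2).valMinAbs, f.2.2))
    · intro f hf
      have h2 := hC f hf
      rw [vd_comm] at h2
      unfold vd nd ts at h2
      simp only at h2
      simp only [Finset.coe_product, Set.mem_prod, Finset.mem_coe, Finset.mem_Icc,
        Finset.mem_univ, and_true]
      omega
    · intro f _ g _ hfg
      simp only [Prod.mk.injEq] at hfg
      obtain ⟨h2, h3, h4⟩ := hfg
      have h2' := sub_left_injective (ZMod.injective_valMinAbs h2)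
      have h3' := sub_left_injective (ZMod.injective_valMinAbs h3)
      exact Prod.ext h2' (Prod.ext h3' h4)
  refine h1.trans ?_
  rw [Finset.card_product, Finset.card_product, Int.card_Icc]
  have e1 : ((D:ℤ) - 1 + 1 - -((D:ℤ) - 1)).toNat = 2 * D - 1 := by omega
  rw [e1]
  simp only [Finset.card_univ, Fintype.card_bool]
  have e2 : 2 * D - 1 ≤ 2 * D := by omega
  calc (2 * D - 1) * ((2 * D - 1) * 2) ≤ (2 * D) * ((2 * D) * 2) :=
        Nat.mul_le_mul e2 (Nat.mul_le_mul_right _ e2)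
    _ = 8 * D ^ 2 := by ring

/-- Residue class. -/
def cls {M : ℕ} (hM : M ∣ N) (v : TV N) : TV M :=
  (ZMod.castHom hM (ZMod M) v.1, ZMod.castHom hM (ZMod M) v.2)

theorem cast_dvd {M : ℕ} (hM : M ∣ N) {x y : ZMod N}
    (h : ZMod.castHom hM (ZMod M) x = ZMod.castHom hM (ZMod M) y) {k : ℤ}
    (hk : (k : ZMod N) = x - y) : (M : ℤ) ∣ k := by
  have h1 : ZMod.castHom hM (ZMod M) (k : ZMod N) = 0 := by
    rw [hk, map_sub, h, sub_self]
  rw [map_intCast] at h1
  rwa [ZMod.intCast_zmod_eq_zero_iff_dvd] at h1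

theorem cls_sep {M : ℕ} (hM : M ∣ N) {v v' : TV N} (h : cls hM v = cls hM v') (hne : v ≠ v') :
    M ≤ vd v v' := by
  unfold cls at h
  simp only [Prod.mk.injEq] at h
  have key : ∀ x y : ZMod N, ZMod.castHom hM (ZMod M) x = ZMod.castHom hM (ZMod M) y →
      x ≠ y → M ≤ nd (x - y) := by
    intro x y hxy hne
    have h1 := cast_dvd hM hxy (k := (x - y).valMinAbs) (ZMod.coe_valMinAbs _)
    have h2 : (x - y).valMinAbs ≠ 0 := by
      rw [Ne, ZMod.valMinAbs_eq_zero]
      exact sub_ne_zero.mpr hne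
    have h3 := Int.le_of_dvd (abs_pos.mpr h2) ((dvd_abs _ _).mpr h1)
    unfold nd
    rw [Int.abs_eq_natAbs] at h3
    exact_mod_cast h3
  unfold vd
  by_cases h1 : v.1 = v'.1
  · have h2 : v.2 ≠ v'.2 := fun h2 => hne (Prod.ext h1 h2)
    exact (key _ _ h.2 h2).trans (le_max_right _ _)
  · exact (key _ _ h.1 h1).trans (le_max_left _ _)

theorem card_cls {M : ℕ} (hM : M ∣ N) (h1M : 1 ≤ M) (u : TV N) {D : ℕ} (C : Finset (TV N))
    (hC : ∀ v ∈ C, vd u v < D) (hcl : ∀ v ∈ C, ∀ v' ∈ C, cls hM v = cls hM v') :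
    C.card ≤ (2 * (D / M) + 2) ^ 2 := by
  classical
  have hMz : (0:ℤ) < M := by exact_mod_cast h1M
  have h1 : C.card ≤ ((Finset.Icc (-((D / M : ℕ):ℤ) - 1) ((D / M : ℕ):ℤ)) ×ˢ
      (Finset.Icc (-((D / M : ℕ):ℤ) - 1) ((D / M : ℕ):ℤ))).card := by
    apply Finset.card_le_card_of_injOn
      (fun v : TV N => ((v.1 - u.1).valMinAbs / (M:ℤ), (v.2 - u.2).valMinAbs / (M:ℤ)))
    · intro v hv
      have h2 := hC v hv
      rw [vd_comm] at h2
      unfold vd nd at h2
      have key : ∀ z : ℤ, z.natAbs < D → -((D / M : ℕ):ℤ) - 1 ≤ z / (M:ℤ) ∧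
          z / (M:ℤ) ≤ ((D / M : ℕ):ℤ) := by
        intro z hz
        push_cast
        have e1 : -(D:ℤ) < z ∧ z < D := by omega
        have d1 : (D:ℤ) < M * ((D:ℤ) / M) + M := Int.lt_mul_ediv_self_add hMz
        have d2 : z < M * (z / M) + M := Int.lt_mul_ediv_self_add hMz
        have d3 : (M:ℤ) * (z / M) ≤ z := Int.mul_ediv_self_le hMz.ne'
        constructor
        · by_contra hc
          push Not at hc
          have : (z / (M:ℤ)) + 1 ≤ -((D:ℤ) / M) - 1 := by omega
          have h3 := mul_le_mul_of_nonneg_left this hMz.le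
          nlinarith
        · by_contra hc
          push Not at hc
          have : ((D:ℤ) / M) + 1 ≤ z / (M:ℤ) := by omega
          have h3 := mul_le_mul_of_nonneg_left this hMz.le
          nlinarith
      simp only [Finset.coe_product, Set.mem_prod, Finset.mem_coe, Finset.mem_Icc]
      exact ⟨key _ (by omega), key _ (by omega)⟩
    · intro v hv v' hv' hvv
      simp only [Prod.mk.injEq] at hvv
      have hc := hcl v hv v' hv'
      unfold cls at hc
      simp only [Prod.mk.injEq] at hc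
      have key : ∀ x y w : ZMod N, ZMod.castHom hM (ZMod M) x = ZMod.castHom hM (ZMod M) y →
          (x - w).valMinAbs / (M:ℤ) = (y - w).valMinAbs / (M:ℤ) → x = y := by
        intro x y w h3 h4
        have h5 := cast_dvd hM h3 (k := (x - w).valMinAbs - (y - w).valMinAbs) (by
          rw [Int.cast_sub, ZMod.coe_valMinAbs, ZMod.coe_valMinAbs]
          ring)
        have d2 : (x - w).valMinAbs < M * ((x - w).valMinAbs / M) + M :=
          Int.lt_mul_ediv_self_add hMz
        have d3 : (M:ℤ) * ((x - w).valMinAbs / M) ≤ (x - w).valMinAbs :=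
          Int.mul_ediv_self_le hMz.ne'
        have d4 : (y - w).valMinAbs < M * ((y - w).valMinAbs / M) + M :=
          Int.lt_mul_ediv_self_add hMz
        have d5 : (M:ℤ) * ((y - w).valMinAbs / M) ≤ (y - w).valMinAbs :=
          Int.mul_ediv_self_le hMz.ne'
        rw [h4] at d2 d3
        have h6 := Int.eq_zero_of_abs_lt_dvd h5 (by rw [abs_lt]; omega)
        have h7 : (x - w).valMinAbs = (y - w).valMinAbs := by omega
        exact sub_left_injective (ZMod.injective_valMinAbs h7)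
      exact Prod.ext (key _ _ u.1 hc.1 hvv.1) (key _ _ u.2 hc.2 hvv.2)
  refine h1.trans ?_
  rw [Finset.card_product, Int.card_Icc]
  have e1 : (((D / M : ℕ):ℤ) + 1 - (-((D / M : ℕ):ℤ) - 1)).toNat = 2 * (D / M) + 2 := by omega
  rw [e1, sq]

/-- Sum over residue classes. -/
theorem class_sum' {M : ℕ} (hM : M ∣ N) (h1M : 1 ≤ M) (u : TV N) {D : ℕ} (Sh : Finset (TV N))
    (hSh : ∀ v ∈ Sh, vd u v < D) (Φ : TV N → ℝ) {B : ℝ} (hB0 : 0 ≤ B)
    (hB : ∀ C : Finset (TV N), C ⊆ Sh → (∀ v ∈ C, ∀ v' ∈ C, v ≠ v' → M ≤ vd v v') →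
      ∑ v ∈ C, Φ v ≤ B * Real.sqrt C.card) :
    ∑ v ∈ Sh, Φ v ≤ (M:ℝ) ^ 2 * (B * (2 * (D / M : ℕ) + 2)) := by
  classical
  have hMz : NeZero M := ⟨by omega⟩
  have e1 : ∑ v ∈ Sh, Φ v = ∑ c ∈ (Finset.univ : Finset (TV M)),
      ∑ v ∈ Sh with cls hM v = c, Φ v := by
    rw [Finset.sum_fiberwise_of_maps_to]
    intro v _
    exact Finset.mem_univ _
  rw [e1]
  have h1 : ∀ c ∈ (Finset.univ : Finset (TV M)), ∑ v ∈ Sh with cls hM v = c, Φ v ≤
      B * (2 * (D / M : ℕ) + 2) := by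
    intro c _
    have h2 := hB (Sh.filter (fun v => cls hM v = c)) (Finset.filter_subset _ _) (by
      intro v hv v' hv' hne
      exact cls_sep hM ((Finset.mem_filter.mp hv).2.trans (Finset.mem_filter.mp hv').2.symm) hne)
    refine h2.trans (mul_le_mul_of_nonneg_left ?_ hB0)
    have h3 := card_cls hM h1M u (D := D) (Sh.filter (fun v => cls hM v = c))
      (fun v hv => hSh v (Finset.mem_filter.mp hv).1)
      (fun v hv v' hv' => (Finset.mem_filter.mp hv).2.trans (Finset.mem_filter.mp hv').2.symm)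
    have h4 : ((Sh.filter (fun v => cls hM v = c)).card : ℝ) ≤ (2 * (D / M : ℕ) + 2) ^ 2 := by
      exact_mod_cast h3
    calc Real.sqrt ((Sh.filter (fun v => cls hM v = c)).card : ℝ)
        ≤ Real.sqrt ((2 * ((D / M : ℕ) : ℝ) + 2) ^ 2) := Real.sqrt_le_sqrt h4
      _ = 2 * ((D / M : ℕ) : ℝ) + 2 := Real.sqrt_sq (by positivity)
  refine (Finset.sum_le_sum h1).trans (le_of_eq ?_)
  rw [Finset.sum_const, nsmul_eq_mul]
  congr 1
  rw [Finset.card_univ, Fintype.card_prod, ZMod.card]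
  push_cast
  ring

end Cnt

end Pool.Agent.W2helper75.AU
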