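import Pool.Agent.W2helper75.AU.Box

/-!
The mean cluster density and its expansion at the critical point.
-/

set_option autoImplicit false

namespace Pool.Agent.W2helper75.AU

open H974 H973N H12S Finset Filter Topology MeasureTheory

/-- The mean cluster density. -/
noncomputable def kap' (q : ℝ) : ℝ := 1 - 2 * ∫ t in (0:ℝ)..q, (1 - hI t)

theorem hn_cont (n : ℕ) : Continuous (hn n) := hT_cont (n := n + 1)

theorem hn_unif : TendstoUniformlyOn hn hI atTop (Set.Icc 0 1) := by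
  rw [Metric.tendstoUniformlyOn_iff]
  intro ε hε
  obtain ⟨m, hm1, hm2⟩ := ((arm_tend.eventually (gt_mem_nhds hε)).and
    (eventually_ge_atTop 1)).exists
  filter_upwards [eventually_ge_atTop (2 * m)] with n hn' q hq
  rw [Real.dist_eq]
  exact lt_of_le_of_lt (hI_unif hm2 (by omega) hq.1 hq.2) hm1

theorem hI_cont : ContinuousOn hI (Set.Icc 0 1) :=
  hn_unif.continuousOn (Frequently.of_forall fun n => (hn_cont n).continuousOn)

theorem hn_bd (n : ℕ) {q : ℝ} (h0 : 0 ≤ q) (h1 : q ≤ 1) : 0 ≤ hn n q ∧ hn n q ≤ 1 :=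
  ⟨Pr_nonneg (fun _ => ⟨h0, h1⟩) _ _, Pr_le_one (fun _ => ⟨h0, h1⟩) _ _⟩

theorem hI_bd {q : ℝ} (h0 : 0 ≤ q) (h1 : q ≤ 1) : 0 ≤ hI q ∧ hI q ≤ 1 :=
  ⟨ge_of_tendsto' (hn_tend h0 h1) fun n => (hn_bd n h0 h1).1,
    le_of_tendsto' (hn_tend h0 h1) fun n => (hn_bd n h0 h1).2⟩

theorem hI_ii {a b : ℝ} (ha : a ∈ Set.Icc (0:ℝ) 1) (hb : b ∈ Set.Icc (0:ℝ) 1) :
    IntervalIntegrable hI volume a b := by
  apply ContinuousOn.intervalIntegrable
  exact hI_cont.mono (Set.uIcc_subset_Icc ha hb)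

theorem kT_tend (p : unitInterval) :
    Tendsto (fun n : ℕ => kT (n + 1) p) atTop (𝓝 (kap' p)) := by
  rw [Metric.tendsto_atTop]
  intro ε hε
  obtain ⟨m, hm1, hm2⟩ := ((arm_tend.eventually (gt_mem_nhds (show 0 < ε / 4 by positivity))).and
    (eventually_ge_atTop 1)).exists
  refine ⟨2 * m, fun n hn' => ?_⟩
  rw [Real.dist_eq, kT_int]
  unfold kap'
  have e1 : (1 - 2 * ∫ t in (0:ℝ)..p, (1 - hT (n + 1) true t)) -
      (1 - 2 * ∫ t in (0:ℝ)..p, (1 - hI t)) = 2 * ∫ t in (0:ℝ)..p, (hn n t - hI t) := by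
    have i1 : IntervalIntegrable (fun t => 1 - hI t) volume 0 p :=
      intervalIntegrable_const.sub (hI_ii ⟨le_rfl, zero_le_one⟩ p.2)
    have i2 : IntervalIntegrable (fun t => 1 - hT (n + 1) true t) volume 0 p :=
      Continuous.intervalIntegrable (by
        have := hT_cont (n := n + 1)
        fun_prop) _ _
    have e2 : (fun t => hn n t - hI t) = fun t => (1 - hI t) - (1 - hT (n + 1) true t) := by
      funext t
      unfold hn
      ring
    rw [e2, intervalIntegral.integral_sub i1 i2]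
    ring
  rw [e1, abs_mul]
  have e3 : ‖∫ t in (0:ℝ)..p, (hn n t - hI t)‖ ≤ ε / 4 * |(p:ℝ) - 0| := by
    apply intervalIntegral.norm_integral_le_of_norm_le_const
    intro t ht
    have ht' : t ∈ Set.Icc (0:ℝ) 1 := by
      rw [Set.uIoc_of_le p.2.1] at ht
      exact ⟨ht.1.le, ht.2.trans p.2.2⟩
    rw [Real.norm_eq_abs, abs_sub_comm]
    exact (hI_unif hm2 (by omega) ht'.1 ht'.2).trans hm1.le
  rw [Real.norm_eq_abs, sub_zero, abs_of_nonneg p.2.1] at e3
  have hp1 : (p:ℝ) ≤ 1 := p.2.2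
  have hp0 : 0 ≤ (p:ℝ) := p.2.1
  rw [abs_of_pos (by norm_num : (0:ℝ) < 2)]
  nlinarith

theorem mean_tend (p : unitInterval) :
    Tendsto (fun n : ℕ => meanCount p n / (n:ℝ) ^ 2) atTop (𝓝 (kap' p)) := by
  rw [← tendsto_add_atTop_iff_nat 1]
  have h1 : Tendsto (fun n : ℕ => meanCount p (n + 1) / (((n + 1 : ℕ)):ℝ) ^ 2 - kT (n + 1) p)
      atTop (𝓝 0) := by
    have h2 : Tendsto (fun n : ℕ => 2 / (((n + 1 : ℕ)):ℝ)) atTop (𝓝 0) :=
      (tendsto_const_div_atTop_nhds_zero_nat 2).comp (tendsto_add_atTop_nat 1)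
    refine squeeze_zero_norm (fun n => ?_) h2
    rw [Real.norm_eq_abs]
    exact mean_kT (n := n + 1) p
  have h3 := h1.add (kT_tend p)
  simp only [sub_add_cancel, zero_add] at h3
  exact h3

theorem kap_deriv {q : ℝ} (h0 : 0 < q) (h1 : q < 1) :
    HasDerivAt kap' (-2 * (1 - hI q)) q := by
  have hcont : ContinuousAt hI q := (hI_cont q ⟨h0.le, h1.le⟩).continuousAt
    (Icc_mem_nhds h0 h1)
  have hmeas : StronglyMeasurableAtFilter (fun t => 1 - hI t) (𝓝 q) volume := by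
    refine ⟨Set.Icc 0 1, Icc_mem_nhds h0 h1, ?_⟩
    exact (continuousOn_const.sub hI_cont).aestronglyMeasurable measurableSet_Icc
  have h2 := intervalIntegral.integral_hasDerivAt_right
    (f := fun t => 1 - hI t) (a := 0) (b := q)
    (intervalIntegrable_const.sub (hI_ii ⟨le_rfl, zero_le_one⟩ ⟨h0.le, h1.le⟩)) hmeas
    (continuousAt_const.sub hcont)
  have h3 := (h2.const_mul 2).const_sub 1
  have e1 : -(2 * (1 - hI q)) = -2 * (1 - hI q) := by ring
  rw [e1] at h3
  exact h3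

/-- **Main theorem.** -/
theorem main : ∃ κ : ℝ → ℝ,
    (∀ p : unitInterval, Tendsto (fun n : ℕ => meanCount p n / (n:ℝ) ^ 2) atTop (𝓝 (κ p))) ∧
    (∀ p ∈ Set.Ioo (0:ℝ) 1, DifferentiableAt ℝ κ p) ∧
    DifferentiableAt ℝ (deriv κ) (1 / 2) ∧
    ∃ C : ℝ, 0 < C ∧
      (∀ p ∈ Set.Ioo (0:ℝ) 1,
        |deriv κ p - deriv κ (1 / 2) - deriv (deriv κ) (1 / 2) * (p - 1 / 2)| ≤
          C * |p - 1 / 2| ^ (5 / 3 : ℝ)) ∧
      ∀ p ∈ Set.Icc (0:ℝ) 1,
        |κ p - κ (1 / 2) - deriv κ (1 / 2) * (p - 1 / 2) -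
          1 / 2 * deriv (deriv κ) (1 / 2) * (p - 1 / 2) ^ 2| ≤ C * |p - 1 / 2| ^ (8 / 3 : ℝ) := by
  obtain ⟨L, C0, δ, hC0, hδ, hexp⟩ := hI_expand
  have hd : ∀ p ∈ Set.Ioo (0:ℝ) 1, HasDerivAt kap' (-2 * (1 - hI p)) p :=
    fun p hp => kap_deriv hp.1 hp.2
  have hder : ∀ p ∈ Set.Ioo (0:ℝ) 1, deriv kap' p = -2 * (1 - hI p) := fun p hp => (hd p hp).deriv
  have hhalf : (1/2:ℝ) ∈ Set.Ioo (0:ℝ) 1 := by constructor <;> norm_num
  -- derivative of `hI`
  have hdI : HasDerivAt hI L (1/2) := by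
    rw [hasDerivAt_iff_isLittleO]
    have hO : (fun q => hI q - hI (1/2) - (q - 1/2) • L) =O[𝓝 (1/2)]
        fun q => |q - 1/2| ^ (5/3 : ℝ) := by
      apply Asymptotics.IsBigO.of_bound C0
      filter_upwards [Metric.closedBall_mem_nhds (1/2 : ℝ) hδ] with q hq
      rw [Metric.mem_closedBall, Real.dist_eq] at hq
      rw [smul_eq_mul, mul_comm (q - 1/2), Real.norm_eq_abs, Real.norm_eq_abs,
        abs_of_nonneg (show 0 ≤ |q - 1/2| ^ (5/3 : ℝ) by positivity)]
      exact hexp q hq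
    refine hO.trans_isLittleO ?_
    have h2 : Tendsto (fun q : ℝ => |q - 1/2| ^ (2/3 : ℝ)) (𝓝 (1/2)) (𝓝 0) := by
      have : ContinuousAt (fun q : ℝ => |q - 1/2| ^ (2/3 : ℝ)) (1/2) := by
        apply ContinuousAt.rpow_const
        · fun_prop
        · right; norm_num
      have h3 := this.tendsto
      simpa using h3
    rw [Asymptotics.isLittleO_iff]
    intro c hc
    filter_upwards [h2.eventually (gt_mem_nhds hc)] with q hq
    rw [Real.norm_eq_abs, Real.norm_eq_abs,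
      abs_of_nonneg (show 0 ≤ |q - 1/2| ^ (5/3 : ℝ) by positivity)]
    have e1 : |q - 1/2| ^ (5/3 : ℝ) = |q - 1/2| ^ (2/3 : ℝ) * |q - 1/2| := by
      rw [← Real.rpow_add_one' (abs_nonneg _) (by norm_num)]
      norm_num
    rw [e1]
    exact mul_le_mul_of_nonneg_right hq.le (abs_nonneg _)
  have hev : deriv kap' =ᶠ[𝓝 (1/2)] fun q => -2 * (1 - hI q) := by
    filter_upwards [Ioo_mem_nhds hhalf.1 hhalf.2] with q hq
    exact hder q hq
  have hdd : HasDerivAt (deriv kap') (2 * L) (1/2) := by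
    have h2 := ((hdI.const_sub 1).const_mul (-2))
    have e1 : -2 * -L = 2 * L := by ring
    rw [e1] at h2
    exact h2.congr_of_eventuallyEq hev
  have hddv : deriv (deriv kap') (1/2) = 2 * L := hdd.deriv
  -- global bound for the first derivative
  obtain ⟨C1, hC1⟩ : ∃ C1 : ℝ, C1 = 2 * C0 + 2 * (1 + |L|) * (δ⁻¹) ^ (5/3 : ℝ) := ⟨_, rfl⟩
  have hC10 : 0 < C1 := by
    rw [hC1]
    have : 0 ≤ 2 * (1 + |L|) * (δ⁻¹) ^ (5/3 : ℝ) := by positivity
    linarith
  have hglob : ∀ p ∈ Set.Icc (0:ℝ) 1, |2 * (hI p - hI (1/2) - L * (p - 1/2))| ≤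
      C1 * |p - 1/2| ^ (5/3 : ℝ) := by
    intro p hp
    have hpp : 0 ≤ |p - 1/2| ^ (5/3 : ℝ) := by positivity
    rw [abs_mul, abs_of_pos (by norm_num : (0:ℝ) < 2)]
    rcases le_or_gt |p - 1/2| δ with h | h
    · have h2 := hexp p h
      have h3 : 0 ≤ 2 * (1 + |L|) * (δ⁻¹) ^ (5/3 : ℝ) * |p - 1/2| ^ (5/3 : ℝ) := by positivity
      rw [hC1, add_mul]
      linarith
    · have b1 := hI_bd hp.1 hp.2
      have b2 := hI_bd (q := 1/2) (by norm_num) (by norm_num)
      have b3 : |hI p - hI (1/2)| ≤ 1 := by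
        rw [abs_le]
        constructor <;> linarith [b1.1, b1.2, b2.1, b2.2]
      have b4 : |p - 1/2| ≤ 1 := by
        rw [abs_le]
        constructor <;> linarith [hp.1, hp.2]
      have b5 : |hI p - hI (1/2) - L * (p - 1/2)| ≤ 1 + |L| := by
        calc |hI p - hI (1/2) - L * (p - 1/2)| ≤ |hI p - hI (1/2)| + |L * (p - 1/2)| :=
              abs_sub _ _
          _ ≤ 1 + |L| := by
              rw [abs_mul]
              have := mul_le_mul_of_nonneg_left b4 (abs_nonneg L)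
              linarith
      have b6 : 1 ≤ (δ⁻¹) ^ (5/3 : ℝ) * |p - 1/2| ^ (5/3 : ℝ) := by
        rw [← Real.mul_rpow (by positivity) (abs_nonneg _)]
        apply Real.one_le_rpow _ (by norm_num)
        rw [inv_mul_eq_div, le_div_iff₀ hδ, one_mul]
        exact h.le
      have b7 : 0 ≤ 2 * C0 * |p - 1/2| ^ (5/3 : ℝ) := by positivity
      have b8 : 2 * (1 + |L|) ≤ 2 * (1 + |L|) * ((δ⁻¹) ^ (5/3 : ℝ) * |p - 1/2| ^ (5/3 : ℝ)) := by
        have : 0 ≤ 2 * (1 + |L|) := by positivity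
        nlinarith
      rw [hC1, add_mul]
      linarith
  refine ⟨kap', mean_tend, fun p hp => (hd p hp).differentiableAt, hdd.differentiableAt, C1,
    hC10, ?_, ?_⟩
  · intro p hp
    rw [hder p hp, hder _ hhalf, hddv]
    have e1 : -2 * (1 - hI p) - -2 * (1 - hI (1/2)) - 2 * L * (p - 1/2) =
        2 * (hI p - hI (1/2) - L * (p - 1/2)) := by ring
    rw [e1]
    exact hglob p ⟨hp.1.le, hp.2.le⟩
  · intro p hp
    rw [hder _ hhalf, hddv]
    have hh : (1/2:ℝ) ∈ Set.Icc (0:ℝ) 1 := ⟨hhalf.1.le, hhalf.2.le⟩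
    have i0 : IntervalIntegrable hI volume (1/2) p := hI_ii hh hp
    have e1 : kap' p - kap' (1/2) - -2 * (1 - hI (1/2)) * (p - 1/2) -
        1 / 2 * (2 * L) * (p - 1/2) ^ 2 =
        ∫ t in (1/2:ℝ)..p, 2 * (hI t - hI (1/2) - L * (t - 1/2)) := by
      have j1 : kap' p - kap' (1/2) = -2 * ∫ t in (1/2:ℝ)..p, (1 - hI t) := by
        unfold kap'
        have := intervalIntegral.integral_interval_sub_left
          (f := fun t => 1 - hI t) (a := 0) (b := p) (c := 1/2) (μ := volume)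
          (intervalIntegrable_const.sub (hI_ii ⟨le_rfl, zero_le_one⟩ hp))
          (intervalIntegrable_const.sub (hI_ii ⟨le_rfl, zero_le_one⟩ hh))
        linarith
      have j2 : ∫ t in (1/2:ℝ)..p, (1 - hI t) = (p - 1/2) - ∫ t in (1/2:ℝ)..p, hI t := by
        rw [intervalIntegral.integral_sub intervalIntegrable_const i0]
        simp
      have j3 : ∫ t in (1/2:ℝ)..p, 2 * (hI t - hI (1/2) - L * (t - 1/2)) =
          2 * ((∫ t in (1/2:ℝ)..p, hI t) - hI (1/2) * (p - 1/2) - L * (p - 1/2) ^ 2 / 2) := by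
        rw [intervalIntegral.integral_const_mul]
        congr 1
        have c1 : IntervalIntegrable (fun t : ℝ => L * (t - 1/2)) volume (1/2) p :=
          Continuous.intervalIntegrable (by fun_prop) _ _
        have c2 : IntervalIntegrable (fun _ : ℝ => hI (1/2)) volume (1/2) p :=
          intervalIntegrable_const
        rw [intervalIntegral.integral_sub (i0.sub c2) c1, intervalIntegral.integral_sub i0 c2]
        have e3 : ∫ t in (1/2:ℝ)..p, L * (t - 1/2) = L * (p - 1/2) ^ 2 / 2 := by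
          rw [intervalIntegral.integral_const_mul, intervalIntegral.integral_sub
            (Continuous.intervalIntegrable (by fun_prop) _ _) intervalIntegrable_const,
            integral_id]
          simp only [intervalIntegral.integral_const, smul_eq_mul]
          ring
        rw [e3]
        simp only [intervalIntegral.integral_const, smul_eq_mul]
        ring
      rw [j1, j2, j3]
      ring
    rw [e1]
    have e2 : ‖∫ t in (1/2:ℝ)..p, 2 * (hI t - hI (1/2) - L * (t - 1/2))‖ ≤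
        C1 * |p - 1/2| ^ (5/3 : ℝ) * |p - 1/2| := by
      apply intervalIntegral.norm_integral_le_of_norm_le_const
      intro t ht
      have ht1 : t ∈ Set.Icc (0:ℝ) 1 := Set.uIcc_subset_Icc hh hp (Set.uIoc_subset_uIcc ht)
      have ht2 : |t - 1/2| ≤ |p - 1/2| := by
        rcases Set.mem_uIoc.mp ht with ⟨k1, k2⟩ | ⟨k1, k2⟩
        · rw [abs_of_pos (by linarith), abs_of_pos (by linarith)]
          linarith
        · rw [abs_of_nonpos (by linarith), abs_of_neg (by linarith)]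
          linarith
      rw [Real.norm_eq_abs]
      refine (hglob t ht1).trans (mul_le_mul_of_nonneg_left ?_ hC10.le)
      exact Real.rpow_le_rpow (abs_nonneg _) ht2 (by norm_num)
    rw [Real.norm_eq_abs] at e2
    refine e2.trans (le_of_eq ?_)
    rw [mul_assoc, ← Real.rpow_add_one' (abs_nonneg _) (by norm_num)]
    norm_num

end Pool.Agent.W2helper75.AU
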