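import Pool.Agent.H973R3.NC.DV

/-!
Number of clusters of a finite multigraph, its differences, and the three-edge event.
-/

set_option autoImplicit false

namespace Pool.Agent.W2helper75.AU

open H974 H973N Finset

section Graph

variable {E V : Type*}

/-- Connection as an equivalence relation. -/
def gset (s t : E → V) (F : Set E) : Setoid V where
  r := GR s t F
  iseqv := ⟨fun u => GR.refl F u, fun h => h.symm, fun h h' => h.trans h'⟩

/-- Number of clusters. -/
noncomputable def nc (s t : E → V) (F : Set E) : ℕ := Nat.card (Quotient (gset s t F))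

variable {s t : E → V}

theorem nc_insert_of {F : Set E} {e : E} (h : GR s t F (s e) (t e)) :
    nc s t (insert e F) = nc s t F := by
  have : gset s t (insert e F) = gset s t F := by
    ext u v
    show GR s t (insert e F) u v ↔ GR s t F u v
    rw [GR_insert]
    constructor
    · rintro (h1 | ⟨h1, h2⟩ | ⟨h1, h2⟩)
      · exact h1
      · exact h1.trans (h.trans h2)
      · exact h1.trans (h.symm.trans h2)
    · exact Or.inl
  unfold nc
  rw [this]

theorem nc_insert_not [Finite V] {F : Set E} {e : E} (h : ¬ GR s t F (s e) (t e)) :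
    nc s t F = nc s t (insert e F) + 1 := by
  classical
  set b : Quotient (gset s t F) := Quotient.mk _ (t e) with hb
  let φ : {x : Quotient (gset s t F) // x ≠ b} → Quotient (gset s t (insert e F)) :=
    fun x => Quotient.map' (s₁ := gset s t F) (s₂ := gset s t (insert e F)) id
      (fun _ _ (h : GR s t F _ _) => h.mono (Set.subset_insert _ _)) x.1
  have hφ : Function.Bijective φ := by
    constructor
    · rintro ⟨x, hx⟩ ⟨y, hy⟩ hxy
      apply Subtype.ext
      simp only
      induction x using Quotient.inductionOn with
      | h u =>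
      induction y using Quotient.inductionOn with
      | h v =>
      have h1 : GR s t (insert e F) u v := Quotient.exact (s := gset s t (insert e F)) hxy
      have hu : ¬ GR s t F u (t e) := fun hc => hx (Quotient.sound (s := gset s t F) hc)
      have hv : ¬ GR s t F v (t e) := fun hc => hy (Quotient.sound (s := gset s t F) hc)
      rw [GR_insert] at h1
      rcases h1 with h1 | ⟨_, h2⟩ | ⟨h2, _⟩
      · exact Quotient.sound (s := gset s t F) h1
      · exact absurd h2.symm hv
      · exact absurd h2 hu
    · intro y
      induction y using Quotient.inductionOn with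
      | h v =>
      by_cases hv : GR s t F v (t e)
      · refine ⟨⟨Quotient.mk _ (s e), ?_⟩, ?_⟩
        · intro hc
          exact h (Quotient.exact (s := gset s t F) hc)
        · apply Quotient.sound (s := gset s t (insert e F))
          show GR s t (insert e F) (s e) v
          rw [GR_insert]
          exact Or.inr (Or.inl ⟨GR.refl _ _, hv.symm⟩)
      · refine ⟨⟨Quotient.mk _ v, ?_⟩, ?_⟩
        · intro hc
          exact hv (Quotient.exact (s := gset s t F) hc)
        · rfl
  have h1 : Nat.card {x : Quotient (gset s t F) // x ≠ b} = nc s t (insert e F) :=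
    Nat.card_congr (Equiv.ofBijective φ hφ)
  have h2 : Nat.card {x : Quotient (gset s t F) // x ≠ b} + 1 = nc s t F := by
    have : Fintype (Quotient (gset s t F)) := Fintype.ofFinite _
    unfold nc
    rw [Nat.card_eq_fintype_card, Nat.card_eq_fintype_card, Fintype.card_subtype_compl,
      Fintype.card_subtype_eq]
    have : 0 < Fintype.card (Quotient (gset s t F)) := Fintype.card_pos_iff.mpr ⟨b⟩
    omega
  omega

variable [DecidableEq E]

/-- The ends of `e` are connected without using `e`. -/
def AA (s t : E → V) (e : E) (F : Finset E) : Prop := GR s t (↑(F.erase e) : Set E) (s e) (t e)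

theorem AA_mono {e : E} {F G : Finset E} (h : F ⊆ G) (hF : AA s t e F) : AA s t e G :=
  GR.mono (by exact_mod_cast erase_subset_erase e h) hF

/-- Number of clusters as a real function. -/
noncomputable def kk (s t : E → V) (F : Finset E) : ℝ := nc s t (↑F : Set E)

/-- Difference operator. -/
def dd (e : E) (φ : Finset E → ℝ) (F : Finset E) : ℝ := φ (insert e F) - φ (F.erase e)

theorem dd_kk [Finite V] (e : E) (F : Finset E) :
    dd e (kk s t) F = ind (AA s t e F) - 1 := by
  unfold dd kk
  have e1 : (↑(insert e F) : Set E) = insert e (↑(F.erase e) : Set E) := by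
    ext x
    by_cases hx : x = e <;> simp [hx]
  rw [e1]
  by_cases h : GR s t (↑(F.erase e) : Set E) (s e) (t e)
  · rw [nc_insert_of h, ind_of (show AA s t e F from h)]
    ring
  · have := nc_insert_not h
    rw [ind_not_of (show ¬ AA s t e F from h), this]
    push_cast
    ring

theorem dd_comm {e f : E} (h : e ≠ f) (φ : Finset E → ℝ) (F : Finset E) :
    dd e (dd f φ) F = dd f (dd e φ) F := by
  unfold dd
  have k1 : insert f (insert e F) = insert e (insert f F) := Finset.insert_comm _ _ _
  have k2 : (insert e F).erase f = insert e (F.erase f) := erase_insert_of_ne h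
  have k3 : insert f (F.erase e) = (insert f F).erase e := (erase_insert_of_ne h.symm).symm
  have k4 : (F.erase e).erase f = (F.erase f).erase e := erase_right_comm
  rw [k1, k2, k3, k4]
  ring

theorem dd_congr {e : E} {φ ψ : Finset E → ℝ} (h : ∀ F, φ F = ψ F) (F : Finset E) :
    dd e φ F = dd e ψ F := by
  unfold dd
  rw [h, h]

/-- The three-edge event. -/
def T3 (s t : E → V) (e f g : E) (F : Finset E) : Prop :=
  dd e (dd f (dd g (kk s t))) F ≠ 0

theorem T3_swap12 {e f g : E} (h : e ≠ f) (F : Finset E) :
    T3 s t e f g F ↔ T3 s t f e g F := by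
  unfold T3
  rw [dd_comm h]

theorem T3_swap23 {e f g : E} (h : f ≠ g) (F : Finset E) :
    T3 s t e f g F ↔ T3 s t e g f F := by
  unfold T3
  rw [dd_congr (fun F => dd_comm h (kk s t) F)]

theorem T3_eq [Finite V] {e f g : E} (hef : e ≠ f) (heg : e ≠ g) (F : Finset E) :
    dd e (dd f (dd g (kk s t))) F = dd f (dd g (fun F => ind (AA s t e F))) F := by
  rw [dd_comm hef, dd_congr (fun F => dd_comm heg (kk s t) F)]
  unfold dd
  have := fun F => dd_kk (s := s) (t := t) e F
  unfold dd at this
  simp only [this]
  ring

/-- The value of the second difference of a monotone event. -/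
theorem dd_mono_cases {A : Finset E → Prop} (hA : ∀ F G : Finset E, F ⊆ G → A F → A G)
    {f g : E} (hfg : f ≠ g) (F : Finset E) :
    |dd f (dd g (fun F => ind (A F))) F| ≤ 1 ∧
    (dd f (dd g (fun F => ind (A F))) F ≠ 0 →
      A (insert g (insert f F)) ∧ ¬ A ((F.erase f).erase g) ∧
      (Pf A f (insert g F) ∨ Pf A f (F.erase g))) := by
  unfold dd
  have s1 : (F.erase f).erase g ⊆ insert g (F.erase f) := fun x hx => by
    simp only [mem_erase, mem_insert] at hx ⊢; tauto
  have s2 : (F.erase f).erase g ⊆ (insert f F).erase g := fun x hx => by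
    simp only [mem_erase, mem_insert] at hx ⊢; tauto
  have s3 : insert g (F.erase f) ⊆ insert g (insert f F) := fun x hx => by
    simp only [mem_erase, mem_insert] at hx ⊢; tauto
  have s4 : (insert f F).erase g ⊆ insert g (insert f F) := fun x hx => by
    simp only [mem_erase, mem_insert] at hx ⊢; tauto
  have r1 : insert f (insert g F) = insert g (insert f F) := Finset.insert_comm _ _ _
  have r2 : (insert g F).erase f = insert g (F.erase f) := erase_insert_of_ne hfg.symm
  have r3 : insert f (F.erase g) = (insert f F).erase g := (erase_insert_of_ne hfg).symm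
  have r4 : (F.erase g).erase f = (F.erase f).erase g := erase_right_comm
  unfold Pf
  rw [r1, r2, r3, r4]
  by_cases a : A (insert g (insert f F)) <;> by_cases b : A ((insert f F).erase g) <;>
    by_cases c : A (insert g (F.erase f)) <;> by_cases d : A ((F.erase f).erase g)
  all_goals
    try (exact absurd (hA _ _ s1 d) c)
  all_goals
    try (exact absurd (hA _ _ s2 d) b)
  all_goals
    try (exact absurd (hA _ _ s3 c) a)
  all_goals
    try (exact absurd (hA _ _ s4 b) a)
  all_goals
    simp only [ind_of, ind_not_of, a, b, c, d, not_false_eq_true, not_true_eq_false]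
    norm_num

theorem T3_imp [Finite V] {e f g : E} (hef : e ≠ f) (heg : e ≠ g) (hfg : f ≠ g) {F : Finset E}
    (h : T3 s t e f g F) : AA s t e (insert g (insert f F)) ∧ ¬ AA s t e ((F.erase f).erase g) ∧
      (Pf (AA s t e) f (insert g F) ∨ Pf (AA s t e) f (F.erase g)) := by
  unfold T3 at h
  rw [T3_eq hef heg] at h
  exact (dd_mono_cases (fun F G hFG hF => AA_mono hFG hF) hfg F).2 h

/-- Two edges in a block. -/
theorem T3_Bf [Finite V] {e f g : E} (hef : e ≠ f) (heg : e ≠ g) (hfg : f ≠ g) {F b : Finset E}
    (hf : f ∈ b) (hg : g ∈ b) (h : T3 s t e f g F) : Bf (AA s t e) b F := by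
  obtain ⟨h1, h2, _⟩ := T3_imp hef heg hfg h
  refine ⟨AA_mono ?_ h1, fun hc => h2 (AA_mono ?_ hc)⟩
  · intro x hx
    simp only [mem_insert, mem_union] at hx ⊢
    rcases hx with rfl | rfl | hx
    · exact Or.inr hg
    · exact Or.inr hf
    · exact Or.inl hx
  · intro x hx
    simp only [mem_erase, mem_sdiff] at hx ⊢
    exact ⟨fun h => hx.2 (h ▸ hg), fun h => hx.2 (h ▸ hf), hx.1⟩

theorem dd_self {e : E} {φ : Finset E → ℝ} (h : ∀ F, φ (insert e F) = φ (F.erase e))
    (F : Finset E) : dd e φ F = 0 := by
  unfold dd
  rw [h, sub_self]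

theorem T3_local {e f g : E} {F G : Finset E}
    (h : ∀ x, x ≠ e → x ≠ f → x ≠ g → (x ∈ F ↔ x ∈ G)) : T3 s t e f g F ↔ T3 s t e f g G := by
  have key : ∀ φ : Finset E → ℝ, dd e (dd f (dd g φ)) F = dd e (dd f (dd g φ)) G := by
    intro φ
    unfold dd
    have q : ∀ F' G' : Finset E, F' = G' → φ F' = φ G' := fun _ _ h => by rw [h]
    have e1 : insert g (insert f (insert e F)) = insert g (insert f (insert e G)) := by
      ext x; have := h x; simp only [mem_insert]; tauto
    have e2 : (insert f (insert e F)).erase g = (insert f (insert e G)).erase g := by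
      ext x; have := h x; simp only [mem_insert, mem_erase]; tauto
    have e3 : insert g ((insert e F).erase f) = insert g ((insert e G).erase f) := by
      ext x; have := h x; simp only [mem_insert, mem_erase]; tauto
    have e4 : ((insert e F).erase f).erase g = ((insert e G).erase f).erase g := by
      ext x; have := h x; simp only [mem_insert, mem_erase]; tauto
    have e5 : insert g (insert f (F.erase e)) = insert g (insert f (G.erase e)) := by
      ext x; have := h x; simp only [mem_insert, mem_erase]; tauto
    have e6 : (insert f (F.erase e)).erase g = (insert f (G.erase e)).erase g := by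
      ext x; have := h x; simp only [mem_insert, mem_erase]; tauto
    have e7 : insert g ((F.erase e).erase f) = insert g ((G.erase e).erase f) := by
      ext x; have := h x; simp only [mem_insert, mem_erase]; tauto
    have e8 : ((F.erase e).erase f).erase g = ((G.erase e).erase f).erase g := by
      ext x; have := h x; simp only [mem_erase]; tauto
    rw [e1, e2, e3, e4, e5, e6, e7, e8]
  unfold T3
  rw [key]

/-- Derivative of the expected number of clusters. -/
theorem deriv_kk [Finite V] (S : Finset E) (q : ℝ) :
    HasDerivAt (fun q : ℝ => Ex (fun _ => q) S (kk s t))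
      (∑ e ∈ S, (Pr (fun _ => q) S (AA s t e) - 1)) q := by
  have h := Ex_hasDerivAt (E := E) (fun q _ => q) (fun _ => (1:ℝ)) q
    (fun _ => hasDerivAt_id q) S (kk s t)
  have hs : (∑ e ∈ S, (1:ℝ) * Ex (fun _ => q) (S.erase e)
        (fun F => kk s t (insert e F) - kk s t F)) =
      ∑ e ∈ S, (Pr (fun _ => q) S (AA s t e) - 1) := by
    apply sum_congr rfl
    intro e he
    rw [one_mul]
    have e1 : Pr (fun _ => q) S (AA s t e) = Pr (fun _ => q) (S.erase e) (AA s t e) := by
      refine Pr_local (erase_subset e S) ?_
      intro F hF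
      unfold AA
      have : F.erase e = (F ∩ S.erase e).erase e := by
        ext x
        simp only [mem_erase, mem_inter]
        constructor
        · rintro ⟨h1, h2⟩; exact ⟨h1, h2, h1, hF h2⟩
        · rintro ⟨h1, h2, _⟩; exact ⟨h1, h2⟩
      rw [← this]
    rw [e1]
    unfold Pr
    rw [← Ex_const (fun _ => q) (S.erase e) (1:ℝ), ← Ex_sub]
    apply Ex_congr
    intro F hF
    have heF : F.erase e = F := erase_eq_of_notMem (fun h => (mem_erase.mp (hF h)).1 rfl)
    have := dd_kk (s := s) (t := t) e F
    unfold dd at this
    rw [heF] at this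
    exact this
  rw [← hs]
  exact h

/-- First derivative of the connection probability and a bound for its derivative. -/
theorem deriv_AA [Finite V] (S : Finset E) {e : E} (he : e ∈ S) :
    ∃ D1 D2 : ℝ → ℝ, (∀ q, HasDerivAt (fun q : ℝ => Pr (fun _ => q) S (AA s t e)) (D1 q) q) ∧
      (∀ q, HasDerivAt D1 (D2 q) q) ∧
      ∀ q, 0 ≤ q → q ≤ 1 → |D2 q| ≤ ∑ f ∈ S.erase e, ∑ g ∈ (S.erase e).erase f,
        Pr (fun _ => q) S (T3 s t e f g) := by
  classical
  set φ : E → Finset E → ℝ := fun f F => ind (AA s t e (insert f F)) - ind (AA s t e F) with hφ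
  set D1 : ℝ → ℝ := fun q => ∑ f ∈ S, Ex (fun _ => q) (S.erase f) (φ f) with hD1
  set D2 : ℝ → ℝ := fun q => ∑ f ∈ S, ∑ g ∈ S.erase f, Ex (fun _ => q) ((S.erase f).erase g)
    (fun F => φ f (insert g F) - φ f F) with hD2
  refine ⟨D1, D2, ?_, ?_, ?_⟩
  · intro q
    have h := Ex_hasDerivAt (E := E) (fun q _ => q) (fun _ => (1:ℝ)) q
      (fun _ => hasDerivAt_id q) S (fun F => ind (AA s t e F))
    simp only [one_mul] at h
    exact h
  · intro q
    rw [hD1, hD2]
    apply HasDerivAt.fun_sum
    intro f _
    have h := Ex_hasDerivAt (E := E) (fun q _ => q) (fun _ => (1:ℝ)) q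
      (fun _ => hasDerivAt_id q) (S.erase f) (φ f)
    simp only [one_mul] at h
    exact h
  · intro q h0 h1
    have hok : Ok (fun _ : E => q) := fun _ => ⟨h0, h1⟩
    have hins : ∀ F : Finset E, AA s t e (insert e F) ↔ AA s t e F := by
      intro F
      unfold AA
      rw [erase_insert_eq_erase]
    -- the terms with `e`
    have z1 : ∀ g ∈ S.erase e, Ex (fun _ => q) ((S.erase e).erase g)
        (fun F => φ e (insert g F) - φ e F) = 0 := by
      intro g _
      rw [Ex_congr (g := fun _ => (0:ℝ)) (fun F _ => by
        rw [hφ]
        simp only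
        rw [ind_congr (hins _), ind_congr (hins _)]
        ring), Ex_const]
    have z2 : ∀ f ∈ S.erase e, Ex (fun _ => q) ((S.erase f).erase e)
        (fun F => φ f (insert e F) - φ f F) = 0 := by
      intro f _
      rw [Ex_congr (g := fun _ => (0:ℝ)) (fun F _ => by
        rw [hφ]
        simp only
        rw [Finset.insert_comm, ind_congr (hins _), ind_congr (hins _)]
        ring), Ex_const]
    have hD : D2 q = ∑ f ∈ S.erase e, ∑ g ∈ (S.erase e).erase f,
        Ex (fun _ => q) ((S.erase f).erase g) (fun F => φ f (insert g F) - φ f F) := by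
      rw [hD2]
      simp only
      rw [← add_sum_erase S _ he, sum_eq_zero z1, zero_add]
      apply sum_congr rfl
      intro f hf
      have hfe : e ∈ S.erase f := mem_erase.mpr ⟨(mem_erase.mp hf).1.symm, he⟩
      rw [← add_sum_erase _ _ hfe, z2 f hf, zero_add, erase_right_comm]
    rw [hD]
    refine (abs_sum_le_sum_abs _ _).trans (sum_le_sum fun f hf => ?_)
    refine (abs_sum_le_sum_abs _ _).trans (sum_le_sum fun g hg => ?_)
    have hef : e ≠ f := (mem_erase.mp hf).1.symm
    have heg : e ≠ g := (mem_erase.mp (mem_erase.mp hg).2).1.symm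
    have hfg : f ≠ g := (mem_erase.mp hg).1.symm
    have e1 : Pr (fun _ => q) S (T3 s t e f g) =
        Pr (fun _ => q) ((S.erase f).erase g) (T3 s t e f g) := by
      refine Pr_local ((erase_subset g _).trans (erase_subset f _)) ?_
      intro F hF
      apply T3_local
      intro x _ h2 h3
      simp only [mem_inter, mem_erase]
      constructor
      · intro h; exact ⟨h, h3, h2, hF h⟩
      · intro h; exact h.1
    rw [e1]
    unfold Pr
    have hb : ∀ F, F ⊆ (S.erase f).erase g →
        |φ f (insert g F) - φ f F| ≤ ind (T3 s t e f g F) := by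
      intro F hF
      have hfF : F.erase f = F := erase_eq_of_notMem
        (fun h => (mem_erase.mp (mem_erase.mp (hF h)).2).1 rfl)
      have hgF : F.erase g = F := erase_eq_of_notMem (fun h => (mem_erase.mp (hF h)).1 rfl)
      have key : φ f (insert g F) - φ f F = dd e (dd f (dd g (kk s t))) F := by
        rw [T3_eq hef heg, hφ]
        unfold dd
        simp only
        rw [hfF, hgF, Finset.insert_comm g f F, erase_insert_of_ne hfg, hgF]
        ring
      rw [key]
      by_cases hT : T3 s t e f g F
      · rw [ind_of hT, T3_eq hef heg]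
        exact (dd_mono_cases (fun F G hFG hF => AA_mono hFG hF) hfg F).1
      · unfold T3 at hT
        push Not at hT
        rw [hT]
        simpa using ind_nonneg _
    rw [abs_le]
    constructor
    · have := Ex_mono hok (S := (S.erase f).erase g)
        (f := fun F => (-1:ℝ) * ind (T3 s t e f g F))
        (g := fun F => φ f (insert g F) - φ f F) (fun F hF => by
          have := (abs_le.mp (hb F hF)).1
          linarith)
      rw [Ex_mul_left] at this
      linarith
    · exact Ex_mono hok (fun F hF => (abs_le.mp (hb F hF)).2)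

end Graph

end Pool.Agent.W2helper75.AU
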