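import Mathlib

/-!
Interpolation between scales.
-/

set_option autoImplicit false

namespace Pool.Agent.W2helper75.AU

open Set

theorem taylor2 {f D1 D2 : ℝ → ℝ} (h1 : ∀ q, HasDerivAt f (D1 q) q)
    (h2 : ∀ q, HasDerivAt D1 (D2 q) q) {a ρ M : ℝ} (hM : ∀ y, |y - a| ≤ ρ → |D2 y| ≤ M)
    {x : ℝ} (hx : |x| ≤ ρ) : |f (a + x) - f a - D1 a * x| ≤ M * x ^ 2 := by
  have hM0 : 0 ≤ M := (abs_nonneg _).trans (hM a (by rw [sub_self, abs_zero]; exact (abs_nonneg x).trans hx))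
  have hconv : Convex ℝ (Metric.closedBall a |x|) := convex_closedBall _ _
  have ha : a ∈ Metric.closedBall a |x| := Metric.mem_closedBall_self (abs_nonneg _)
  have hax : a + x ∈ Metric.closedBall a |x| := by
    rw [Metric.mem_closedBall, Real.dist_eq]
    simp
  have hb : ∀ y ∈ Metric.closedBall a |x|, |y - a| ≤ |x| := by
    intro y hy
    rwa [Metric.mem_closedBall, Real.dist_eq] at hy
  have k1 : ∀ y ∈ Metric.closedBall a |x|, ‖D1 y - D1 a‖ ≤ M * |x| := by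
    intro y hy
    have := hconv.norm_image_sub_le_of_norm_hasDerivWithin_le (f := D1) (f' := D2) (C := M)
      (x := a) (y := y) (fun z _ => (h2 z).hasDerivWithinAt)
      (fun z hz => by rw [Real.norm_eq_abs]; exact hM z ((hb z hz).trans hx)) ha hy
    refine this.trans (mul_le_mul_of_nonneg_left ?_ hM0)
    rw [Real.norm_eq_abs]
    exact hb y hy
  have k2 := hconv.norm_image_sub_le_of_norm_hasDerivWithin_le
    (f := fun y => f y - D1 a * y) (f' := fun y => D1 y - D1 a) (C := M * |x|)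
    (x := a) (y := a + x) (fun z _ => by
      have h3 := (h1 z).sub ((hasDerivAt_id z).const_mul (D1 a))
      simp only [mul_one] at h3
      exact h3.hasDerivWithinAt) k1 ha hax
  rw [Real.norm_eq_abs, Real.norm_eq_abs] at k2
  have e1 : f (a + x) - D1 a * (a + x) - (f a - D1 a * a) = f (a + x) - f a - D1 a * x := by ring
  rw [e1] at k2
  refine k2.trans (le_of_eq ?_)
  rw [add_sub_cancel_left, mul_assoc, ← sq, sq_abs]

/-- Interpolation: approximations of order `N^(-5/4)` with second derivatives of order `N^(1/4)` in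
the window of size `N^(-3/4)`, `N = 2^J = r^(4 J)`. -/
theorem landau {h : ℝ → ℝ} {f D1 D2 : ℕ → ℝ → ℝ} {r b A B : ℝ} {J0 : ℕ} (hr : 1 < r)
    (hb : 0 < b) (hA : 0 ≤ A) (hB : 0 ≤ B)
    (h1 : ∀ J, J0 ≤ J → ∀ q, HasDerivAt (f J) (D1 J q) q)
    (h2 : ∀ J, J0 ≤ J → ∀ q, HasDerivAt (D1 J) (D2 J q) q)
    (ha : ∀ J, J0 ≤ J → ∀ q, |q - 1/2| ≤ b * (r⁻¹) ^ (3 * J) →
      |h q - f J q| ≤ A * (r⁻¹) ^ (5 * J))
    (hd : ∀ J, J0 ≤ J → ∀ q, |q - 1/2| ≤ b * (r⁻¹) ^ (3 * J) → |D2 J q| ≤ B * r ^ J) :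
    ∃ L C : ℝ, 0 < C ∧ ∀ q, |q - 1/2| ≤ b * (r⁻¹) ^ (3 * J0) →
      |h q - h (1/2) - L * (q - 1/2)| ≤ C * |q - 1/2| ^ (5 / 3 : ℝ) := by
  obtain ⟨s, hs⟩ : ∃ s : ℝ, s = r⁻¹ := ⟨_, rfl⟩
  have hr0 : 0 < r := by linarith
  have hs0 : 0 < s := by rw [hs]; positivity
  have hs1 : s < 1 := by rw [hs]; exact inv_lt_one_of_one_lt₀ hr
  have hrs : r * s = 1 := by rw [hs]; exact mul_inv_cancel₀ hr0.ne'
  have hrsn : ∀ n : ℕ, r ^ n * s ^ n = 1 := fun n => by rw [← mul_pow, hrs, one_pow]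
  rw [← hs] at ha hd ⊢
  have hhalf : ∀ J, |(1/2:ℝ) - 1/2| ≤ b * s ^ (3 * J) := fun J => by
    rw [sub_self, abs_zero]; positivity
  have hmono : ∀ {i j : ℕ}, i ≤ j → s ^ j ≤ s ^ i := fun h => pow_le_pow_of_le_one hs0.le hs1.le h
  -- Taylor
  have tay : ∀ J, J0 ≤ J → ∀ x, |x| ≤ b * s ^ (3 * J) →
      |f J (1/2 + x) - f J (1/2) - D1 J (1/2) * x| ≤ B * r ^ J * x ^ 2 := by
    intro J hJ x hx
    exact taylor2 (h1 J hJ) (h2 J hJ) (hd J hJ) hx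
  -- the derivatives at the centre
  obtain ⟨C1, hC1⟩ : ∃ C1 : ℝ, C1 = 4 * A / (b * s ^ 3) + B * b * s ^ 3 * (r + 1) := ⟨_, rfl⟩
  have hC10 : 0 ≤ C1 := by rw [hC1]; positivity
  have step : ∀ J, J0 ≤ J → |D1 (J + 1) (1/2) - D1 J (1/2)| ≤ C1 * (s ^ 2) ^ J := by
    intro J hJ
    have hJ1 : J0 ≤ J + 1 := by omega
    obtain ⟨w, hw⟩ : ∃ w : ℝ, w = b * s ^ (3 * (J + 1)) := ⟨_, rfl⟩
    have hw0 : 0 < w := by rw [hw]; positivity
    have hw1 : |w| ≤ b * s ^ (3 * (J + 1)) := by rw [abs_of_pos hw0, hw]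
    have hw2 : |w| ≤ b * s ^ (3 * J) :=
      hw1.trans (mul_le_mul_of_nonneg_left (hmono (by omega)) hb.le)
    have t1 := tay (J + 1) hJ1 w hw1
    have t2 := tay J hJ w hw2
    have a1 := ha (J + 1) hJ1 (1/2 + w) (by rw [add_sub_cancel_left]; exact hw1)
    have a2 := ha J hJ (1/2 + w) (by rw [add_sub_cancel_left]; exact hw2)
    have a3 := ha (J + 1) hJ1 (1/2) (hhalf _)
    have a4 := ha J hJ (1/2) (hhalf _)
    have m1 : s ^ (5 * (J + 1)) ≤ s ^ (5 * J) := hmono (by omega)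
    have m2 : A * s ^ (5 * (J + 1)) ≤ A * s ^ (5 * J) := mul_le_mul_of_nonneg_left m1 hA
    rw [abs_le] at t1 t2 a1 a2 a3 a4
    have key : |(D1 (J + 1) (1/2) - D1 J (1/2)) * w| ≤
        4 * A * s ^ (5 * J) + B * (r ^ (J + 1) + r ^ J) * w ^ 2 := by
      rw [abs_le]
      constructor <;> nlinarith
    rw [abs_mul, abs_of_pos hw0, ← le_div_iff₀ hw0] at key
    refine key.trans (le_of_eq ?_)
    have e1 : r ^ J * s ^ J = 1 := hrsn J
    have e2 : r ^ J = (s ^ J)⁻¹ := eq_inv_of_mul_eq_one_left e1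
    have hsJ : s ^ J ≠ 0 := by positivity
    rw [hC1, hw, pow_succ r J, e2, show 3 * (J + 1) = 3 * J + 3 by ring, pow_add,
      show s ^ (3 * J) = (s ^ J) ^ 3 by rw [← pow_mul]; ring_nf,
      show s ^ (5 * J) = (s ^ J) ^ 5 by rw [← pow_mul]; ring_nf,
      show (s ^ 2) ^ J = (s ^ J) ^ 2 by rw [← pow_mul, ← pow_mul]; ring_nf]
    have hr' : r = s⁻¹ := by rw [hs, inv_inv]
    rw [hr']
    field_simp
  -- the limit
  have hs2 : s ^ 2 < 1 := by nlinarith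
  have hs20 : 0 < 1 - s ^ 2 := by linarith
  obtain ⟨d, hdd⟩ : ∃ d : ℕ → ℝ, d = fun n => D1 (J0 + n) (1/2) := ⟨_, rfl⟩
  have hdist : ∀ n, dist (d n) (d (n + 1)) ≤ (C1 * (s ^ 2) ^ J0) * (s ^ 2) ^ n := by
    intro n
    rw [dist_comm, Real.dist_eq, hdd]
    have := step (J0 + n) (by omega)
    rw [pow_add] at this
    simp only
    rw [← add_assoc]
    linarith
  have hcau := cauchySeq_of_le_geometric (s ^ 2) (C1 * (s ^ 2) ^ J0) hs2 hdist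
  obtain ⟨L, hL⟩ := cauchySeq_tendsto_of_complete hcau
  have hLd : ∀ J, J0 ≤ J → |L - D1 J (1/2)| ≤ C1 / (1 - s ^ 2) * (s ^ 2) ^ J := by
    intro J hJ
    have := dist_le_of_le_geometric_of_tendsto (s ^ 2) (C1 * (s ^ 2) ^ J0) hs2 hdist hL (J - J0)
    rw [dist_comm, Real.dist_eq, hdd] at this
    simp only at this
    rw [show J0 + (J - J0) = J by omega] at this
    refine this.trans (le_of_eq ?_)
    have e1 : (s ^ 2) ^ J = (s ^ 2) ^ J0 * (s ^ 2) ^ (J - J0) := by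
      rw [← pow_add]
      congr 1
      omega
    rw [e1]
    ring
  -- conclusion
  obtain ⟨C2, hC2⟩ : ∃ C2 : ℝ, C2 = C1 / (1 - s ^ 2) := ⟨_, rfl⟩
  have hC20 : 0 ≤ C2 := by rw [hC2]; positivity
  obtain ⟨C, hC⟩ : ∃ C : ℝ, C = 2 * A * (r ^ 3 / b) ^ (5/3 : ℝ) + B * b ^ (1/3 : ℝ) +
    C2 * (r ^ 3 / b) ^ (2/3 : ℝ) + 1 := ⟨_, rfl⟩
  refine ⟨L, C, by rw [hC]; positivity, ?_⟩
  intro q hq
  obtain ⟨x, hx⟩ : ∃ x : ℝ, x = q - 1/2 := ⟨_, rfl⟩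
  have hqx : q = 1/2 + x := by rw [hx]; ring
  rw [← hx] at hq ⊢
  rw [hqx]
  rcases eq_or_ne x 0 with h0 | h0
  · rw [h0]
    simp
  have hx0 : 0 < |x| := abs_pos.mpr h0
  -- the scale
  obtain ⟨J, hJ1, hJ2, hJ3⟩ : ∃ J, J0 ≤ J ∧ |x| ≤ b * s ^ (3 * J) ∧ b * s ^ (3 * (J + 1)) < |x| := by
    have hs3 : s ^ 3 < 1 := pow_lt_one₀ hs0.le hs1 (by norm_num)
    have htend : Filter.Tendsto (fun n : ℕ => b * (s ^ 3) ^ n) Filter.atTop (nhds (b * 0)) :=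
      (tendsto_pow_atTop_nhds_zero_of_lt_one (by positivity) hs3).const_mul b
    rw [mul_zero] at htend
    have hex : ∃ n, b * s ^ (3 * (n + 1)) < |x| := by
      obtain ⟨n, hn⟩ := (htend.eventually (gt_mem_nhds hx0)).exists
      refine ⟨n, lt_of_le_of_lt ?_ hn⟩
      rw [← pow_mul]
      exact mul_le_mul_of_nonneg_left (hmono (by omega)) hb.le
    classical
    by_cases hlt : b * s ^ (3 * (J0 + 1)) < |x|
    · exact ⟨J0, le_rfl, hq, hlt⟩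
    · set n := Nat.find hex with hn
      have hn1 := Nat.find_spec hex
      have hn2 : J0 < n := by
        by_contra hcon
        push Not at hcon
        apply hlt
        refine lt_of_le_of_lt ?_ hn1
        exact mul_le_mul_of_nonneg_left (hmono (by omega)) hb.le
      refine ⟨n, hn2.le, ?_, hn1⟩
      have hn3 := Nat.find_min hex (m := n - 1) (by omega)
      push Not at hn3
      rwa [show n - 1 + 1 = n by omega] at hn3
  have hxw := hJ2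
  have t1 := tay J hJ1 x hxw
  have a2 := ha J hJ1 (1/2 + x) (by rw [add_sub_cancel_left]; exact hxw)
  have a4 := ha J hJ1 (1/2) (hhalf _)
  have l1 := hLd J hJ1
  rw [← hC2] at l1
  have key : |h (1/2 + x) - h (1/2) - L * x| ≤
      2 * A * s ^ (5 * J) + B * r ^ J * x ^ 2 + C2 * (s ^ 2) ^ J * |x| := by
    have l2 : |(L - D1 J (1/2)) * x| ≤ C2 * (s ^ 2) ^ J * |x| := by
      rw [abs_mul]
      exact mul_le_mul_of_nonneg_right l1 (abs_nonneg _)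
    rw [abs_le] at t1 a2 a4 l2 ⊢
    constructor <;> nlinarith
  refine key.trans ?_
  -- the three terms
  have hsJ : 0 < s ^ J := by positivity
  have u1 : (s ^ J) ^ 3 ≤ r ^ 3 / b * |x| := by
    have e1 : b * (s ^ J) ^ 3 * s ^ 3 ≤ |x| := by
      refine le_trans (le_of_eq ?_) hJ3.le
      rw [← pow_mul]
      ring
    have e2 : (s ^ J) ^ 3 = r ^ 3 / b * (b * (s ^ J) ^ 3 * s ^ 3) := by
      have h3 : r ^ 3 * s ^ 3 = 1 := hrsn 3
      have h4 : r ^ 3 / b * (b * (s ^ J) ^ 3 * s ^ 3) = (r ^ 3 * s ^ 3) * (s ^ J) ^ 3 := by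
        field_simp
      rw [h4, h3, one_mul]
    rw [e2]
    exact mul_le_mul_of_nonneg_left e1 (by positivity)
  have u2 : |x| ≤ b * (s ^ J) ^ 3 := by
    refine hJ2.trans (le_of_eq ?_)
    rw [← pow_mul]
    ring_nf
  have v1 : s ^ (5 * J) ≤ (r ^ 3 / b) ^ (5/3 : ℝ) * |x| ^ (5/3 : ℝ) := by
    rw [← Real.mul_rpow (by positivity) (abs_nonneg _)]
    have e1 : s ^ (5 * J) = ((s ^ J) ^ 3) ^ (5/3 : ℝ) := by
      rw [← Real.rpow_natCast (s ^ J) 3, ← Real.rpow_mul hsJ.le]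
      rw [show ((3:ℕ):ℝ) * (5/3 : ℝ) = ((5:ℕ):ℝ) by norm_num, Real.rpow_natCast, ← pow_mul]
      ring_nf
    rw [e1]
    exact Real.rpow_le_rpow (by positivity) u1 (by norm_num)
  have v2 : (s ^ 2) ^ J ≤ (r ^ 3 / b) ^ (2/3 : ℝ) * |x| ^ (2/3 : ℝ) := by
    rw [← Real.mul_rpow (by positivity) (abs_nonneg _)]
    have e1 : (s ^ 2) ^ J = ((s ^ J) ^ 3) ^ (2/3 : ℝ) := by
      rw [← Real.rpow_natCast (s ^ J) 3, ← Real.rpow_mul hsJ.le]
      rw [show ((3:ℕ):ℝ) * (2/3 : ℝ) = ((2:ℕ):ℝ) by norm_num, Real.rpow_natCast, ← pow_mul,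
        ← pow_mul]
      ring_nf
    rw [e1]
    exact Real.rpow_le_rpow (by positivity) u1 (by norm_num)
  have v3 : r ^ J * |x| ^ (1/3 : ℝ) ≤ b ^ (1/3 : ℝ) := by
    have e1 : |x| ^ (1/3 : ℝ) ≤ b ^ (1/3 : ℝ) * s ^ J := by
      have e2 : |x| ^ (1/3 : ℝ) ≤ (b * (s ^ J) ^ 3) ^ (1/3 : ℝ) :=
        Real.rpow_le_rpow (abs_nonneg _) u2 (by norm_num)
      rw [Real.mul_rpow hb.le (by positivity)] at e2
      have e3 : ((s ^ J) ^ 3) ^ (1/3 : ℝ) = s ^ J := by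
        rw [← Real.rpow_natCast (s ^ J) 3, ← Real.rpow_mul hsJ.le,
          show ((3:ℕ):ℝ) * (1/3 : ℝ) = 1 by norm_num, Real.rpow_one]
      rwa [e3] at e2
    calc r ^ J * |x| ^ (1/3 : ℝ) ≤ r ^ J * (b ^ (1/3 : ℝ) * s ^ J) :=
          mul_le_mul_of_nonneg_left e1 (by positivity)
      _ = b ^ (1/3 : ℝ) * (r ^ J * s ^ J) := by ring
      _ = b ^ (1/3 : ℝ) := by rw [hrsn, mul_one]
  have w1 : |x| ^ (5/3 : ℝ) = |x| * |x| ^ (2/3 : ℝ) := by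
    rw [← Real.rpow_one_add' (abs_nonneg _) (by norm_num)]
    norm_num
  have w2 : x ^ 2 = |x| ^ (1/3 : ℝ) * |x| ^ (5/3 : ℝ) := by
    rw [← Real.rpow_add hx0, show (1/3 : ℝ) + 5/3 = ((2:ℕ):ℝ) by norm_num, Real.rpow_natCast, sq_abs]
  have z1 : 2 * A * s ^ (5 * J) ≤ 2 * A * ((r ^ 3 / b) ^ (5/3 : ℝ) * |x| ^ (5/3 : ℝ)) :=
    mul_le_mul_of_nonneg_left v1 (by positivity)
  have z2 : B * r ^ J * x ^ 2 ≤ B * b ^ (1/3 : ℝ) * |x| ^ (5/3 : ℝ) := by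
    rw [w2]
    calc B * r ^ J * (|x| ^ (1/3 : ℝ) * |x| ^ (5/3 : ℝ)) =
          B * (r ^ J * |x| ^ (1/3 : ℝ)) * |x| ^ (5/3 : ℝ) := by ring
      _ ≤ B * b ^ (1/3 : ℝ) * |x| ^ (5/3 : ℝ) := by
          apply mul_le_mul_of_nonneg_right _ (by positivity)
          exact mul_le_mul_of_nonneg_left v3 hB
  have z3 : C2 * (s ^ 2) ^ J * |x| ≤ C2 * (r ^ 3 / b) ^ (2/3 : ℝ) * |x| ^ (5/3 : ℝ) := by
    rw [w1]
    calc C2 * (s ^ 2) ^ J * |x| ≤ C2 * ((r ^ 3 / b) ^ (2/3 : ℝ) * |x| ^ (2/3 : ℝ)) * |x| := by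
          apply mul_le_mul_of_nonneg_right _ (abs_nonneg _)
          exact mul_le_mul_of_nonneg_left v2 hC20
      _ = _ := by ring
  have hp : 0 < |x| ^ (5/3 : ℝ) := by positivity
  rw [hC]
  nlinarith

end Pool.Agent.W2helper75.AU
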