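import Pool.Agent.W2helper75.AU.Cnt

/-!
Sum of the three-edge probabilities over the torus of side `2^J`.
-/

set_option autoImplicit false

namespace Pool.Agent.W2helper75.AU

open H974 H973N H12S Finset

/-- The parameters: `r = 2^(1/4)`, the four-arm bound up to the side of the torus. -/
structure Sc (q κ C r : ℝ) (J : ℕ) : Prop where
  win : Win q κ (2 ^ J)
  a4 : ∀ j ≤ J, H12S.a4 q (2 ^ j) ≤ C * (r⁻¹) ^ (5 * j)
  r4 : r ^ 4 = 2
  r1 : 1 < r
  C1 : 1 ≤ C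

section Sum
variable {q κ C r : ℝ} {J : ℕ}

theorem Sc.q0 (h : Sc q κ C r J) : 0 ≤ q := by linarith [h.win.lo]
theorem Sc.q1 (h : Sc q κ C r J) : q ≤ 1 := by linarith [h.win.hi]
theorem Sc.r0 (h : Sc q κ C r J) : 0 < r := by linarith [h.r1]

theorem Sc.two (h : Sc q κ C r J) (k : ℕ) : (2:ℝ) ^ k = r ^ (4 * k) := by
  rw [pow_mul, h.r4]

/-- Bound for one local four-arm event at scale `k`. -/
noncomputable def XX (C r : ℝ) (k : ℕ) : ℝ := C * r ^ 10 * (r⁻¹) ^ (5 * k)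

theorem Sc.XX0 (h : Sc q κ C r J) (k : ℕ) : 0 ≤ XX C r k := by
  have := h.r0
  have := h.C1
  unfold XX
  positivity

theorem Sc.XX_small (h : Sc q κ C r J) {k : ℕ} (hk : k < 2) : 1 ≤ XX C r k := by
  have h0 := h.r0
  have h1 := h.r1
  have hC := h.C1
  unfold XX
  have e1 : r ^ 10 * (r⁻¹) ^ (5 * k) = r ^ (10 - 5 * k) := by
    rw [inv_pow, ← div_eq_mul_inv, pow_sub₀ _ h0.ne' (by omega)]
    rfl
  rw [mul_assoc, e1]
  have : 1 ≤ r ^ (10 - 5 * k) := one_le_pow₀ h1.le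
  nlinarith

theorem Sc.XX_a4 (h : Sc q κ C r J) {k : ℕ} (hk : 2 ≤ k) (hkJ : k ≤ J) :
    H12S.a4 q (2 ^ (k - 2)) ≤ XX C r k := by
  have h0 := h.r0
  refine (h.a4 (k - 2) (by omega)).trans (le_of_eq ?_)
  unfold XX
  rw [mul_assoc]
  congr 1
  obtain ⟨j, rfl⟩ : ∃ j, k = j + 2 := ⟨k - 2, by omega⟩
  rw [show j + 2 - 2 = j by omega, show 5 * (j + 2) = 5 * j + 10 by ring, pow_add, inv_pow,
    inv_pow]
  field_simp

theorem P3_le_one (h : Sc q κ C r J) (e f g : TE (2 ^ J)) : P3 q e f g ≤ 1 :=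
  Pr_le_one (fun _ => ⟨h.q0, h.q1⟩) _ _

/-- Edges at distance about `2^K` from `e`. -/
noncomputable def FK (e : TE (2 ^ J)) (K : ℕ) : Finset (TE (2 ^ J)) := by
  classical
  exact (Finset.univ : Finset (TE (2 ^ J))).filter
    (fun f => 2 ^ K ≤ vd (ts e) (ts f) ∧ vd (ts e) (ts f) < 2 ^ (K + 1))

/-- Edges at distance about `2^k` from `f`. -/
noncomputable def Gk (f : TE (2 ^ J)) (k : ℕ) : Finset (TE (2 ^ J)) := by
  classical
  exact (Finset.univ : Finset (TE (2 ^ J))).filter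
    (fun g => f ≠ g ∧ vd (ts f) (ts g) < 2 ^ (k + 1) ∧ (k = 0 ∨ 2 ^ k ≤ vd (ts f) (ts g)))

theorem mem_FK {e f : TE (2 ^ J)} {K : ℕ} :
    f ∈ FK e K ↔ 2 ^ K ≤ vd (ts e) (ts f) ∧ vd (ts e) (ts f) < 2 ^ (K + 1) := by
  unfold FK
  rw [Finset.mem_filter]
  exact ⟨fun h => h.2, fun h => ⟨Finset.mem_univ _, h⟩⟩

theorem mem_Gk {f g : TE (2 ^ J)} {k : ℕ} :
    g ∈ Gk f k ↔ f ≠ g ∧ vd (ts f) (ts g) < 2 ^ (k + 1) ∧ (k = 0 ∨ 2 ^ k ≤ vd (ts f) (ts g)) := by
  unfold Gk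
  rw [Finset.mem_filter]
  exact ⟨fun h => h.2, fun h => ⟨Finset.mem_univ _, h⟩⟩

theorem card_Gk (f : TE (2 ^ J)) (k : ℕ) : ((Gk f k).card : ℝ) ≤ 32 * 4 ^ k := by
  have h1 := card_ball (ts f) (D := 2 ^ (k + 1)) Nat.one_le_two_pow (Gk f k)
    (fun g hg => (mem_Gk.mp hg).2.1)
  have h2 : ((Gk f k).card : ℝ) ≤ 8 * ((2:ℝ) ^ (k + 1)) ^ 2 := by exact_mod_cast h1
  refine h2.trans (le_of_eq ?_)
  rw [← pow_mul, show (4:ℝ) = 2 ^ 2 by norm_num, ← pow_mul, show (k + 1) * 2 = 2 * k + 2 by ring,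
    pow_add]
  ring

/-- The pair bound at scale `k`. -/
theorem pair_kK (h : Sc q κ C r J) {k K : ℕ} (hk : k + 7 ≤ K) (hK : K + 1 ≤ J)
    {e f g : TE (2 ^ J)} (hf : f ∈ FK e K) (hg : g ∈ Gk f k) :
    P3 q e f g ≤ (XX C r k) ^ 2 * GG' q e (2 ^ (K - 1)) (2 ^ (k + 2)) (ts f) := by
  obtain ⟨f1, f2⟩ := mem_FK.mp hf
  obtain ⟨nfg, g1, g2⟩ := mem_Gk.mp hg
  have h0 := h.q0
  have h1 := h.q1
  have pK : 2 ^ K = 2 * 2 ^ (K - 1) := by
    rw [← pow_succ']
    congr 1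
    omega
  have pK2 : 2 ^ (k + 2) ≤ 2 ^ (K - 5) := Nat.pow_le_pow_right (by norm_num) (by omega)
  have pK3 : 2 ^ (K - 1) = 16 * 2 ^ (K - 5) := by
    rw [show (16:ℕ) = 2 ^ 4 by norm_num, ← pow_add]
    congr 1
    omega
  have pk : 2 ^ (k + 2) = 4 * 2 ^ k := by rw [pow_add]; ring
  have pk1 : 2 ^ (k + 1) = 2 * 2 ^ k := by rw [pow_add]; ring
  have pk0 : 1 ≤ 2 ^ k := Nat.one_le_two_pow
  have pJ : 2 ^ (K + 1) ≤ 2 ^ J := Nat.pow_le_pow_right (by norm_num) hK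
  have pK1 : 2 ^ (K + 1) = 2 * 2 ^ K := by rw [pow_add]; ring
  have hgf : vd (ts e) (ts f) ≤ vd (ts e) (ts g) + vd (ts f) (ts g) := by
    have := vd_tri (ts e) (ts g) (ts f)
    rwa [vd_comm (ts g)] at this
  have hfB : f ∈ BL (ts f) (2 ^ (k + 2)) := BL_of_vd (by rw [vd_self]; omega)
  have hgB : g ∈ BL (ts f) (2 ^ (k + 2)) := BL_of_vd (by omega)
  have hGG : 0 ≤ GG' q e (2 ^ (K - 1)) (2 ^ (k + 2)) (ts f) :=
    Pr_nonneg (fun _ => ⟨h0, h1⟩) _ _
  rcases lt_or_ge k 2 with hk2 | hk2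
  · have e1 := P3_near0 h0 h1 (ρ' := 2 ^ (K - 1)) (m := 2 ^ (k + 2)) (e := e)
      Nat.one_le_two_pow (by omega) hfB hgB (by omega) (by omega) nfg
    refine e1.trans ?_
    have e2 := h.XX_small hk2
    have e3 : 1 ≤ (XX C r k) ^ 2 := one_le_pow₀ e2
    nlinarith
  · have hkk : 2 ^ k ≤ vd (ts f) (ts g) := by
      rcases g2 with g2 | g2
      · omega
      · exact g2
    have pk2 : 2 ^ k = 4 * 2 ^ (k - 2) := by
      rw [show (4:ℕ) = 2 ^ 2 by norm_num, ← pow_add]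
      congr 1
      omega
    have pk3 : 1 ≤ 2 ^ (k - 2) := Nat.one_le_two_pow
    have e1 := P3_near h0 h1 (ρ := 2 ^ (k - 2)) (ρ' := 2 ^ (K - 1)) (m := 2 ^ (k + 2))
      Nat.one_le_two_pow (by omega) Nat.one_le_two_pow (by omega) (e := e) (f := f) (g := g)
      (v := ts f) hfB hgB (BL_sub (by rw [vd_self]; omega)) (BL_sub (by omega)) (by omega)
      (by omega) (by omega) (by omega) (by omega) (by omega)
    refine e1.trans (mul_le_mul_of_nonneg_right ?_ hGG)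
    exact pow_le_pow_left₀ (a4_nonneg h0 h1 _) (h.XX_a4 hk2 (by omega)) 2

/-- Near pairs: two scales. -/
theorem near_kK (h : Sc q κ C r J) {k K : ℕ} (hk : k + 7 ≤ K) (hK : K + 1 ≤ J)
    (e : TE (2 ^ J)) : ∑ f ∈ FK e K, ∑ g ∈ Gk f k, P3 q e f g ≤
      2 ^ 17 * (κ ^ 4)⁻¹ * C ^ 3 * r ^ 25 * (r ^ (2 * k) * (r⁻¹) ^ K) := by
  classical
  have h0 := h.q0
  have h1 := h.q1
  have hr := h.r0
  have hκ4 : 0 < κ ^ 4 := by
    have := h.win.kpos
    positivity
  have hX := h.XX0 k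
  obtain ⟨G, hG⟩ : ∃ G : TV (2 ^ J) → ℝ,
    G = GG' q e (2 ^ (K - 1)) (2 ^ (k + 2)) := ⟨_, rfl⟩
  have hG0 : ∀ v, 0 ≤ G v := by
    intro v
    rw [hG]
    exact Pr_nonneg (fun _ => ⟨h0, h1⟩) _ _
  -- reduction to the sum over vertices
  have s1 : ∑ f ∈ FK e K, ∑ g ∈ Gk f k, P3 q e f g ≤
      ∑ f ∈ FK e K, 32 * 4 ^ k * (XX C r k) ^ 2 * G (ts f) := by
    apply Finset.sum_le_sum
    intro f hf
    calc ∑ g ∈ Gk f k, P3 q e f g ≤ ∑ _g ∈ Gk f k, (XX C r k) ^ 2 * G (ts f) := by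
          apply Finset.sum_le_sum
          intro g hg
          rw [hG]
          exact pair_kK h hk hK hf hg
      _ = (Gk f k).card * ((XX C r k) ^ 2 * G (ts f)) := by
          rw [Finset.sum_const, nsmul_eq_mul]
      _ ≤ (32 * 4 ^ k) * ((XX C r k) ^ 2 * G (ts f)) := by
          apply mul_le_mul_of_nonneg_right (card_Gk f k)
          exact mul_nonneg (sq_nonneg _) (hG0 _)
      _ = 32 * 4 ^ k * (XX C r k) ^ 2 * G (ts f) := by ring
  set Sh : Finset (TV (2 ^ J)) := Finset.univ.filter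
    (fun v => 2 ^ K ≤ vd (ts e) v ∧ vd (ts e) v < 2 ^ (K + 1)) with hSh
  have s2 : ∑ f ∈ FK e K, G (ts f) = 2 * ∑ v ∈ Sh, G v := by
    have e1 : FK e K = (Sh ×ˢ (Finset.univ : Finset Bool)).map
        ⟨fun x => ((x.1.1, x.1.2, x.2) : TE (2 ^ J)), by
          rintro ⟨⟨a, b⟩, c⟩ ⟨⟨a', b'⟩, c'⟩ hx
          simp only [Prod.mk.injEq] at hx ⊢
          exact ⟨⟨hx.1, hx.2.1⟩, hx.2.2⟩⟩ := by
      ext f
      rw [mem_FK, Finset.mem_map]
      constructor
      · intro hf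
        refine ⟨((f.1, f.2.1), f.2.2), ?_, rfl⟩
        rw [Finset.mem_product, hSh, Finset.mem_filter]
        exact ⟨⟨Finset.mem_univ _, hf⟩, Finset.mem_univ _⟩
      · rintro ⟨⟨v, b⟩, hv, rfl⟩
        rw [Finset.mem_product, hSh, Finset.mem_filter] at hv
        exact hv.1.2
    rw [e1, Finset.sum_map, Finset.sum_product]
    simp only [Fintype.sum_bool]
    rw [Finset.mul_sum]
    apply Finset.sum_congr rfl
    rintro ⟨a, b⟩ _
    show G (a, b) + G (a, b) = 2 * G (a, b)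
    ring
  -- numbers
  have pK : 2 ^ K = 2 * 2 ^ (K - 1) := by
    rw [← pow_succ']
    congr 1
    omega
  have pK2 : 2 ^ (k + 2) ≤ 2 ^ (K - 5) := Nat.pow_le_pow_right (by norm_num) (by omega)
  have pK3 : 2 ^ (K - 1) = 16 * 2 ^ (K - 5) := by
    rw [show (16:ℕ) = 2 ^ 4 by norm_num, ← pow_add]
    congr 1
    omega
  have pJ : 2 ^ (K + 1) ≤ 2 ^ J := Nat.pow_le_pow_right (by norm_num) hK
  have pK1 : 2 ^ (K + 1) = 2 * 2 ^ K := by rw [pow_add]; ring
  have pk5 : 2 ^ (k + 5) = 8 * 2 ^ (k + 2) := by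
    rw [show (8:ℕ) = 2 ^ 3 by norm_num, ← pow_add]
    congr 1
    omega
  have pos2 : 1 ≤ 2 ^ (k + 2) := Nat.one_le_two_pow
  have posK : 1 ≤ 2 ^ (K - 1) := Nat.one_le_two_pow
  set Bb : ℝ := H12S.a4 q (2 ^ (K - 1)) * (2 * (κ ^ 4)⁻¹) with hBb
  have hBb0 : 0 ≤ Bb := mul_nonneg (a4_nonneg h0 h1 _) (by positivity)
  have s3 : ∑ v ∈ Sh, G v ≤ (((2 ^ (k + 5) : ℕ)):ℝ) ^ 2 *
      (Bb * (2 * ((2 ^ (K + 1) / 2 ^ (k + 5) : ℕ) : ℝ) + 2)) := by
    apply class_sum' (M := 2 ^ (k + 5)) (pow_dvd_pow 2 (by omega)) Nat.one_le_two_pow (ts e)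
      (D := 2 ^ (K + 1)) Sh (fun v hv => (Finset.mem_filter.mp hv).2.2) G hBb0
    intro Cc hCc hsep
    have k1 := near_sum (N := 2 ^ J) h.win (m := 2 ^ (k + 2)) pos2 (by omega) (by omega) (ρ := 2 ^ (K - 1))
      (e := le' e) posK (by omega) Cc (fun v => lv v) (by
        intro v hv v' hv' hne
        rw [pv_lv, pv_lv]
        have := hsep v hv v' hv' hne
        omega) (by
        intro v hv
        rw [pv_lv, pe_le, vd_comm]
        have := (Finset.mem_filter.mp (hCc hv)).2.1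
        omega)
    rw [pe_le] at k1
    have e3 : ∀ v ∈ Cc, G v = Pr (fun _ => q) (Finset.univ : Finset (TE (2 ^ J)))
      (fun F => L4 (2 ^ (K - 1)) (le' e) (↑(lf (2 ^ J) (bp (le' e)) (2 ^ (K - 1)) F) : Set Edg) ∧
        Bf (AA ts tt e) (PB (2 ^ J) (lv v) (2 ^ (k + 2))) F) := by
      intro v _
      rw [hG]
      rfl
    rw [Finset.sum_congr rfl e3]
    refine k1.trans (le_of_eq ?_)
    rw [hBb]
    ring
  have hdiv : (2:ℕ) ^ (K + 1) / 2 ^ (k + 5) = 2 ^ (K - k - 4) := by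
    rw [Nat.pow_div (by omega) (by norm_num)]
    congr 1
    omega
  have hnum : (2:ℝ) * ((2 ^ (K + 1) / 2 ^ (k + 5) : ℕ) : ℝ) + 2 ≤ 2 ^ (K - k) := by
    rw [hdiv]
    have e1 : (2:ℕ) ^ (K - k) = 16 * 2 ^ (K - k - 4) := by
      rw [show (16:ℕ) = 2 ^ 4 by norm_num, ← pow_add]
      congr 1
      omega
    have e2 : 1 ≤ (2:ℕ) ^ (K - k - 4) := Nat.one_le_two_pow
    have e3 : 2 * (2:ℕ) ^ (K - k - 4) + 2 ≤ 2 ^ (K - k) := by omega
    exact_mod_cast e3
  have ha : H12S.a4 q (2 ^ (K - 1)) ≤ C * r ^ 5 * (r⁻¹) ^ (5 * K) := by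
    refine (h.a4 (K - 1) (by omega)).trans (le_of_eq ?_)
    obtain ⟨j, rfl⟩ : ∃ j, K = j + 1 := ⟨K - 1, by omega⟩
    rw [show j + 1 - 1 = j by omega, show 5 * (j + 1) = 5 * j + 5 by ring, pow_add, inv_pow,
      inv_pow]
    field_simp
  have hC0 : 0 ≤ C := by linarith [h.C1]
  calc ∑ f ∈ FK e K, ∑ g ∈ Gk f k, P3 q e f g
      ≤ ∑ f ∈ FK e K, 32 * 4 ^ k * (XX C r k) ^ 2 * G (ts f) := s1
    _ = 32 * 4 ^ k * (XX C r k) ^ 2 * (2 * ∑ v ∈ Sh, G v) := by
        rw [← Finset.mul_sum, s2]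
    _ ≤ 32 * 4 ^ k * (XX C r k) ^ 2 * (2 * ((((2 ^ (k + 5) : ℕ)):ℝ) ^ 2 *
          (Bb * (2 * ((2 ^ (K + 1) / 2 ^ (k + 5) : ℕ) : ℝ) + 2)))) := by
        apply mul_le_mul_of_nonneg_left _ (by positivity)
        linarith
    _ ≤ 32 * 4 ^ k * (XX C r k) ^ 2 * (2 * ((((2 ^ (k + 5) : ℕ)):ℝ) ^ 2 *
          ((C * r ^ 5 * (r⁻¹) ^ (5 * K) * (2 * (κ ^ 4)⁻¹)) * 2 ^ (K - k)))) := by
        apply mul_le_mul_of_nonneg_left _ (by positivity)
        apply mul_le_mul_of_nonneg_left _ (by norm_num)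
        apply mul_le_mul_of_nonneg_left _ (by positivity)
        apply mul_le_mul _ hnum (by positivity) (by positivity)
        rw [hBb]
        exact mul_le_mul_of_nonneg_right ha (by positivity)
    _ = 2 ^ 17 * (κ ^ 4)⁻¹ * C ^ 3 * r ^ 25 * (r ^ (2 * k) * (r⁻¹) ^ K) := by
        have e4 : (4:ℝ) ^ k = r ^ (8 * k) := by
          rw [show (4:ℝ) = 2 ^ 2 by norm_num, ← pow_mul, h.two]
          congr 1
          ring
        have e5 : ((((2 ^ (k + 5) : ℕ)):ℝ)) ^ 2 = 1024 * r ^ (8 * k) := by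
          push_cast
          rw [← pow_mul, show (k + 5) * 2 = 2 * k + 10 by ring, pow_add, h.two,
            show 4 * (2 * k) = 8 * k by ring]
          norm_num
          ring
        have e6 : (2:ℝ) ^ (K - k) = r ^ (4 * K) * (r⁻¹) ^ (4 * k) := by
          rw [h.two, inv_pow, ← pow_sub₀ r hr.ne' (by omega)]
          congr 1
          omega
        rw [e4, e5, e6]
        unfold XX
        obtain ⟨j, rfl⟩ : ∃ j, K = k + j := ⟨K - k, by omega⟩
        simp only [inv_pow]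
        field_simp
        ring

/-- The pair `f, g` is the closest pair of the triple. -/
def Cl3 {N : ℕ} (e f g : TE N) : Prop :=
  e ≠ f ∧ e ≠ g ∧ f ≠ g ∧ vd (ts f) (ts g) ≤ vd (ts e) (ts f) ∧
    vd (ts f) (ts g) ≤ vd (ts e) (ts g)

/-- Comparable distances. -/
theorem comp_pair (h : Sc q κ C r J) {k : ℕ} (hk : k < J) {e f g : TE (2 ^ J)}
    (hg : g ∈ Gk f k) (hc : Cl3 e f g) : P3 q e f g ≤ (XX C r k) ^ 3 := by
  obtain ⟨nfg, g1, g2⟩ := mem_Gk.mp hg
  obtain ⟨_, _, _, c1, c2⟩ := hc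
  have h0 := h.q0
  have h1 := h.q1
  rcases lt_or_ge k 2 with hk2 | hk2
  · exact (P3_le_one h e f g).trans (one_le_pow₀ (h.XX_small hk2))
  · have hkk : 2 ^ k ≤ vd (ts f) (ts g) := by
      rcases g2 with g2 | g2
      · omega
      · exact g2
    have pk2 : 2 ^ k = 4 * 2 ^ (k - 2) := by
      rw [show (4:ℕ) = 2 ^ 2 by norm_num, ← pow_add]
      congr 1
      omega
    have pk3 : 1 ≤ 2 ^ (k - 2) := Nat.one_le_two_pow
    have pJ : 2 ^ k < 2 ^ J := Nat.pow_lt_pow_right (by norm_num) hk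
    have e1 := P3_comp h0 h1 (ρ := 2 ^ (k - 2)) (N := 2 ^ J) (e := e) (f := f) (g := g)
      Nat.one_le_two_pow (by omega) (by omega) (by omega) (by omega)
    exact e1.trans (pow_le_pow_left₀ (a4_nonneg h0 h1 _) (h.XX_a4 hk2 hk.le) 3)

/-- Edges at distance less than `2^(k+7)` from `e`. -/
noncomputable def Bk (e : TE (2 ^ J)) (k : ℕ) : Finset (TE (2 ^ J)) := by
  classical
  exact (Finset.univ : Finset (TE (2 ^ J))).filter (fun f => vd (ts e) (ts f) < 2 ^ (k + 7))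

theorem mem_Bk {e f : TE (2 ^ J)} {k : ℕ} : f ∈ Bk e k ↔ vd (ts e) (ts f) < 2 ^ (k + 7) := by
  unfold Bk
  rw [Finset.mem_filter]
  exact ⟨fun h => h.2, fun h => ⟨Finset.mem_univ _, h⟩⟩

theorem comp_k (h : Sc q κ C r J) {k : ℕ} (hk : k < J) (e : TE (2 ^ J)) :
    ∑ f ∈ Bk e k, ∑ g ∈ Gk f k, ind (Cl3 e f g) * P3 q e f g ≤
      2 ^ 22 * C ^ 3 * r ^ 30 * r ^ k := by
  have hr := h.r0
  have hX := h.XX0 k
  have hC0 : 0 ≤ C := by linarith [h.C1]
  have s1 : ∀ f ∈ Bk e k, ∑ g ∈ Gk f k, ind (Cl3 e f g) * P3 q e f g ≤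
      32 * 4 ^ k * (XX C r k) ^ 3 := by
    intro f _
    calc ∑ g ∈ Gk f k, ind (Cl3 e f g) * P3 q e f g ≤ ∑ _g ∈ Gk f k, (XX C r k) ^ 3 := by
          apply Finset.sum_le_sum
          intro g hg
          by_cases hc : Cl3 e f g
          · rw [ind_of hc, one_mul]
            exact comp_pair h hk hg hc
          · rw [ind_not_of hc, zero_mul]
            positivity
      _ = (Gk f k).card * (XX C r k) ^ 3 := by rw [Finset.sum_const, nsmul_eq_mul]
      _ ≤ (32 * 4 ^ k) * (XX C r k) ^ 3 :=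
          mul_le_mul_of_nonneg_right (card_Gk f k) (by positivity)
  have s2 : ((Bk e k).card : ℝ) ≤ 8 * ((2:ℝ) ^ (k + 7)) ^ 2 := by
    have := card_ball (ts e) (D := 2 ^ (k + 7)) Nat.one_le_two_pow (Bk e k)
      (fun f hf => mem_Bk.mp hf)
    exact_mod_cast this
  calc ∑ f ∈ Bk e k, ∑ g ∈ Gk f k, ind (Cl3 e f g) * P3 q e f g
      ≤ ∑ _f ∈ Bk e k, 32 * 4 ^ k * (XX C r k) ^ 3 := Finset.sum_le_sum s1
    _ = (Bk e k).card * (32 * 4 ^ k * (XX C r k) ^ 3) := by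
        rw [Finset.sum_const, nsmul_eq_mul]
    _ ≤ (8 * ((2:ℝ) ^ (k + 7)) ^ 2) * (32 * 4 ^ k * (XX C r k) ^ 3) :=
        mul_le_mul_of_nonneg_right s2 (by positivity)
    _ = 2 ^ 22 * C ^ 3 * r ^ 30 * r ^ k := by
        have e4 : (4:ℝ) ^ k = r ^ (8 * k) := by
          rw [show (4:ℝ) = 2 ^ 2 by norm_num, ← pow_mul, h.two]
          congr 1
          ring
        have e5 : ((2:ℝ) ^ (k + 7)) ^ 2 = 2 ^ 14 * r ^ (8 * k) := by
          rw [← pow_mul, show (k + 7) * 2 = 2 * k + 14 by ring, pow_add, h.two,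
            show 4 * (2 * k) = 8 * k by ring]
          ring
        rw [e4, e5]
        unfold XX
        simp only [inv_pow]
        field_simp
        ring

theorem vd_le_half (u v : TV (2 ^ J)) : vd u v ≤ 2 ^ J / 2 := by
  unfold vd nd
  exact max_le (ZMod.natAbs_valMinAbs_le _) (ZMod.natAbs_valMinAbs_le _)

/-- Classification of the pairs. -/
theorem classify (h : Sc q κ C r J) (hJ0 : 0 < J) (e f g : TE (2 ^ J)) :
    ind (Cl3 e f g) * P3 q e f g ≤ ∑ k ∈ Finset.range J,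
      (ind (f ∈ Bk e k ∧ g ∈ Gk f k) * (ind (Cl3 e f g) * P3 q e f g) +
        ∑ K ∈ (Finset.range J).filter (fun K => k + 7 ≤ K),
          ind (f ∈ FK e K ∧ g ∈ Gk f k) * P3 q e f g) := by
  have hP := P3_nonneg h.q0 h.q1 e f g
  have hpos : ∀ k ∈ Finset.range J,
      0 ≤ (ind (f ∈ Bk e k ∧ g ∈ Gk f k) * (ind (Cl3 e f g) * P3 q e f g) +
        ∑ K ∈ (Finset.range J).filter (fun K => k + 7 ≤ K),
          ind (f ∈ FK e K ∧ g ∈ Gk f k) * P3 q e f g) := by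
    intro k _
    apply add_nonneg
    · exact mul_nonneg (ind_nonneg _) (mul_nonneg (ind_nonneg _) hP)
    · exact Finset.sum_nonneg fun K _ => mul_nonneg (ind_nonneg _) hP
  by_cases hc : Cl3 e f g
  · have hJ : ∀ d : ℕ, d ≤ 2 ^ J / 2 → 1 ≤ 2 ^ J → (d = 0 ∨ 2 ^ (Nat.log 2 d) ≤ d) := by
      intro d _ _
      rcases Nat.eq_zero_or_pos d with h0 | h0
      · exact Or.inl h0
      · exact Or.inr (Nat.pow_log_le_self 2 h0.ne')
    obtain ⟨k, hk⟩ : ∃ k, k = Nat.log 2 (vd (ts f) (ts g)) := ⟨_, rfl⟩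
    have d1 := vd_le_half (ts f) (ts g)
    have d2 := vd_le_half (ts e) (ts f)
    have hpJ : 1 ≤ 2 ^ J := Nat.one_le_two_pow
    obtain ⟨n1, n2, n3, c1, c2⟩ := hc
    have lt1 : vd (ts f) (ts g) < 2 ^ (k + 1) := by
      rw [hk]
      exact Nat.lt_pow_succ_log_self (by norm_num) _
    have hk2 : k = 0 ∨ 2 ^ k ≤ vd (ts f) (ts g) := by
      rcases hJ _ d1 hpJ with h3 | h3
      · left
        rw [hk, h3]
        simp
      · right
        rw [hk]
        exact h3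
    have hkJ : k < J := by
      rcases hk2 with h3 | h3
      · omega
      · by_contra hcon
        push Not at hcon
        have : 2 ^ J ≤ 2 ^ k := Nat.pow_le_pow_right (by norm_num) hcon
        omega
    have hgG : g ∈ Gk f k := mem_Gk.mpr ⟨n3, lt1, hk2⟩
    refine le_trans ?_ (Finset.single_le_sum hpos (Finset.mem_range.mpr hkJ))
    rcases lt_or_ge (vd (ts e) (ts f)) (2 ^ (k + 7)) with hlt | hge
    · rw [ind_of (show f ∈ Bk e k ∧ g ∈ Gk f k from ⟨mem_Bk.mpr hlt, hgG⟩), one_mul]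
      have : 0 ≤ ∑ K ∈ (Finset.range J).filter (fun K => k + 7 ≤ K),
          ind (f ∈ FK e K ∧ g ∈ Gk f k) * P3 q e f g :=
        Finset.sum_nonneg fun K _ => mul_nonneg (ind_nonneg _) hP
      linarith
    · obtain ⟨K, hK⟩ : ∃ K, K = Nat.log 2 (vd (ts e) (ts f)) := ⟨_, rfl⟩
      have p7 : 1 ≤ 2 ^ (k + 7) := Nat.one_le_two_pow
      have hK1 : 2 ^ K ≤ vd (ts e) (ts f) := by
        rw [hK]
        exact Nat.pow_log_le_self 2 (by omega)
      have hK2 : vd (ts e) (ts f) < 2 ^ (K + 1) := by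
        rw [hK]
        exact Nat.lt_pow_succ_log_self (by norm_num) _
      have hkK : k + 7 ≤ K := by
        rw [hK]
        exact (Nat.le_log_iff_pow_le (by norm_num) (by omega)).mpr hge
      have hKJ : K < J := by
        by_contra hcon
        push Not at hcon
        have : 2 ^ J ≤ 2 ^ K := Nat.pow_le_pow_right (by norm_num) hcon
        omega
      have s1 := Finset.single_le_sum
        (f := fun K => ind (f ∈ FK e K ∧ g ∈ Gk f k) * P3 q e f g)
        (s := (Finset.range J).filter (fun K => k + 7 ≤ K))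
        (fun K _ => mul_nonneg (ind_nonneg _) hP)
        (Finset.mem_filter.mpr ⟨Finset.mem_range.mpr hKJ, hkK⟩)
      rw [ind_of (show f ∈ FK e K ∧ g ∈ Gk f k from ⟨mem_FK.mpr ⟨hK1, hK2⟩, hgG⟩), one_mul] at s1
      have s2 : 0 ≤ ind (f ∈ Bk e k ∧ g ∈ Gk f k) * (ind (Cl3 e f g) * P3 q e f g) :=
        mul_nonneg (ind_nonneg _) (mul_nonneg (ind_nonneg _) hP)
      have s3 : ind (Cl3 e f g) * P3 q e f g ≤ P3 q e f g := by
        have := ind_le_one (Cl3 e f g)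
        nlinarith
      linarith
  · rw [ind_not_of hc, zero_mul]
    exact Finset.sum_nonneg (fun k hk => by
      have := hpos k hk
      rwa [ind_not_of hc, zero_mul] at this)

theorem sum_ind_mem {α : Type*} [Fintype α] (B : Finset α) (Y : α → ℝ) :
    ∑ f, ind (f ∈ B) * Y f = ∑ f ∈ B, Y f := by
  classical
  rw [← Finset.sum_filter_add_sum_filter_not Finset.univ (fun f => f ∈ B)]
  have e1 : ∑ f ∈ Finset.univ.filter (fun f => f ∈ B), ind (f ∈ B) * Y f = ∑ f ∈ B, Y f := by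
    have : Finset.univ.filter (fun f => f ∈ B) = B := by
      ext f
      simp
    rw [this]
    apply Finset.sum_congr rfl
    intro f hf
    rw [ind_of hf, one_mul]
  have e2 : ∑ f ∈ Finset.univ.filter (fun f => ¬ f ∈ B), ind (f ∈ B) * Y f = 0 := by
    apply Finset.sum_eq_zero
    intro f hf
    rw [ind_not_of (Finset.mem_filter.mp hf).2, zero_mul]
  rw [e1, e2, add_zero]

theorem geom_le {x : ℝ} (hx : 1 < x) (n : ℕ) :
    ∑ k ∈ Finset.range n, x ^ k ≤ x ^ n / (x - 1) := by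
  rw [geom_sum_eq hx.ne']
  apply div_le_div_of_nonneg_right _ (by linarith)
  linarith

/-- Constant of the sum with base `e`. -/
noncomputable def cW (κ C r : ℝ) : ℝ :=
  2 ^ 22 * C ^ 3 * r ^ 30 / (r - 1) +
    2 ^ 17 * (κ ^ 4)⁻¹ * C ^ 3 * r ^ 25 / ((r ^ 2 - 1) * (r - 1))

theorem W_bound (h : Sc q κ C r J) (hJ0 : 0 < J) (e : TE (2 ^ J)) :
    ∑ f, ∑ g, ind (Cl3 e f g) * P3 q e f g ≤ cW κ C r * r ^ J := by
  have hr := h.r0
  have hr1 := h.r1
  have hr2 : 0 < r - 1 := by linarith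
  have hr3 : 0 < r ^ 2 - 1 := by nlinarith
  have hC0 : 0 ≤ C := by linarith [h.C1]
  have hκ4 : 0 < κ ^ 4 := by
    have := h.win.kpos
    positivity
  have s1 : ∑ f, ∑ g, ind (Cl3 e f g) * P3 q e f g ≤
      ∑ k ∈ Finset.range J, (∑ f ∈ Bk e k, ∑ g ∈ Gk f k, ind (Cl3 e f g) * P3 q e f g +
        ∑ K ∈ (Finset.range J).filter (fun K => k + 7 ≤ K),
          ∑ f ∈ FK e K, ∑ g ∈ Gk f k, P3 q e f g) := by
    calc ∑ f, ∑ g, ind (Cl3 e f g) * P3 q e f g
        ≤ ∑ f, ∑ g, ∑ k ∈ Finset.range J,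
          (ind (f ∈ Bk e k ∧ g ∈ Gk f k) * (ind (Cl3 e f g) * P3 q e f g) +
          ∑ K ∈ (Finset.range J).filter (fun K => k + 7 ≤ K),
            ind (f ∈ FK e K ∧ g ∈ Gk f k) * P3 q e f g) :=
          Finset.sum_le_sum fun f _ => Finset.sum_le_sum fun g _ => classify h hJ0 e f g
      _ = ∑ k ∈ Finset.range J, ∑ f, ∑ g,
          (ind (f ∈ Bk e k ∧ g ∈ Gk f k) * (ind (Cl3 e f g) * P3 q e f g) +
          ∑ K ∈ (Finset.range J).filter (fun K => k + 7 ≤ K),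
            ind (f ∈ FK e K ∧ g ∈ Gk f k) * P3 q e f g) := by
          rw [Finset.sum_comm]
          have : ∀ f : TE (2 ^ J), ∑ g, ∑ k ∈ Finset.range J,
              (ind (f ∈ Bk e k ∧ g ∈ Gk f k) * (ind (Cl3 e f g) * P3 q e f g) +
              ∑ K ∈ (Finset.range J).filter (fun K => k + 7 ≤ K),
                ind (f ∈ FK e K ∧ g ∈ Gk f k) * P3 q e f g) =
              ∑ k ∈ Finset.range J, ∑ g,
              (ind (f ∈ Bk e k ∧ g ∈ Gk f k) * (ind (Cl3 e f g) * P3 q e f g) +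
              ∑ K ∈ (Finset.range J).filter (fun K => k + 7 ≤ K),
                ind (f ∈ FK e K ∧ g ∈ Gk f k) * P3 q e f g) := fun f => Finset.sum_comm
          rw [Finset.sum_comm, Finset.sum_congr rfl (fun f _ => this f), Finset.sum_comm]
      _ = _ := by
          apply Finset.sum_congr rfl
          intro k _
          simp only [Finset.sum_add_distrib]
          congr 1
          · rw [← sum_ind_mem (Bk e k)]
            apply Finset.sum_congr rfl
            intro f _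
            rw [← sum_ind_mem (Gk f k), Finset.mul_sum]
            apply Finset.sum_congr rfl
            intro g _
            rw [ind_and]
            ring
          · have e1 : ∀ f : TE (2 ^ J), ∑ g, ∑ K ∈ (Finset.range J).filter (fun K => k + 7 ≤ K),
                ind (f ∈ FK e K ∧ g ∈ Gk f k) * P3 q e f g =
                ∑ K ∈ (Finset.range J).filter (fun K => k + 7 ≤ K),
                  ind (f ∈ FK e K) * ∑ g ∈ Gk f k, P3 q e f g := by
              intro f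
              rw [Finset.sum_comm]
              apply Finset.sum_congr rfl
              intro K _
              rw [← sum_ind_mem (Gk f k), Finset.mul_sum]
              apply Finset.sum_congr rfl
              intro g _
              rw [ind_and]
              ring
            rw [Finset.sum_congr rfl (fun f _ => e1 f), Finset.sum_comm]
            apply Finset.sum_congr rfl
            intro K _
            rw [sum_ind_mem]
  have s2 : ∑ k ∈ Finset.range J, ∑ f ∈ Bk e k, ∑ g ∈ Gk f k, ind (Cl3 e f g) * P3 q e f g ≤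
      2 ^ 22 * C ^ 3 * r ^ 30 / (r - 1) * r ^ J := by
    calc ∑ k ∈ Finset.range J, ∑ f ∈ Bk e k, ∑ g ∈ Gk f k, ind (Cl3 e f g) * P3 q e f g
        ≤ ∑ k ∈ Finset.range J, 2 ^ 22 * C ^ 3 * r ^ 30 * r ^ k :=
          Finset.sum_le_sum fun k hk => comp_k h (Finset.mem_range.mp hk) e
      _ = 2 ^ 22 * C ^ 3 * r ^ 30 * ∑ k ∈ Finset.range J, r ^ k := by rw [Finset.mul_sum]
      _ ≤ 2 ^ 22 * C ^ 3 * r ^ 30 * (r ^ J / (r - 1)) :=
          mul_le_mul_of_nonneg_left (geom_le hr1 J) (by positivity)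
      _ = _ := by ring
  have s3 : ∑ k ∈ Finset.range J, ∑ K ∈ (Finset.range J).filter (fun K => k + 7 ≤ K),
      ∑ f ∈ FK e K, ∑ g ∈ Gk f k, P3 q e f g ≤
      2 ^ 17 * (κ ^ 4)⁻¹ * C ^ 3 * r ^ 25 / ((r ^ 2 - 1) * (r - 1)) * r ^ J := by
    obtain ⟨c, hc⟩ : ∃ c : ℝ, c = 2 ^ 17 * (κ ^ 4)⁻¹ * C ^ 3 * r ^ 25 := ⟨_, rfl⟩
    have hc0 : 0 ≤ c := by rw [hc]; positivity
    calc ∑ k ∈ Finset.range J, ∑ K ∈ (Finset.range J).filter (fun K => k + 7 ≤ K),
          ∑ f ∈ FK e K, ∑ g ∈ Gk f k, P3 q e f g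
        ≤ ∑ k ∈ Finset.range J, ∑ K ∈ (Finset.range J).filter (fun K => k + 7 ≤ K),
          c * (r ^ (2 * k) * (r⁻¹) ^ K) := by
          apply Finset.sum_le_sum
          intro k _
          apply Finset.sum_le_sum
          intro K hK
          have hK' := Finset.mem_filter.mp hK
          rw [hc]
          exact near_kK h hK'.2 (Finset.mem_range.mp hK'.1) e
      _ = ∑ K ∈ Finset.range J, ∑ k ∈ (Finset.range J).filter (fun k => k + 7 ≤ K),
          c * (r ^ (2 * k) * (r⁻¹) ^ K) := by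
          apply Finset.sum_comm'
          intro k K
          simp only [Finset.mem_filter]
          tauto
      _ ≤ ∑ K ∈ Finset.range J, ∑ k ∈ Finset.range K, c * (r ^ (2 * k) * (r⁻¹) ^ K) := by
          apply Finset.sum_le_sum
          intro K _
          apply Finset.sum_le_sum_of_subset_of_nonneg
          · intro k hk
            have := (Finset.mem_filter.mp hk).2
            exact Finset.mem_range.mpr (by omega)
          · intro k _ _
            positivity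
      _ ≤ ∑ K ∈ Finset.range J, c / (r ^ 2 - 1) * r ^ K := by
          apply Finset.sum_le_sum
          intro K _
          have g1 := geom_le (x := r ^ 2) (by nlinarith) K
          have e1 : ∑ k ∈ Finset.range K, c * (r ^ (2 * k) * (r⁻¹) ^ K) =
              c * (r⁻¹) ^ K * ∑ k ∈ Finset.range K, (r ^ 2) ^ k := by
            rw [Finset.mul_sum]
            apply Finset.sum_congr rfl
            intro k _
            rw [← pow_mul]
            ring
          rw [e1]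
          calc c * (r⁻¹) ^ K * ∑ k ∈ Finset.range K, (r ^ 2) ^ k
              ≤ c * (r⁻¹) ^ K * ((r ^ 2) ^ K / (r ^ 2 - 1)) :=
                mul_le_mul_of_nonneg_left g1 (by positivity)
            _ = c / (r ^ 2 - 1) * r ^ K := by
                rw [← pow_mul, show 2 * K = K + K by ring, pow_add, inv_pow]
                field_simp
      _ = c / (r ^ 2 - 1) * ∑ K ∈ Finset.range J, r ^ K := by rw [Finset.mul_sum]
      _ ≤ c / (r ^ 2 - 1) * (r ^ J / (r - 1)) :=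
          mul_le_mul_of_nonneg_left (geom_le hr1 J) (by positivity)
      _ = _ := by
          rw [hc]
          field_simp
  rw [Finset.sum_add_distrib] at s1
  unfold cW
  rw [add_mul]
  linarith

/-- Distinct edges. -/
def Ds {E : Type*} (e f g : E) : Prop := e ≠ f ∧ e ≠ g ∧ f ≠ g

/-- The sum over all pairs. -/
theorem H_bound (h : Sc q κ C r J) (hJ0 : 0 < J) (e : TE (2 ^ J)) :
    ∑ f, ∑ g, ind (Ds e f g) * P3 q e f g ≤ 6 * cW κ C r * r ^ J := by
  classical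
  have h0 := h.q0
  have h1 := h.q1
  set H : TE (2 ^ J) → ℝ := fun e => ∑ f, ∑ g, ind (Ds e f g) * P3 q e f g with hH
  have hH0 : ∀ e, 0 ≤ H e := fun e => Finset.sum_nonneg fun f _ => Finset.sum_nonneg fun g _ =>
    mul_nonneg (ind_nonneg _) (P3_nonneg h0 h1 e f g)
  have hsh : ∀ v : TV (2 ^ J), H (sh v e) = H e := by
    intro v
    rw [hH]
    simp only
    rw [← Equiv.sum_comp (sh v)]
    apply Finset.sum_congr rfl
    intro f _
    rw [← Equiv.sum_comp (sh v)]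
    apply Finset.sum_congr rfl
    intro g _
    rw [P3_shift]
    congr 1
    apply ind_congr
    unfold Ds
    simp only [ne_eq, EmbeddingLike.apply_eq_iff_eq]
  have k1 : ((2:ℝ) ^ J) ^ 2 * H e ≤ ∑ e, H e := by
    have e1 : ∑ v : TV (2 ^ J), H (sh v e) = ((2:ℝ) ^ J) ^ 2 * H e := by
      rw [Finset.sum_congr rfl (fun v _ => hsh v), Finset.sum_const, nsmul_eq_mul,
        Finset.card_univ, Fintype.card_prod, ZMod.card]
      push_cast
      ring
    rw [← e1]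
    have hinj : Function.Injective (fun v : TV (2 ^ J) => sh v e) := by
      intro v v' hv
      have h1 : e.1 + v.1 = e.1 + v'.1 := congrArg (fun x => x.1) hv
      have h2 : e.2.1 + v.2 = e.2.1 + v'.2 := congrArg (fun x => x.2.1) hv
      exact Prod.ext (add_left_cancel h1) (add_left_cancel h2)
    have e2 : ∑ v : TV (2 ^ J), H (sh v e) =
        ∑ x ∈ Finset.univ.map ⟨fun v : TV (2 ^ J) => sh v e, hinj⟩, H x := by
      rw [Finset.sum_map]
      rfl
    rw [e2]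
    exact Finset.sum_le_univ_sum_of_nonneg hH0
  have pt : ∀ e f g : TE (2 ^ J), ind (Ds e f g) * P3 q e f g ≤
      ind (Cl3 e f g) * P3 q e f g + ind (Cl3 f e g) * P3 q f e g +
        ind (Cl3 g e f) * P3 q g e f := by
    intro e f g
    have n1 : 0 ≤ ind (Cl3 e f g) * P3 q e f g := mul_nonneg (ind_nonneg _) (P3_nonneg h0 h1 _ _ _)
    have n2 : 0 ≤ ind (Cl3 f e g) * P3 q f e g := mul_nonneg (ind_nonneg _) (P3_nonneg h0 h1 _ _ _)
    have n3 : 0 ≤ ind (Cl3 g e f) * P3 q g e f := mul_nonneg (ind_nonneg _) (P3_nonneg h0 h1 _ _ _)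
    by_cases hd : Ds e f g
    · obtain ⟨d1, d2, d3⟩ := hd
      rw [ind_of (show Ds e f g from ⟨d1, d2, d3⟩), one_mul]
      have q1 : P3 q f e g = P3 q e f g := (P3_swap12 d1 g).symm
      have q2 : P3 q g e f = P3 q e f g := by
        rw [P3_swap12 d2.symm f, P3_swap23 e d3]
      have c1 := vd_comm (ts e) (ts f)
      have c2 := vd_comm (ts e) (ts g)
      have c3 := vd_comm (ts f) (ts g)
      by_cases w1 : vd (ts f) (ts g) ≤ vd (ts e) (ts f) ∧ vd (ts f) (ts g) ≤ vd (ts e) (ts g)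
      · rw [ind_of (show Cl3 e f g from ⟨d1, d2, d3, w1⟩)] at n1 ⊢
        linarith
      · by_cases w2 : vd (ts e) (ts g) ≤ vd (ts f) (ts e) ∧ vd (ts e) (ts g) ≤ vd (ts f) (ts g)
        · rw [ind_of (show Cl3 f e g from ⟨d1.symm, d3, d2, w2⟩)] at n2 ⊢
          linarith
        · have w3 : vd (ts e) (ts f) ≤ vd (ts g) (ts e) ∧
              vd (ts e) (ts f) ≤ vd (ts g) (ts f) := by omega
          rw [ind_of (show Cl3 g e f from ⟨d2.symm, d3.symm, d1, w3⟩)] at n3 ⊢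
          linarith
    · rw [ind_not_of hd, zero_mul]
      linarith
  set W : TE (2 ^ J) → ℝ := fun e => ∑ f, ∑ g, ind (Cl3 e f g) * P3 q e f g with hW
  have k2 : ∑ e, H e ≤ 3 * ∑ e, W e := by
    have e1 : ∑ e, H e ≤ ∑ e, ∑ f, ∑ g, (ind (Cl3 e f g) * P3 q e f g +
        ind (Cl3 f e g) * P3 q f e g + ind (Cl3 g e f) * P3 q g e f) :=
      Finset.sum_le_sum fun e _ => Finset.sum_le_sum fun f _ => Finset.sum_le_sum fun g _ =>
        pt e f g
    refine e1.trans (le_of_eq ?_)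
    simp only [Finset.sum_add_distrib]
    have e2 : ∑ e : TE (2 ^ J), ∑ f : TE (2 ^ J), ∑ g : TE (2 ^ J),
        ind (Cl3 f e g) * P3 q f e g = ∑ e, W e := by
      rw [Finset.sum_comm]
    have e3 : ∑ e : TE (2 ^ J), ∑ f : TE (2 ^ J), ∑ g : TE (2 ^ J),
        ind (Cl3 g e f) * P3 q g e f = ∑ e, W e := by
      rw [Finset.sum_congr rfl (fun e _ => Finset.sum_comm), Finset.sum_comm]
    rw [e2, e3]
    ring
  have k3 : ∑ e, W e ≤ 2 * ((2:ℝ) ^ J) ^ 2 * (cW κ C r * r ^ J) := by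
    calc ∑ e, W e ≤ ∑ _e : TE (2 ^ J), cW κ C r * r ^ J :=
          Finset.sum_le_sum fun e _ => W_bound h hJ0 e
      _ = _ := by
          rw [Finset.sum_const, nsmul_eq_mul, Finset.card_univ, Fintype.card_prod,
            Fintype.card_prod, ZMod.card, Fintype.card_bool]
          push_cast
          ring
  have hpos : 0 < ((2:ℝ) ^ J) ^ 2 := by positivity
  have k4 : ((2:ℝ) ^ J) ^ 2 * H e ≤ ((2:ℝ) ^ J) ^ 2 * (6 * cW κ C r * r ^ J) := by
    calc ((2:ℝ) ^ J) ^ 2 * H e ≤ ∑ e, H e := k1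
      _ ≤ 3 * ∑ e, W e := k2
      _ ≤ 3 * (2 * ((2:ℝ) ^ J) ^ 2 * (cW κ C r * r ^ J)) := by linarith
      _ = _ := by ring
  exact le_of_mul_le_mul_left k4 hpos

end Sum

end Pool.Agent.W2helper75.AU
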