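import Pool.Agent.H973R3.NC.A4L
import Pool.Agent.W2helper75.AU.Grf
import Mathlib.Data.ZMod.ValMinAbs

/-!
The square torus: projections, lifts of configurations in a ball, the law of a lift.
-/

set_option autoImplicit false

namespace Pool.Agent.W2helper75.AU

open H974 H973N H12S Finset

/-- Vertices of the torus. -/
abbrev TV (N : ℕ) := ZMod N × ZMod N

/-- Edges of the torus. -/
abbrev TE (N : ℕ) := ZMod N × ZMod N × Bool

/-- First end (base point). -/
def ts {N : ℕ} (e : TE N) : TV N := (e.1, e.2.1)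

/-- Second end. -/
def tt {N : ℕ} (e : TE N) : TV N := if e.2.2 then (e.1 + 1, e.2.1) else (e.1, e.2.1 + 1)

/-- Projection of the vertices. -/
def pv (N : ℕ) (v : Vtx) : TV N := ((v.1 : ZMod N), (v.2 : ZMod N))

/-- Projection of the edges. -/
def pe (N : ℕ) (e : Edg) : TE N := ((e.1 : ZMod N), (e.2.1 : ZMod N), e.2.2)

theorem ts_pe (N : ℕ) (e : Edg) : ts (pe N e) = pv N (src e) := rfl

theorem tt_pe (N : ℕ) (e : Edg) : tt (pe N e) = pv N (tgt e) := by
  obtain ⟨x, y, _ | _⟩ := e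
  · unfold tt pe pv
    simp
  · unfold tt pe pv
    simp

/-- Lift of a configuration to the ball of radius `ρ` around `c`. -/
noncomputable def lf (N : ℕ) (c : ℤ × ℤ) (ρ : ℕ) (F : Finset (TE N)) : Finset Edg := by
  classical exact (blk c ρ).filter (fun g => pe N g ∈ F)

/-- Projection of a ball. -/
noncomputable def PB (N : ℕ) (c : ℤ × ℤ) (ρ : ℕ) : Finset (TE N) := by
  classical exact (blk c ρ).image (pe N)

theorem mem_lf {N : ℕ} {c : ℤ × ℤ} {ρ : ℕ} {F : Finset (TE N)} {g : Edg} :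
    g ∈ lf N c ρ F ↔ g ∈ blk c ρ ∧ pe N g ∈ F := by
  unfold lf
  rw [Finset.mem_filter]

theorem mem_PB {N : ℕ} {c : ℤ × ℤ} {ρ : ℕ} {a : TE N} :
    a ∈ PB N c ρ ↔ ∃ g ∈ blk c ρ, pe N g = a := by
  unfold PB
  rw [Finset.mem_image]

theorem lf_mono {N : ℕ} {c : ℤ × ℤ} {ρ : ℕ} {F G : Finset (TE N)} (h : F ⊆ G) :
    lf N c ρ F ⊆ lf N c ρ G := by
  intro g hg
  rw [mem_lf] at hg ⊢
  exact ⟨hg.1, h hg.2⟩

theorem lf_congr {N : ℕ} {c : ℤ × ℤ} {ρ : ℕ} {F G : Finset (TE N)}
    (h : ∀ a ∈ PB N c ρ, (a ∈ F ↔ a ∈ G)) : lf N c ρ F = lf N c ρ G := by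
  ext g
  rw [mem_lf, mem_lf]
  constructor
  · rintro ⟨h1, h2⟩
    exact ⟨h1, (h _ (mem_PB.mpr ⟨g, h1, rfl⟩)).mp h2⟩
  · rintro ⟨h1, h2⟩
    exact ⟨h1, (h _ (mem_PB.mpr ⟨g, h1, rfl⟩)).mpr h2⟩

theorem lf_inter {N : ℕ} {c : ℤ × ℤ} {ρ : ℕ} {F S : Finset (TE N)} (h : PB N c ρ ⊆ S) :
    lf N c ρ (F ∩ S) = lf N c ρ F := by
  apply lf_congr
  intro a ha
  rw [Finset.mem_inter]
  exact ⟨fun h => h.1, fun h' => ⟨h', h ha⟩⟩

theorem cast_inj {N : ℕ} {a b : ℤ} (h : |a - b| < N) (hab : (a : ZMod N) = b) : a = b := by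
  rw [ZMod.intCast_eq_intCast_iff_dvd_sub] at hab
  have h2 := Int.eq_zero_of_abs_lt_dvd hab (by rwa [abs_sub_comm])
  omega

theorem blk_bounds {c : ℤ × ℤ} {ρ : ℕ} {g : Edg} (hg : g ∈ blk c ρ) :
    (c.1 - ρ ≤ g.1 ∧ g.1 ≤ c.1 + ρ) ∧ (c.2 - ρ ≤ g.2.1 ∧ g.2.1 ≤ c.2 + ρ) := by
  obtain ⟨x, y, _ | _⟩ := g
  · unfold blk at hg
    rw [mem_RE_false] at hg
    simp only
    omega
  · unfold blk at hg
    rw [mem_RE_true] at hg
    simp only
    omega

theorem pe_inj {N : ℕ} {c : ℤ × ℤ} {ρ : ℕ} (h : 2 * ρ < N) {g g' : Edg} (hg : g ∈ blk c ρ)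
    (hg' : g' ∈ blk c ρ) (he : pe N g = pe N g') : g = g' := by
  have b1 := blk_bounds hg
  have b2 := blk_bounds hg'
  unfold pe at he
  simp only [Prod.mk.injEq] at he
  have hN : (2:ℤ) * ρ < N := by exact_mod_cast h
  have e1 := cast_inj (N := N) (a := g.1) (b := g'.1) (by rw [abs_lt]; omega) he.1
  have e2 := cast_inj (N := N) (a := g.2.1) (b := g'.2.1) (by rw [abs_lt]; omega) he.2.1
  exact Prod.ext e1 (Prod.ext e2 he.2.2)

theorem pv_inj {N : ℕ} {c : ℤ × ℤ} {ρ : ℕ} (h : 2 * ρ < N) {v v' : Vtx}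
    (hg : inR (c.1 - ρ) (c.1 + ρ) (c.2 - ρ) (c.2 + ρ) v)
    (hg' : inR (c.1 - ρ) (c.1 + ρ) (c.2 - ρ) (c.2 + ρ) v') (he : pv N v = pv N v') : v = v' := by
  unfold inR at hg hg'
  unfold pv at he
  simp only [Prod.mk.injEq] at he
  have hN : (2:ℤ) * ρ < N := by exact_mod_cast h
  have e1 := cast_inj (N := N) (a := v.1) (b := v'.1) (by rw [abs_lt]; omega) he.1
  have e2 := cast_inj (N := N) (a := v.2) (b := v'.2) (by rw [abs_lt]; omega) he.2
  exact Prod.ext e1 e2

/-- Planar paths project. -/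
theorem reach_proj {N : ℕ} {F : Set Edg} {G : Set (TE N)} (h : ∀ g ∈ F, pe N g ∈ G) {u v : Vtx}
    (huv : Reach F u v) : GR ts tt G (pv N u) (pv N v) := by
  induction huv with
  | refl => exact GR.refl _ _
  | @tail w w' _ hs ih =>
    obtain ⟨g, hg, hc⟩ := hs
    refine ih.trans (GAdj.gr ⟨pe N g, h g hg, ?_⟩)
    rw [ts_pe, tt_pe]
    rcases hc with ⟨h1, h2⟩ | ⟨h1, h2⟩
    · left; rw [h1, h2]; exact ⟨rfl, rfl⟩
    · right; rw [h1, h2]; exact ⟨rfl, rfl⟩

theorem lf_proj {N : ℕ} {c : ℤ × ℤ} {ρ : ℕ} {F : Finset (TE N)} {u v : Vtx}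
    (huv : Reach (↑(lf N c ρ F) : Set Edg) u v) :
    GR ts tt (↑F : Set (TE N)) (pv N u) (pv N v) :=
  reach_proj (fun g hg => by
    rw [Finset.mem_coe, mem_lf] at hg
    exact hg.2) huv

/-- A torus path started in a ball: it stays in the ball or reaches its boundary. -/
theorem texit {N : ℕ} {c : ℤ × ℤ} {ρ : ℕ} {F : Finset (TE N)} {u y : TV N}
    (h : GR ts tt (↑F : Set (TE N)) u y) : ∀ x : Vtx, pv N x = u →
    inR (c.1 - ρ) (c.1 + ρ) (c.2 - ρ) (c.2 + ρ) x →
    (∃ w ∈ bdR (c.1 - ρ) (c.1 + ρ) (c.2 - ρ) (c.2 + ρ), Reach (↑(lf N c ρ F) : Set Edg) x w ∧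
      GR ts tt (↑F : Set (TE N)) (pv N w) y) ∨
    (∃ y' : Vtx, inR (c.1 - ρ) (c.1 + ρ) (c.2 - ρ) (c.2 + ρ) y' ∧ pv N y' = y ∧
      Reach (↑(lf N c ρ F) : Set Edg) x y') := by
  induction h using Relation.ReflTransGen.head_induction_on with
  | refl =>
    intro x hx hin
    exact Or.inr ⟨x, hin, hx, Reach.refl _ _⟩
  | @head u u' hs htail ih =>
    intro x hx hin
    by_cases hb : x.1 = c.1 - ρ ∨ x.1 = c.1 + ρ ∨ x.2 = c.2 - ρ ∨ x.2 = c.2 + ρ
    · left
      refine ⟨x, ⟨hin, hb⟩, Reach.refl _ _, ?_⟩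
      rw [hx]
      exact Relation.ReflTransGen.head hs htail
    · push Not at hb
      obtain ⟨b1, b2, b3, b4⟩ := hb
      unfold inR at hin
      -- lift the edge
      obtain ⟨⟨a1, a2, bo⟩, ha, hc⟩ := hs
      obtain ⟨x', hx', hin', hadj⟩ : ∃ x' : Vtx, pv N x' = u' ∧
          inR (c.1 - ρ) (c.1 + ρ) (c.2 - ρ) (c.2 + ρ) x' ∧
          Adj (↑(lf N c ρ F) : Set Edg) x x' := by
        obtain ⟨x1, x2⟩ := x
        unfold pv at hx
        simp only at hin b1 b2 b3 b4 hx
        rcases hc with ⟨h1, h2⟩ | ⟨h1, h2⟩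
        · -- base point is `x`
          unfold ts at h1
          simp only at h1
          rw [← hx] at h1
          simp only [Prod.mk.injEq] at h1
          obtain ⟨h1a, h1b⟩ := h1
          subst h1a
          subst h1b
          cases bo
          · refine ⟨(x1, x2 + 1), ?_, ?_, ⟨(x1, x2, false), ?_, Or.inl ⟨rfl, rfl⟩⟩⟩
            · rw [← h2]
              unfold pv tt
              simp
            · unfold inR
              simp only
              omega
            · rw [Finset.mem_coe, mem_lf]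
              refine ⟨?_, ha⟩
              unfold blk
              rw [mem_RE_false]
              omega
          · refine ⟨(x1 + 1, x2), ?_, ?_, ⟨(x1, x2, true), ?_, Or.inl ⟨rfl, rfl⟩⟩⟩
            · rw [← h2]
              unfold pv tt
              simp
            · unfold inR
              simp only
              omega
            · rw [Finset.mem_coe, mem_lf]
              refine ⟨?_, ha⟩
              unfold blk
              rw [mem_RE_true]
              omega
        · -- the other end is `x`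
          cases bo
          · unfold tt at h2
            simp only [Bool.false_eq_true, if_false] at h2
            rw [← hx] at h2
            simp only [Prod.mk.injEq] at h2
            obtain ⟨h2a, h2b⟩ := h2
            have h2c : a2 = ((x2 - 1 : ℤ) : ZMod N) := by
              push_cast
              rw [← h2b]
              ring
            subst h2a
            subst h2c
            refine ⟨(x1, x2 - 1), ?_, ?_, ⟨(x1, x2 - 1, false), ?_, Or.inr ⟨rfl, ?_⟩⟩⟩
            · rw [← h1]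
              rfl
            · unfold inR
              simp only
              omega
            · rw [Finset.mem_coe, mem_lf]
              refine ⟨?_, ha⟩
              unfold blk
              rw [mem_RE_false]
              omega
            · rw [tgt_false]
              simp
          · unfold tt at h2
            simp only [if_true] at h2
            rw [← hx] at h2
            simp only [Prod.mk.injEq] at h2
            obtain ⟨h2a, h2b⟩ := h2
            have h2c : a1 = ((x1 - 1 : ℤ) : ZMod N) := by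
              push_cast
              rw [← h2a]
              ring
            subst h2b
            subst h2c
            refine ⟨(x1 - 1, x2), ?_, ?_, ⟨(x1 - 1, x2, true), ?_, Or.inr ⟨rfl, ?_⟩⟩⟩
            · rw [← h1]
              rfl
            · unfold inR
              simp only
              omega
            · rw [Finset.mem_coe, mem_lf]
              refine ⟨?_, ha⟩
              unfold blk
              rw [mem_RE_true]
              omega
            · rw [tgt_true]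
              simp
      rcases ih x' hx' hin' with ⟨w, hw, h1, h2⟩ | ⟨y', h1, h2, h3⟩
      · exact Or.inl ⟨w, hw, (Adj.reach hadj).trans h1, h2⟩
      · exact Or.inr ⟨y', h1, h2, (Adj.reach hadj).trans h3⟩

/-- The law of a lift. -/
theorem pr_lf {N : ℕ} [NeZero N] {c : ℤ × ℤ} {ρ : ℕ} (hρ : 2 * ρ < N) {S : Finset (TE N)}
    (hS : PB N c ρ ⊆ S) (q : ℝ) (X : Finset Edg → Prop) :
    Pr (fun _ => q) S (fun F => X (lf N c ρ F)) = PQ q (blk c ρ) X := by
  classical
  have e0 : Pr (fun _ => q) S (fun F => X (lf N c ρ F)) =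
      Pr (fun _ => q) (Finset.univ : Finset (TE N)) (fun F => X (lf N c ρ F)) := by
    rw [Pr_local (S' := PB N c ρ) hS (fun F _ => by rw [lf_inter (Finset.Subset.refl _)]),
      Pr_local (S' := PB N c ρ) (Finset.subset_univ _)
        (fun F _ => by rw [lf_inter (Finset.Subset.refl _)])]
  rw [e0]
  -- the section
  let ψ : TE N ↪ Edg := ⟨fun a => (((a.1 - ((c.1 - ρ : ℤ) : ZMod N)).val : ℤ) + (c.1 - ρ),
    ((a.2.1 - ((c.2 - ρ : ℤ) : ZMod N)).val : ℤ) + (c.2 - ρ), a.2.2), by
      intro a b hab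
      simp only [Prod.mk.injEq, add_left_inj, Nat.cast_inj] at hab
      obtain ⟨h1, h2, h3⟩ := hab
      have h1' := ZMod.val_injective N h1
      have h2' := ZMod.val_injective N h2
      exact Prod.ext (sub_left_injective h1') (Prod.ext (sub_left_injective h2') h3)⟩
  have hψ : ∀ a, pe N (ψ a) = a := by
    intro a
    show pe N (((a.1 - ((c.1 - ρ : ℤ) : ZMod N)).val : ℤ) + (c.1 - ρ),
      ((a.2.1 - ((c.2 - ρ : ℤ) : ZMod N)).val : ℤ) + (c.2 - ρ), a.2.2) = a
    unfold pe
    have k1 : ∀ (x : ZMod N) (k : ℤ), (((((x - ((k : ℤ) : ZMod N)).val : ℕ) : ℤ) + k : ℤ) : ZMod N) =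
        x := by
      intro x k
      push_cast
      rw [ZMod.natCast_zmod_val]
      ring
    have e1 := k1 a.1 (c.1 - ρ)
    have e2 := k1 a.2.1 (c.2 - ρ)
    simp only
    rw [e1, e2]
  have hblk : ∀ g ∈ blk c ρ, ψ (pe N g) = g := by
    intro g hg
    have hb := blk_bounds hg
    have hv : ∀ (x : ZMod N), (x.val : ℤ) < N ∧ 0 ≤ (x.val : ℤ) := by
      intro x
      exact ⟨by exact_mod_cast ZMod.val_lt x, by positivity⟩
    have hp := hψ (pe N g)
    have hN : (2:ℤ) * ρ < N := by exact_mod_cast hρ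
    have key : ∀ (x k : ℤ), k ≤ x → x ≤ k + 2 * ρ →
        ((((((x : ZMod N) - ((k : ℤ) : ZMod N)).val : ℕ) : ℤ) + k : ℤ)) = x := by
      intro x k h1 h2
      have h3 := hv ((x : ZMod N) - ((k : ℤ) : ZMod N))
      apply cast_inj (N := N)
      · rw [abs_lt]
        constructor <;> omega
      · push_cast
        rw [ZMod.natCast_zmod_val]
        ring
    show (((((g.1 : ZMod N) - ((c.1 - ρ : ℤ) : ZMod N)).val : ℕ) : ℤ) + (c.1 - ρ),
      ((((g.2.1 : ZMod N) - ((c.2 - ρ : ℤ) : ZMod N)).val : ℕ) : ℤ) + (c.2 - ρ), g.2.2) = g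
    have e1 := key g.1 (c.1 - ρ) (by omega) (by omega)
    have e2 := key g.2.1 (c.2 - ρ) (by omega) (by omega)
    rw [e1, e2]
  have hlf : ∀ F : Finset (TE N), lf N c ρ F = F.map ψ ∩ blk c ρ := by
    intro F
    ext g
    rw [mem_lf, Finset.mem_inter, Finset.mem_map]
    constructor
    · rintro ⟨h1, h2⟩
      exact ⟨⟨_, h2, hblk g h1⟩, h1⟩
    · rintro ⟨⟨a, h1, h2⟩, h3⟩
      refine ⟨h3, ?_⟩
      rw [← h2, hψ]
      exact h1
  have e1 : Pr (fun _ => q) (Finset.univ : Finset (TE N)) (fun F => X (lf N c ρ F)) =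
      Pr (fun _ => q) ((Finset.univ : Finset (TE N)).map ψ) (fun G => X (G ∩ blk c ρ)) := by
    unfold Pr
    rw [Ex_map]
    apply Ex_congr
    intro F _
    show ind (X (lf N c ρ F)) = ind (X (F.map ψ ∩ blk c ρ))
    rw [hlf]
  have hsub : blk c ρ ⊆ (Finset.univ : Finset (TE N)).map ψ := by
    intro g hg
    rw [Finset.mem_map]
    exact ⟨pe N g, Finset.mem_univ _, hblk g hg⟩
  rw [e1, Pr_local (S' := blk c ρ) hsub (fun F _ => by rw [Finset.inter_assoc, Finset.inter_self])]
  unfold PQ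
  apply Pr_congr
  intro F hF
  rw [Finset.inter_eq_left.mpr hF]

end Pool.Agent.W2helper75.AU
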