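import Pool.Agent.W2helper75.AU.TorP
import Pool.Agent.W2helper75.AU.Bes
import Pool.Agent.H12R2.Sep.Win1

/-!
The square torus: circuits around a block and the sum over disjoint blocks.
-/

set_option autoImplicit false

namespace Pool.Agent.W2helper75.AU

open H974 H973N H12S Finset

section Circ
variable {N : ℕ} [NeZero N]

theorem tor_cU {c : ℤ × ℤ} {m : ℕ} (hm : 1 ≤ m) {G : Finset (TE N)} {x y : TV N}
    (hx : 3 * m ≤ vd (pv N c) x) (hy : 3 * m ≤ vd (pv N c) y)
    (hU : BSU c m (lf N c (3 * m) G))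
    (h : GR ts tt (↑(G ∪ PB N c m) : Set (TE N)) x y) : GR ts tt (↑G : Set (TE N)) x y := by
  obtain ⟨z, hz⟩ := BSU_meet hm hU
  have key : ∀ a w : TV N, GR ts tt (↑(G ∪ PB N c m) : Set (TE N)) a w →
      GR ts tt (↑G : Set (TE N)) a w ∨ ∃ x' : Vtx,
        inR (c.1 - m) (c.1 + m) (c.2 - m) (c.2 + m) x' ∧
        GR ts tt (↑G : Set (TE N)) a (pv N x') := by
    intro a w hw
    induction hw with
    | refl => exact Or.inl (GR.refl _ _)
    | @tail w w' _ hs ih =>
      rcases ih with ih | ih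
      · obtain ⟨g, hg, hc⟩ := hs
        rcases Finset.mem_union.mp (Finset.mem_coe.mp hg) with hg | hg
        · exact Or.inl (ih.trans (GAdj.gr ⟨g, hg, hc⟩))
        · right
          obtain ⟨g', hg', rfl⟩ := mem_PB.mp hg
          have hb := BS_adj_box hg'
          rcases hc with ⟨h1, _⟩ | ⟨_, h2⟩
          · refine ⟨src g', hb.1, ?_⟩
            rw [← ts_pe, h1]
            exact ih
          · refine ⟨tgt g', hb.2, ?_⟩
            rw [← tt_pe, h2]
            exact ih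
      · exact Or.inr ih
  have hm3 : ∀ x' : Vtx, inR (c.1 - m) (c.1 + m) (c.2 - m) (c.2 + m) x' →
      inR (c.1 - (3 * m : ℕ)) (c.1 + (3 * m : ℕ)) (c.2 - (3 * m : ℕ)) (c.2 + (3 * m : ℕ)) x' := by
    intro x' hx'
    unfold inR at hx' ⊢
    push_cast
    omega
  have toz : ∀ (x' : Vtx) (y : TV N), inR (c.1 - m) (c.1 + m) (c.2 - m) (c.2 + m) x' →
      3 * m ≤ vd (pv N c) y → GR ts tt (↑G : Set (TE N)) (pv N x') y →
      GR ts tt (↑G : Set (TE N)) (pv N x') (pv N z) := by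
    intro x' y hx' hy h
    obtain ⟨w, hw, k⟩ := texit' (hm3 x' hx') h hy
    have k2 := hz x' w hx' (by
      unfold BSfar
      unfold bdR inR at hw
      simp only [Set.mem_ofPred_eq] at hw
      omega) k
    exact lf_proj k2
  rcases key x y h with h1 | ⟨x', hx', h1⟩
  · exact h1
  · rcases key y x h.symm with h2 | ⟨y', hy', h2⟩
    · exact h2.symm
    · have g1 := toz x' x hx' hx h1.symm
      have g2 := toz y' y hy' hy h2.symm
      exact h1.trans (g1.trans (g2.symm.trans h2.symm))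

theorem tor_cD {c : ℤ × ℤ} {m : ℕ} {G : Finset (TE N)} {x y : TV N}
    (hx : 3 * m ≤ vd (pv N c) x) (hD : BSD c m (lf N c (3 * m) G))
    (h : GR ts tt (↑G : Set (TE N)) x y) : GR ts tt (↑(G \ PB N c m) : Set (TE N)) x y := by
  induction h with
  | refl => exact GR.refl _ _
  | @tail w w' hw hs ih =>
    obtain ⟨g, hg, hc⟩ := hs
    refine ih.trans (GAdj.gr ⟨g, ?_, hc⟩)
    rw [Finset.mem_coe, Finset.mem_sdiff]
    refine ⟨hg, fun hgB => ?_⟩
    obtain ⟨g', hg', rfl⟩ := mem_PB.mp hgB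
    have hb := BS_adj_box hg'
    obtain ⟨w2, hw2, hin⟩ : ∃ w2 : Vtx, pv N w2 = w ∧
        inR (c.1 - m) (c.1 + m) (c.2 - m) (c.2 + m) w2 := by
      rcases hc with ⟨h1, _⟩ | ⟨_, h2⟩
      · exact ⟨src g', by rw [← h1]; rfl, hb.1⟩
      · exact ⟨tgt g', by rw [← h2, tt_pe], hb.2⟩
    apply hD
    have hw' : GR ts tt (↑G : Set (TE N)) (pv N w2) x := by
      rw [hw2]
      exact GR.symm hw
    obtain ⟨w3, hw3, k⟩ := texit' (ρ := 3 * m) (by
      unfold inR at hin ⊢
      push_cast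
      omega) hw' hx
    refine ⟨w2, w3, hin, ?_, k⟩
    unfold bdR inR at hw3
    simp only [Set.mem_ofPred_eq] at hw3
    omega

theorem pr_tU {q κ : ℝ} {n : ℕ} (hW : Win q κ n) {m : ℕ} (hm : 1 ≤ m) (hmn : 2 * m ≤ n)
    (hN : 6 * m < N) {c : ℤ × ℤ} {S : Finset (TE N)} (hS : PB N c (3 * m) ⊆ S) :
    κ ^ 4 ≤ Pr (fun _ => q) S (fun F => BSU c m (lf N c (3 * m) F)) := by
  rw [pr_lf (by omega) hS q (BSU c m)]
  refine (win_circ hW hm hmn c.1 c.2 (blk c (3 * m)) ?_).1
  unfold blk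
  push_cast
  exact Finset.Subset.refl _

theorem pr_tD {q κ : ℝ} {n : ℕ} (hW : Win q κ n) {m : ℕ} (hm : 1 ≤ m) (hmn : 2 * m ≤ n)
    (hN : 6 * m < N) {c : ℤ × ℤ} {S : Finset (TE N)} (hS : PB N c (3 * m) ⊆ S) :
    κ ^ 4 ≤ Pr (fun _ => q) S (fun F => BSD c m (lf N c (3 * m) F)) := by
  rw [pr_lf (by omega) hS q (BSD c m)]
  exact (win_blk hW hm hmn c.1 c.2 (blk c (3 * m))).1

theorem PB_mono {c : ℤ × ℤ} {m m' : ℕ} (h : m ≤ m') : PB N c m ⊆ PB N c m' := by
  intro a ha
  rw [mem_PB] at ha ⊢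
  obtain ⟨g, hg, rfl⟩ := ha
  refine ⟨g, ?_, rfl⟩
  unfold blk at hg ⊢
  exact RE_subset (by omega) (by omega) (by omega) (by omega) hg

theorem PB_disj {c c' : ℤ × ℤ} {m m' : ℕ} (h : m + m' < vd (pv N c) (pv N c')) :
    Disjoint (PB N c m) (PB N c' m') := by
  rw [Finset.disjoint_left]
  intro a h1 h2
  have k1 := PB_vd h1
  have k2 := PB_vd h2
  have k3 := vd_tri (pv N c) (ts a) (pv N c')
  rw [vd_comm (ts a)] at k3
  omega

/-- Local four-arm event at `e` and pivotality of one of disjoint blocks: sum over the blocks. -/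
theorem near_sum {ι : Type*} [DecidableEq ι] {q κ : ℝ} {n : ℕ} (hW : Win q κ n) {m : ℕ}
    (hm : 1 ≤ m) (hmn : 2 * m ≤ n) (hmN : 6 * m < N) {ρ : ℕ} {e : Edg} (hρ : 1 ≤ ρ)
    (hρN : 2 * ρ < N) (C : Finset ι) (c : ι → ℤ × ℤ)
    (hC : ∀ v ∈ C, ∀ v' ∈ C, v ≠ v' → 6 * m < vd (pv N (c v)) (pv N (c v')))
    (hCe : ∀ v ∈ C, ρ + 3 * m < vd (pv N (c v)) (ts (pe N e))) :
    ∑ v ∈ C, Pr (fun _ => q) (Finset.univ : Finset (TE N))
      (fun F => L4 ρ e (↑(lf N (bp e) ρ F) : Set Edg) ∧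
        Bf (AA ts tt (pe N e)) (PB N (c v) m) F) ≤
      a4 q ρ * (2 * (κ ^ 4)⁻¹ * Real.sqrt C.card) := by
  classical
  have h0 : 0 ≤ q := by linarith [hW.lo]
  have h1 : q ≤ 1 := by linarith [hW.hi]
  have hok : Ok (fun _ : TE N => q) := fun _ => ⟨h0, h1⟩
  have hκ4 : 0 < κ ^ 4 := by
    have := hW.kpos
    positivity
  have hκ1 : κ ^ 4 ≤ 1 := pow_le_one₀ hW.kpos.le (by linarith [hW.kle])
  obtain ⟨S0, hS0⟩ : ∃ S0, S0 = PB N (bp e) ρ := ⟨_, rfl⟩
  obtain ⟨S1, hS1⟩ : ∃ S1 : Finset (TE N), S1 = Finset.univ \ S0 := ⟨_, rfl⟩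
  have hU : (Finset.univ : Finset (TE N)) = S0 ∪ S1 := by
    rw [hS1, Finset.union_sdiff_of_subset (Finset.subset_univ _)]
  have hdis : Disjoint S0 S1 := by
    rw [hS1]
    exact Finset.disjoint_sdiff
  have hbe : pv N (bp e) = ts (pe N e) := rfl
  have hB0 : ∀ v ∈ C, Disjoint (PB N (c v) (3 * m)) S0 := by
    intro v hv
    rw [hS0]
    apply PB_disj
    have := hCe v hv
    rw [hbe]
    omega
  have hB1 : ∀ v ∈ C, PB N (c v) (3 * m) ⊆ S1 := by
    intro v hv a ha
    rw [hS1, Finset.mem_sdiff]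
    exact ⟨Finset.mem_univ _, Finset.disjoint_left.mp (hB0 v hv) ha⟩
  have hPe : ∀ v ∈ C, pe N e ∉ PB N (c v) (3 * m) := by
    intro v hv h
    have h2 := PB_vd h
    have h3 := hCe v hv
    omega
  -- conditioning
  have step : ∀ v ∈ C, Pr (fun _ => q) (Finset.univ : Finset (TE N))
      (fun F => L4 ρ e (↑(lf N (bp e) ρ F) : Set Edg) ∧
        Bf (AA ts tt (pe N e)) (PB N (c v) m) F) =
      Ex (fun _ => q) S0 (fun w => ind (L4 ρ e (↑(lf N (bp e) ρ w) : Set Edg)) *
        Pr (fun _ => q) S1 (Bf (fun F => AA ts tt (pe N e) (w ∪ F)) (PB N (c v) m))) := by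
    intro v hv
    unfold Pr
    rw [hU, Ex_union hdis]
    apply Ex_congr
    intro w hw
    rw [← Ex_mul_left]
    apply Ex_congr
    intro F hF
    rw [← ind_and]
    apply ind_congr
    have e1 : lf N (bp e) ρ (w ∪ F) = lf N (bp e) ρ w := by
      apply lf_congr
      intro a ha
      rw [Finset.mem_union]
      constructor
      · rintro (h | h)
        · exact h
        · have := hF h
          rw [hS1, Finset.mem_sdiff, hS0] at this
          exact absurd ha this.2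
      · exact Or.inl
    have e2 : (w ∪ F) ∪ PB N (c v) m = w ∪ (F ∪ PB N (c v) m) := Finset.union_assoc _ _ _
    have e3 : (w ∪ F) \ PB N (c v) m = w ∪ (F \ PB N (c v) m) := by
      rw [Finset.union_sdiff_distrib]
      congr 1
      apply Finset.sdiff_eq_self_of_disjoint
      rw [Finset.disjoint_left]
      intro a ha ha'
      exact Finset.disjoint_left.mp (hB0 v hv) (PB_mono (by omega) ha') (hw ha)
    beta_reduce
    rw [e1]
    unfold Bf
    rw [e2, e3]
  rw [Finset.sum_congr rfl step, ← Ex_sum]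
  have hmain : ∀ w, w ⊆ S0 → ∑ v ∈ C, Pr (fun _ => q) S1
      (Bf (fun F => AA ts tt (pe N e) (w ∪ F)) (PB N (c v) m)) ≤
      2 * (κ ^ 4)⁻¹ * Real.sqrt C.card := by
    intro w hw
    have hlfw : ∀ v ∈ C, ∀ F : Finset (TE N), lf N (c v) (3 * m) ((w ∪ F).erase (pe N e)) =
        lf N (c v) (3 * m) F := by
      intro v hv F
      apply lf_congr
      intro a ha
      rw [Finset.mem_erase, Finset.mem_union]
      constructor
      · rintro ⟨_, h | h⟩
        · exact absurd (hw h) (Finset.disjoint_left.mp (hB0 v hv) ha)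
        · exact h
      · intro h
        exact ⟨fun h' => hPe v hv (h' ▸ ha), Or.inr h⟩
    have hts : ∀ v ∈ C, 3 * m ≤ vd (pv N (c v)) (ts (pe N e)) := fun v hv => by
      have := hCe v hv
      omega
    have htt : ∀ v ∈ C, 3 * m ≤ vd (pv N (c v)) (tt (pe N e)) := fun v hv => by
      have := hCe v hv
      have h2 := vd_tri (pv N (c v)) (tt (pe N e)) (ts (pe N e))
      have h3 := vd_ts_tt (pe N e)
      rw [vd_comm (tt _)] at h2
      omega
    refine bessel h0 h1 hκ4 hκ1 (B := fun v => PB N (c v) (3 * m))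
      (U := fun v F => BSU (c v) m (lf N (c v) (3 * m) F))
      (D := fun v F => BSD (c v) m (lf N (c v) (3 * m) F)) ?_ hB1 ?_ ?_ ?_ ?_ ?_ ?_ ?_ ?_ ?_
    · intro F G hFG hF
      exact AA_mono (Finset.union_subset_union_right hFG) hF
    · intro v hv v' hv' hne
      apply PB_disj
      have := hC v hv v' hv' hne
      omega
    · intro v _ F G hFG hF
      exact BSU_mono (lf_mono hFG) hF
    · intro v _ F G hFG hG hF
      exact hG (BS_crs_mono (by exact_mod_cast lf_mono hFG) hF)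
    · intro v _ F
      rw [lf_inter (Finset.Subset.refl _)]
    · intro v _ F
      rw [lf_inter (Finset.Subset.refl _)]
    · intro v hv
      exact pr_tU hW hm hmn hmN (hB1 v hv)
    · intro v hv
      exact pr_tD hW hm hmn hmN (hB1 v hv)
    · intro v hv F _ hUF hA
      have hA' : GR ts tt (↑(((w ∪ F).erase (pe N e)) ∪ PB N (c v) m) : Set (TE N))
          (ts (pe N e)) (tt (pe N e)) := by
        have e1 : ((w ∪ F).erase (pe N e)) ∪ PB N (c v) m =
            (w ∪ (F ∪ PB N (c v) m)).erase (pe N e) := by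
          have hne : pe N e ∉ PB N (c v) m := fun h => hPe v hv (PB_mono (by omega) h)
          ext a
          simp only [Finset.mem_union, Finset.mem_erase]
          constructor
          · rintro (⟨h1, h2 | h2⟩ | h2)
            · exact ⟨h1, Or.inl h2⟩
            · exact ⟨h1, Or.inr (Or.inl h2)⟩
            · exact ⟨fun h => hne (h ▸ h2), Or.inr (Or.inr h2)⟩
          · rintro ⟨h1, h2 | h2 | h2⟩
            · exact Or.inl ⟨h1, Or.inl h2⟩
            · exact Or.inl ⟨h1, Or.inr h2⟩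
            · exact Or.inr h2
        rw [e1]
        exact hA
      exact tor_cU hm (hts v hv) (htt v hv) (by rw [hlfw v hv]; exact hUF) hA'
    · intro v hv F _ hDF hA
      have k := tor_cD (c := c v) (m := m) (G := (w ∪ F).erase (pe N e)) (hts v hv)
        (by rw [hlfw v hv]; exact hDF) hA
      refine GR.mono ?_ k
      rw [Finset.coe_subset]
      intro a ha
      simp only [Finset.mem_sdiff, Finset.mem_erase, Finset.mem_union] at ha ⊢
      obtain ⟨⟨k1, k2⟩, k3⟩ := ha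
      refine ⟨k1, ?_⟩
      rcases k2 with k2 | k2
      · exact Or.inl k2
      · exact Or.inr ⟨k2, k3⟩
  calc Ex (fun _ => q) S0 (fun w => ∑ v ∈ C, ind (L4 ρ e (↑(lf N (bp e) ρ w) : Set Edg)) *
        Pr (fun _ => q) S1 (Bf (fun F => AA ts tt (pe N e) (w ∪ F)) (PB N (c v) m)))
      ≤ Ex (fun _ => q) S0 (fun w => ind (L4 ρ e (↑(lf N (bp e) ρ w) : Set Edg)) *
        (2 * (κ ^ 4)⁻¹ * Real.sqrt C.card)) := by
        apply Ex_mono hok
        intro w hw
        rw [← Finset.mul_sum]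
        exact mul_le_mul_of_nonneg_left (hmain w hw) (ind_nonneg _)
    _ = Pr (fun _ => q) S0 (fun w => L4 ρ e (↑(lf N (bp e) ρ w) : Set Edg)) *
        (2 * (κ ^ 4)⁻¹ * Real.sqrt C.card) := by
        rw [Ex_mul_right]
        rfl
    _ ≤ a4 q ρ * (2 * (κ ^ 4)⁻¹ * Real.sqrt C.card) := by
        have hc0 : 0 ≤ 2 * (κ ^ 4)⁻¹ * Real.sqrt C.card :=
          mul_nonneg (mul_nonneg zero_le_two (inv_nonneg.mpr hκ4.le)) (Real.sqrt_nonneg _)
        refine mul_le_mul_of_nonneg_right ?_ hc0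
        rw [hS0, pr_lf hρN (Finset.Subset.refl _) q (fun X => L4 ρ e (↑X : Set Edg))]
        exact pr_L4 h0 h1 (Finset.Subset.refl _)

end Circ

end Pool.Agent.W2helper75.AU
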