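import Pool.Agent.W2helper75.AU.Tor

/-!
The square torus: distances, local four-arm events, circuits around a block.
-/

set_option autoImplicit false

namespace Pool.Agent.W2helper75.AU

open H974 H973N H12S Finset

/-! ### distances -/

/-- Absolute value on the cyclic group. -/
def nd {N : ℕ} (x : ZMod N) : ℕ := x.valMinAbs.natAbs

/-- Distance of vertices of the torus. -/
def vd {N : ℕ} (u v : TV N) : ℕ := max (nd (u.1 - v.1)) (nd (u.2 - v.2))

section Dist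
variable {N : ℕ} [NeZero N]

theorem nd_neg (x : ZMod N) : nd (-x) = nd x := ZMod.natAbs_valMinAbs_neg x

theorem nd_cast_le (k : ℤ) : nd (k : ZMod N) ≤ k.natAbs := by
  unfold nd
  apply ZMod.natAbs_min_of_le_div_two N
  · rw [ZMod.coe_valMinAbs]
  · exact ZMod.natAbs_valMinAbs_le _

theorem nd_add (x y : ZMod N) : nd (x + y) ≤ nd x + nd y := by
  unfold nd
  refine (ZMod.natAbs_valMinAbs_add_le x y).trans ?_
  exact Int.natAbs_add_le _ _

theorem nd_one_le : nd (1 : ZMod N) ≤ 1 := by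
  have := nd_cast_le (N := N) 1
  simpa using this

theorem nd_zero : nd (0 : ZMod N) = 0 := by
  have := nd_cast_le (N := N) 0
  simpa using this

theorem vd_comm (u v : TV N) : vd u v = vd v u := by
  unfold vd
  rw [← nd_neg (u.1 - v.1), ← nd_neg (u.2 - v.2), neg_sub, neg_sub]

theorem vd_self (u : TV N) : vd u u = 0 := by
  unfold vd
  rw [sub_self, sub_self, nd_zero]
  rfl

theorem vd_tri (u v w : TV N) : vd u w ≤ vd u v + vd v w := by
  unfold vd
  have h1 := nd_add (u.1 - v.1) (v.1 - w.1)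
  have h2 := nd_add (u.2 - v.2) (v.2 - w.2)
  rw [sub_add_sub_cancel] at h1 h2
  omega

theorem vd_ts_tt (e : TE N) : vd (ts e) (tt e) ≤ 1 := by
  have h1 := nd_one_le (N := N)
  have h0 := nd_zero (N := N)
  obtain ⟨x, y, _ | _⟩ := e
  · unfold vd ts tt
    simp only [Bool.false_eq_true, if_false]
    rw [show x - x = 0 by ring, show y - (y + 1) = -1 by ring, nd_neg]
    omega
  · unfold vd ts tt
    simp only [if_true]
    rw [show y - y = 0 by ring, show x - (x + 1) = -1 by ring, nd_neg]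
    omega

theorem PB_vd {c : ℤ × ℤ} {ρ : ℕ} {a : TE N} (h : a ∈ PB N c ρ) :
    vd (pv N c) (ts a) ≤ ρ := by
  obtain ⟨g, hg, rfl⟩ := mem_PB.mp h
  have hb := blk_bounds hg
  have e1 : (pv N c).1 - (ts (pe N g)).1 = ((c.1 - g.1 : ℤ) : ZMod N) := by
    unfold pv ts pe
    push_cast
    rfl
  have e2 : (pv N c).2 - (ts (pe N g)).2 = ((c.2 - g.2.1 : ℤ) : ZMod N) := by
    unfold pv ts pe
    push_cast
    rfl
  unfold vd
  rw [e1, e2]
  have k1 := nd_cast_le (N := N) (c.1 - g.1)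
  have k2 := nd_cast_le (N := N) (c.2 - g.2.1)
  omega

theorem PB_of_vd {c : ℤ × ℤ} {ρ : ℕ} {a : TE N} (h : vd (pv N c) (ts a) + 1 ≤ ρ) :
    a ∈ PB N c ρ := by
  rw [mem_PB]
  refine ⟨(c.1 + (a.1 - (c.1 : ZMod N)).valMinAbs, c.2 + (a.2.1 - (c.2 : ZMod N)).valMinAbs,
    a.2.2), ?_, ?_⟩
  · rw [vd_comm] at h
    unfold vd nd ts pv at h
    simp only at h
    have h1 : (a.1 - (c.1 : ZMod N)).valMinAbs.natAbs + 1 ≤ ρ := by omega
    have h2 : (a.2.1 - (c.2 : ZMod N)).valMinAbs.natAbs + 1 ≤ ρ := by omega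
    unfold blk
    obtain ⟨a1, a2, _ | _⟩ := a
    · rw [mem_RE_false]
      simp only at h1 h2 ⊢
      omega
    · rw [mem_RE_true]
      simp only at h1 h2 ⊢
      omega
  · unfold pe
    simp

theorem vd_proj_lt {c : ℤ × ℤ} {x : Vtx} {ρ : ℕ} (h : |x.1 - c.1| < ρ ∧ |x.2 - c.2| < ρ) :
    vd (pv N c) (pv N x) < ρ := by
  have e1 : (pv N c).1 - (pv N x).1 = ((c.1 - x.1 : ℤ) : ZMod N) := by
    unfold pv
    push_cast
    rfl
  have e2 : (pv N c).2 - (pv N x).2 = ((c.2 - x.2 : ℤ) : ZMod N) := by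
    unfold pv
    push_cast
    rfl
  unfold vd
  rw [e1, e2]
  have k1 := nd_cast_le (N := N) (c.1 - x.1)
  have k2 := nd_cast_le (N := N) (c.2 - x.2)
  rw [abs_lt, abs_lt] at h
  omega

/-- A lift in the closed ball of a vertex which is not in the open ball. -/
theorem far_lift {c : ℤ × ℤ} {ρ : ℕ} {x : Vtx} {y : TV N} (hy : ρ ≤ vd (pv N c) y)
    (hx : pv N x = y) (hin : inR (c.1 - ρ) (c.1 + ρ) (c.2 - ρ) (c.2 + ρ) x) :
    x ∈ bdR (c.1 - ρ) (c.1 + ρ) (c.2 - ρ) (c.2 + ρ) := by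
  refine ⟨hin, ?_⟩
  by_contra hc
  push Not at hc
  unfold inR at hin
  have := vd_proj_lt (N := N) (c := c) (x := x) (ρ := ρ) (by
    rw [abs_lt, abs_lt]
    omega)
  rw [hx] at this
  omega

/-- A torus path from a ball to a vertex outside the open ball. -/
theorem texit' {c : ℤ × ℤ} {ρ : ℕ} {F : Finset (TE N)} {x : Vtx} {y : TV N}
    (hin : inR (c.1 - ρ) (c.1 + ρ) (c.2 - ρ) (c.2 + ρ) x)
    (h : GR ts tt (↑F : Set (TE N)) (pv N x) y) (hy : ρ ≤ vd (pv N c) y) :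
    ∃ w ∈ bdR (c.1 - ρ) (c.1 + ρ) (c.2 - ρ) (c.2 + ρ), Reach (↑(lf N c ρ F) : Set Edg) x w := by
  rcases texit h x rfl hin with ⟨w, hw, h1, _⟩ | ⟨y', h1, h2, h3⟩
  · exact ⟨w, hw, h1⟩
  · exact ⟨y', far_lift hy h2 h1, h3⟩

end Dist

/-! ### local four-arm events -/

section Loc
variable {N : ℕ} [NeZero N]

theorem self_blk {g : Edg} {ρ : ℕ} (hρ : 1 ≤ ρ) : g ∈ blk (bp g) ρ := by
  unfold blk bp
  obtain ⟨x, y, _ | _⟩ := g
  · rw [mem_RE_false]
    simp only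
    omega
  · rw [mem_RE_true]
    simp only
    omega

theorem tor_piv {ρ : ℕ} (hρ : 1 ≤ ρ) (hN : 2 * ρ < N) {e : TE N} {f : Edg}
    {F : Finset (TE N)} (hd : ρ < vd (ts (pe N f)) (ts e))
    (hp : Pf (AA ts tt e) (pe N f) F) : L4 ρ f (↑(lf N (bp f) ρ F) : Set Edg) := by
  have hts : ts (pe N f) = pv N (bp f) := rfl
  rw [hts] at hd
  have hd2 : ρ ≤ vd (pv N (bp f)) (tt e) := by
    have h1 := vd_tri (pv N (bp f)) (tt e) (ts e)
    have h2 := vd_ts_tt e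
    rw [vd_comm (tt e)] at h1
    omega
  have heB : e ∉ PB N (bp f) ρ := fun h => by
    have := PB_vd h
    omega
  have hfB : pe N f ∈ PB N (bp f) ρ := mem_PB.mpr ⟨f, self_blk hρ, rfl⟩
  have hef : e ≠ pe N f := fun h => heB (h ▸ hfB)
  obtain ⟨h1, h2⟩ := hp
  set η : Finset (TE N) := (F.erase e).erase (pe N f) with hη
  have e1 : (insert (pe N f) F).erase e = insert (pe N f) η := by
    rw [erase_insert_of_ne hef.symm, hη]
    ext x
    by_cases hx : x = pe N f <;> simp [hx]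
  have e2 : (F.erase (pe N f)).erase e = η := by
    rw [hη, erase_right_comm]
  unfold AA at h1 h2
  rw [e1, Finset.coe_insert] at h1
  rw [e2] at h2
  have hin1 : inR ((bp f).1 - ρ) ((bp f).1 + ρ) ((bp f).2 - ρ) ((bp f).2 + ρ) (src f) := by
    unfold inR bp
    obtain ⟨x, y, b⟩ := f
    simp only [src_mk]
    omega
  have hin2 : inR ((bp f).1 - ρ) ((bp f).1 + ρ) ((bp f).2 - ρ) ((bp f).2 + ρ) (tgt f) := by
    unfold inR bp
    obtain ⟨x, y, _ | _⟩ := f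
    · simp only [tgt_false]
      omega
    · simp only [tgt_true]
      omega
  have hs1 : ts (pe N f) = pv N (src f) := rfl
  have hs2 : tt (pe N f) = pv N (tgt f) := tt_pe N f
  rw [GR_insert] at h1
  -- the lift of `η`
  have hsub : (↑(lf N (bp f) ρ η) : Set Edg) ⊆
      ((↑(lf N (bp f) ρ F) : Set Edg) ∩ ↑(RE ((bp f).1 - ρ) ((bp f).1 + ρ) ((bp f).2 - ρ)
        ((bp f).2 + ρ))) \ {f} := by
    intro g hg
    rw [Finset.mem_coe, mem_lf, hη, Finset.mem_erase, Finset.mem_erase] at hg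
    refine ⟨⟨?_, hg.1⟩, ?_⟩
    · rw [Finset.mem_coe, mem_lf]
      exact ⟨hg.1, hg.2.2.2⟩
    · intro hgf
      rw [Set.mem_singleton_iff] at hgf
      exact hg.2.1 (by rw [hgf])
  have hback : ∀ g ∈ ((↑(lf N (bp f) ρ F) : Set Edg) ∩ ↑(RE ((bp f).1 - ρ) ((bp f).1 + ρ)
      ((bp f).2 - ρ) ((bp f).2 + ρ))) \ {f}, pe N g ∈ (↑η : Set (TE N)) := by
    intro g hg
    obtain ⟨⟨hg1, _⟩, hg3⟩ := hg
    rw [Finset.mem_coe, mem_lf] at hg1
    rw [Set.mem_singleton_iff] at hg3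
    rw [Finset.mem_coe, hη, Finset.mem_erase, Finset.mem_erase]
    refine ⟨fun h => hg3 (pe_inj hN hg1.1 (self_blk hρ) h), fun h => ?_, hg1.2⟩
    exact heB (h ▸ mem_PB.mpr ⟨g, hg1.1, rfl⟩)
  have ex1 : ∀ y : TV N, ρ ≤ vd (pv N (bp f)) y → GR ts tt (↑η : Set (TE N)) (ts (pe N f)) y →
      ∃ w ∈ bdR ((bp f).1 - ρ) ((bp f).1 + ρ) ((bp f).2 - ρ) ((bp f).2 + ρ),
        Reach (((↑(lf N (bp f) ρ F) : Set Edg) ∩ ↑(RE ((bp f).1 - ρ) ((bp f).1 + ρ)
        ((bp f).2 - ρ) ((bp f).2 + ρ))) \ {f}) (src f) w := by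
    intro y hy h
    rw [hs1] at h
    obtain ⟨w, hw, k⟩ := texit' hin1 h hy
    exact ⟨w, hw, k.mono hsub⟩
  have ex2 : ∀ y : TV N, ρ ≤ vd (pv N (bp f)) y → GR ts tt (↑η : Set (TE N)) (tt (pe N f)) y →
      ∃ w ∈ bdR ((bp f).1 - ρ) ((bp f).1 + ρ) ((bp f).2 - ρ) ((bp f).2 + ρ),
        Reach (((↑(lf N (bp f) ρ F) : Set Edg) ∩ ↑(RE ((bp f).1 - ρ) ((bp f).1 + ρ)
        ((bp f).2 - ρ) ((bp f).2 + ρ))) \ {f}) (tgt f) w := by
    intro y hy h
    rw [hs2] at h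
    obtain ⟨w, hw, k⟩ := texit' hin2 h hy
    exact ⟨w, hw, k.mono hsub⟩
  have sep : ¬ GR ts tt (↑η : Set (TE N)) (ts (pe N f)) (tt (pe N f)) →
      ¬ Reach (((↑(lf N (bp f) ρ F) : Set Edg) ∩ ↑(RE ((bp f).1 - ρ) ((bp f).1 + ρ)
        ((bp f).2 - ρ) ((bp f).2 + ρ))) \ {f}) (src f) (tgt f) := by
    intro h h'
    apply h
    rw [hs1, hs2]
    exact reach_proj hback h'
  rcases h1 with h1 | ⟨h1, h3⟩ | ⟨h1, h3⟩
  · exact absurd h1 h2
  · refine ⟨ex1 _ hd.le h1.symm, ex2 _ hd2 h3, sep fun h => h2 (h1.trans (h.trans h3))⟩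
  · refine ⟨ex1 _ hd2 h3, ex2 _ hd.le h1.symm, sep fun h => h2 (h1.trans (h.symm.trans h3))⟩

/-- The local four-arm event from the three-edge event. -/
theorem T3_L4 {ρ : ℕ} (hρ : 1 ≤ ρ) (hN : 2 * ρ < N) {e g : TE N} {f : Edg}
    {F : Finset (TE N)} (hd : ρ < vd (ts (pe N f)) (ts e)) (hd' : ρ < vd (ts (pe N f)) (ts g))
    (heg : e ≠ g) (h : T3 ts tt e (pe N f) g F) : L4 ρ f (↑(lf N (bp f) ρ F) : Set Edg) := by
  have hgB : g ∉ PB N (bp f) ρ := fun h => by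
    have := PB_vd h
    have hts : ts (pe N f) = pv N (bp f) := rfl
    rw [hts] at hd'
    omega
  have hef : e ≠ pe N f := fun h => by
    rw [h, vd_self] at hd
    omega
  have hfg : pe N f ≠ g := fun h => by
    rw [h, vd_self] at hd'
    omega
  obtain ⟨_, _, h3⟩ := T3_imp hef heg hfg h
  rcases h3 with h3 | h3
  · have := tor_piv hρ hN hd h3
    rwa [lf_congr (G := F)] at this
    intro a ha
    rw [Finset.mem_insert]
    constructor
    · rintro (h | h)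
      · exact absurd (h ▸ ha) hgB
      · exact h
    · exact Or.inr
  · have := tor_piv hρ hN hd h3
    rwa [lf_congr (G := F)] at this
    intro a ha
    rw [Finset.mem_erase]
    constructor
    · exact fun h => h.2
    · exact fun h => ⟨fun h' => hgB (h' ▸ ha), h⟩

end Loc

end Pool.Agent.W2helper75.AU
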