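import Pool.Agent.W2helper75.AU.TorC
import Pool.Agent.H12R2.Sep.Key1

/-!
The three-edge event on the torus: invariance and bounds.
-/

set_option autoImplicit false

namespace Pool.Agent.W2helper75.AU

open H974 H973N H12S Finset

/-! ### invariance -/

section Inv
variable {E V : Type*} {s t : E → V}

theorem GR_equiv_aux (σ : E → E) (ν : V → V) (hs : ∀ e, s (σ e) = ν (s e))
    (ht : ∀ e, t (σ e) = ν (t e)) {F : Set E} {u w : V} (h : GR s t F u w) :
    GR s t (σ '' F) (ν u) (ν w) := by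
  induction h with
  | refl => exact GR.refl _ _
  | @tail w w' _ hst ih =>
    obtain ⟨g, hg, hc⟩ := hst
    refine ih.trans (GAdj.gr ⟨σ g, ⟨g, hg, rfl⟩, ?_⟩)
    rw [hs, ht]
    rcases hc with ⟨h1, h2⟩ | ⟨h1, h2⟩
    · left; rw [h1, h2]; exact ⟨rfl, rfl⟩
    · right; rw [h1, h2]; exact ⟨rfl, rfl⟩

theorem GR_equiv (σ : E ≃ E) (ν : V ≃ V) (hs : ∀ e, s (σ e) = ν (s e))
    (ht : ∀ e, t (σ e) = ν (t e)) {F : Set E} {u w : V} :
    GR s t (σ '' F) (ν u) (ν w) ↔ GR s t F u w := by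
  constructor
  · intro h
    have h2 := GR_equiv_aux (s := s) (t := t) σ.symm ν.symm
      (fun e => by rw [Equiv.eq_symm_apply, ← hs, Equiv.apply_symm_apply])
      (fun e => by rw [Equiv.eq_symm_apply, ← ht, Equiv.apply_symm_apply]) h
    rwa [Equiv.symm_apply_apply, Equiv.symm_apply_apply, ← Set.image_comp,
      Equiv.symm_comp_self, Set.image_id] at h2
  · exact GR_equiv_aux σ ν hs ht

theorem nc_equiv (σ : E ≃ E) (ν : V ≃ V) (hs : ∀ e, s (σ e) = ν (s e))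
    (ht : ∀ e, t (σ e) = ν (t e)) (F : Set E) : nc s t (σ '' F) = nc s t F := by
  unfold nc
  symm
  apply Nat.card_congr
  exact Quotient.congr (ra := gset s t F) (rb := gset s t (σ '' F)) ν
    (fun a b => (GR_equiv σ ν hs ht).symm)

variable [DecidableEq E]

theorem kk_equiv (σ : E ≃ E) (ν : V ≃ V) (hs : ∀ e, s (σ e) = ν (s e))
    (ht : ∀ e, t (σ e) = ν (t e)) (F : Finset E) :
    kk s t (F.map σ.toEmbedding) = kk s t F := by
  unfold kk
  rw [Finset.coe_map]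
  exact congrArg _ (nc_equiv σ ν hs ht _)

theorem dd_map (σ : E ≃ E) (e : E) (φ : Finset E → ℝ) (F : Finset E) :
    dd (σ e) φ (F.map σ.toEmbedding) = dd e (fun F => φ (F.map σ.toEmbedding)) F := by
  unfold dd
  have e1 : insert (σ e) (F.map σ.toEmbedding) = (insert e F).map σ.toEmbedding := by
    rw [Finset.map_insert]; rfl
  have e2 : (F.map σ.toEmbedding).erase (σ e) = (F.erase e).map σ.toEmbedding := by
    rw [Finset.map_erase]; rfl
  rw [e1, e2]

theorem T3_map (σ : E ≃ E) (ν : V ≃ V) (hs : ∀ e, s (σ e) = ν (s e))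
    (ht : ∀ e, t (σ e) = ν (t e)) (e f g : E) (F : Finset E) :
    T3 s t (σ e) (σ f) (σ g) (F.map σ.toEmbedding) ↔ T3 s t e f g F := by
  unfold T3
  rw [dd_map]
  have h1 : ∀ F : Finset E, dd (σ f) (dd (σ g) (kk s t)) (F.map σ.toEmbedding) =
      dd f (dd g (kk s t)) F := by
    intro F
    rw [dd_map]
    apply dd_congr
    intro F
    rw [dd_map]
    apply dd_congr
    intro F
    exact kk_equiv σ ν hs ht F
  rw [dd_congr h1]

theorem AA_map (σ : E ≃ E) (ν : V ≃ V) (hs : ∀ e, s (σ e) = ν (s e))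
    (ht : ∀ e, t (σ e) = ν (t e)) (e : E) (F : Finset E) :
    AA s t (σ e) (F.map σ.toEmbedding) ↔ AA s t e F := by
  unfold AA
  have e2 : (F.map σ.toEmbedding).erase (σ e) = (F.erase e).map σ.toEmbedding := by
    rw [Finset.map_erase]; rfl
  rw [e2, Finset.coe_map, hs, ht]
  exact GR_equiv σ ν hs ht

theorem Pr_univ_map [Fintype E] (q : ℝ) (σ : E ≃ E) (X : Finset E → Prop) :
    Pr (fun _ => q) (Finset.univ : Finset E) X =
      Pr (fun _ => q) (Finset.univ : Finset E) (fun F => X (F.map σ.toEmbedding)) := by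
  unfold Pr
  have h := Ex_map (fun _ : E => q) σ.toEmbedding (Finset.univ : Finset E) (fun F => ind (X F))
  rw [Finset.map_univ_equiv] at h
  exact h

end Inv

/-! ### the torus -/

/-- Translation of the edges. -/
def sh {N : ℕ} (v : TV N) : TE N ≃ TE N where
  toFun e := (e.1 + v.1, e.2.1 + v.2, e.2.2)
  invFun e := (e.1 - v.1, e.2.1 - v.2, e.2.2)
  left_inv e := by simp
  right_inv e := by simp

/-- Translation of the vertices. -/
def shv {N : ℕ} (v : TV N) : TV N ≃ TV N := Equiv.addRight v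

theorem sh_ts {N : ℕ} (v : TV N) (e : TE N) : ts (sh v e) = shv v (ts e) := rfl

theorem sh_tt {N : ℕ} (v : TV N) (e : TE N) : tt (sh v e) = shv v (tt e) := by
  obtain ⟨x, y, _ | _⟩ := e
  · show tt (x + v.1, y + v.2, false) = tt (x, y, false) + v
    unfold tt
    simp only [Bool.false_eq_true, if_false]
    ext
    · rfl
    · simp only [Prod.snd_add]; ring
  · show tt (x + v.1, y + v.2, true) = tt (x, y, true) + v
    unfold tt
    simp only [if_true]
    ext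
    · simp only [Prod.fst_add]; ring
    · rfl

section Tor
variable {N : ℕ} [NeZero N]

/-- Probability of the three-edge event. -/
noncomputable def P3 (q : ℝ) (e f g : TE N) : ℝ :=
  Pr (fun _ => q) (Finset.univ : Finset (TE N)) (T3 ts tt e f g)

theorem P3_nonneg {q : ℝ} (h0 : 0 ≤ q) (h1 : q ≤ 1) (e f g : TE N) : 0 ≤ P3 q e f g :=
  Pr_nonneg (fun _ => ⟨h0, h1⟩) _ _

theorem P3_shift (q : ℝ) (v : TV N) (e f g : TE N) :
    P3 q (sh v e) (sh v f) (sh v g) = P3 q e f g := by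
  unfold P3
  rw [Pr_univ_map q (sh v)]
  apply Pr_congr
  intro F _
  exact T3_map (sh v) (shv v) (sh_ts v) (sh_tt v) e f g F

theorem P3_swap12 {q : ℝ} {e f : TE N} (h : e ≠ f) (g : TE N) : P3 q e f g = P3 q f e g :=
  Pr_congr fun F _ => T3_swap12 h F

theorem P3_swap23 {q : ℝ} (e : TE N) {f g : TE N} (h : f ≠ g) : P3 q e f g = P3 q e g f :=
  Pr_congr fun F _ => T3_swap23 h F

/-- Lift of a vertex. -/
def lv (v : TV N) : Vtx := (v.1.valMinAbs, v.2.valMinAbs)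

/-- Lift of an edge. -/
def le' (f : TE N) : Edg := (f.1.valMinAbs, f.2.1.valMinAbs, f.2.2)

theorem pv_lv (v : TV N) : pv N (lv v) = v := by
  unfold pv lv
  simp

theorem pe_le (f : TE N) : pe N (le' f) = f := by
  unfold pe le'
  simp

theorem bp_le (f : TE N) : bp (le' f) = lv (ts f) := rfl

/-- Ball around a vertex. -/
noncomputable def BL (v : TV N) (ρ : ℕ) : Finset (TE N) := PB N (lv v) ρ

/-- Local four-arm event at `f`. -/
def LL (ρ : ℕ) (f : TE N) (F : Finset (TE N)) : Prop :=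
  L4 ρ (le' f) (↑(lf N (bp (le' f)) ρ F) : Set Edg)

theorem LL_local (ρ : ℕ) (f : TE N) {S : Finset (TE N)} (hS : BL (ts f) ρ ⊆ S)
    (F : Finset (TE N)) : LL ρ f F ↔ LL ρ f (F ∩ S) := by
  unfold LL
  rw [bp_le]
  rw [lf_inter (c := lv (ts f)) hS]

theorem pr_LL {q : ℝ} (h0 : 0 ≤ q) (h1 : q ≤ 1) {ρ : ℕ} (hN : 2 * ρ < N) (f : TE N) :
    Pr (fun _ => q) (Finset.univ : Finset (TE N)) (LL ρ f) ≤ a4 q ρ := by
  have := pr_lf (N := N) (c := bp (le' f)) hN (Finset.subset_univ _) q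
    (fun X => L4 ρ (le' f) (↑X : Set Edg))
  unfold LL
  rw [this]
  exact pr_L4 h0 h1 (Finset.Subset.refl _)

theorem BL_vd {v : TV N} {ρ : ℕ} {a : TE N} (h : a ∈ BL v ρ) : vd v (ts a) ≤ ρ := by
  have := PB_vd h
  rwa [pv_lv] at this

theorem BL_of_vd {v : TV N} {ρ : ℕ} {a : TE N} (h : vd v (ts a) + 1 ≤ ρ) : a ∈ BL v ρ := by
  apply PB_of_vd
  rwa [pv_lv]

theorem BL_disj {v v' : TV N} {m m' : ℕ} (h : m + m' < vd v v') :
    Disjoint (BL v m) (BL v' m') := by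
  apply PB_disj
  rwa [pv_lv, pv_lv]

theorem BL_sub {v v' : TV N} {m m' : ℕ} (h : vd v v' + m + 1 ≤ m') : BL v' m ⊆ BL v m' := by
  intro a ha
  apply BL_of_vd
  have h1 := BL_vd ha
  have h2 := vd_tri v v' (ts a)
  omega

/-- The three local events. -/
theorem T3_LL {ρ : ℕ} (hρ : 1 ≤ ρ) (hN : 2 * ρ < N) {e f g : TE N} {F : Finset (TE N)}
    (hd : ρ < vd (ts f) (ts e)) (hd' : ρ < vd (ts f) (ts g)) (heg : e ≠ g)
    (h : T3 ts tt e f g F) : LL ρ f F := by
  unfold LL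
  have hf := pe_le f
  rw [← hf] at h hd hd'
  exact T3_L4 hρ hN hd hd' heg h

theorem ne_of_vd {e f : TE N} {ρ : ℕ} (h : ρ < vd (ts e) (ts f)) : e ≠ f := by
  rintro rfl
  rw [vd_self] at h
  omega

theorem Pr_and_le {q : ℝ} (h0 : 0 ≤ q) (h1 : q ≤ 1) {ρ : ℕ} (hN : 2 * ρ < N) {f : TE N}
    {X : Finset (TE N) → Prop}
    (hX : ∀ F : Finset (TE N), X F ↔ X (F ∩ (Finset.univ \ BL (ts f) ρ))) :
    Pr (fun _ => q) (Finset.univ : Finset (TE N)) (fun F => LL ρ f F ∧ X F) ≤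
      a4 q ρ * Pr (fun _ => q) (Finset.univ : Finset (TE N)) X := by
  have hok : Ok (fun _ : TE N => q) := fun _ => ⟨h0, h1⟩
  rw [Pr_indep (A := LL ρ f) (B := X) (S := BL (ts f) ρ) (T := Finset.univ \ BL (ts f) ρ)
    (Finset.subset_univ _) (Finset.subset_univ _) Finset.disjoint_sdiff
    (fun F _ => LL_local ρ f (Finset.Subset.refl _) F) (fun F _ => hX F)]
  exact mul_le_mul_of_nonneg_right (pr_LL h0 h1 hN f) (Pr_nonneg hok _ _)

theorem BL_sub_compl {v v' : TV N} {m m' : ℕ} (h : m + m' < vd v v') :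
    BL v m ⊆ Finset.univ \ BL v' m' := by
  intro a ha
  rw [Finset.mem_sdiff]
  exact ⟨Finset.mem_univ _, Finset.disjoint_left.mp (BL_disj h) ha⟩

/-- Comparable distances. -/
theorem P3_comp {q : ℝ} (h0 : 0 ≤ q) (h1 : q ≤ 1) {ρ : ℕ} (hρ : 1 ≤ ρ) (hN : 2 * ρ < N)
    {e f g : TE N} (hef : 2 * ρ < vd (ts e) (ts f)) (heg : 2 * ρ < vd (ts e) (ts g))
    (hfg : 2 * ρ < vd (ts f) (ts g)) : P3 q e f g ≤ (a4 q ρ) ^ 3 := by
  have hok : Ok (fun _ : TE N => q) := fun _ => ⟨h0, h1⟩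
  have nef := ne_of_vd hef
  have neg' := ne_of_vd heg
  have nfg := ne_of_vd hfg
  have k1 : P3 q e f g ≤ Pr (fun _ => q) (Finset.univ : Finset (TE N))
      (fun F => LL ρ e F ∧ (LL ρ f F ∧ LL ρ g F)) := by
    apply Pr_mono hok
    intro F _ h
    refine ⟨?_, ?_, ?_⟩
    · exact T3_LL (e := f) hρ hN (by omega) (by omega) nfg ((T3_swap12 nef F).mp h)
    · exact T3_LL hρ hN (by rw [vd_comm]; omega) (by omega) neg' h
    · exact T3_LL hρ hN (by rw [vd_comm]; omega) (by rw [vd_comm]; omega) nef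
        ((T3_swap23 nfg F).mp h)
  have hg2 : ∀ F : Finset (TE N), LL ρ g F ↔ LL ρ g (F ∩ (Finset.univ \ BL (ts f) ρ)) :=
    fun F => LL_local ρ g (BL_sub_compl (by rw [vd_comm]; omega)) F
  have hf1 : ∀ F : Finset (TE N), LL ρ f F ↔ LL ρ f (F ∩ (Finset.univ \ BL (ts e) ρ)) :=
    fun F => LL_local ρ f (BL_sub_compl (by rw [vd_comm]; omega)) F
  have hg1 : ∀ F : Finset (TE N), LL ρ g F ↔ LL ρ g (F ∩ (Finset.univ \ BL (ts e) ρ)) :=
    fun F => LL_local ρ g (BL_sub_compl (by rw [vd_comm]; omega)) F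
  have k2 := Pr_and_le h0 h1 hN (f := e) (X := fun F => LL ρ f F ∧ LL ρ g F)
    (fun F => and_congr (hf1 F) (hg1 F))
  have k3 := Pr_and_le h0 h1 hN (f := f) (X := LL ρ g) hg2
  have k4 := pr_LL h0 h1 hN g
  have ha := a4_nonneg h0 h1 ρ
  calc P3 q e f g ≤ _ := k1
    _ ≤ _ := k2
    _ ≤ a4 q ρ * (a4 q ρ * a4 q ρ) := by
        apply mul_le_mul_of_nonneg_left _ ha
        exact k3.trans (mul_le_mul_of_nonneg_left k4 ha)
    _ = (a4 q ρ) ^ 3 := by ring

/-- The event of the far edge and the block. -/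
noncomputable def GG' (q : ℝ) (e : TE N) (ρ' m : ℕ) (v : TV N) : ℝ :=
  Pr (fun _ => q) (Finset.univ : Finset (TE N))
    (fun F => LL ρ' e F ∧ Bf (AA ts tt e) (BL v m) F)

/-- A pair of edges in a block, far from the third edge (no local events at the pair). -/
theorem P3_near0 {q : ℝ} (h0 : 0 ≤ q) (h1 : q ≤ 1) {ρ' m : ℕ} (hρ' : 1 ≤ ρ')
    (hN' : 2 * ρ' < N) {e f g : TE N} {v : TV N} (hf : f ∈ BL v m) (hg : g ∈ BL v m)
    (hef : ρ' < vd (ts e) (ts f)) (heg : ρ' < vd (ts e) (ts g)) (hfg : f ≠ g) :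
    P3 q e f g ≤ GG' q e ρ' m v := by
  have hok : Ok (fun _ : TE N => q) := fun _ => ⟨h0, h1⟩
  have nef := ne_of_vd hef
  have neg' := ne_of_vd heg
  apply Pr_mono hok
  intro F _ h
  exact ⟨T3_LL (e := f) hρ' hN' hef heg hfg ((T3_swap12 nef F).mp h), T3_Bf nef neg' hfg hf hg h⟩

theorem Bf_loc {A : Finset (TE N) → Prop} {b S : Finset (TE N)} (hb : b ∪ S = Finset.univ)
    (F : Finset (TE N)) : Bf A b F ↔ Bf A b (F ∩ S) := by
  have hS : ∀ x, x ∉ b → x ∈ S := by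
    intro x hx
    have : x ∈ b ∪ S := by rw [hb]; exact Finset.mem_univ _
    rcases Finset.mem_union.mp this with h | h
    · exact absurd h hx
    · exact h
  have e1 : F ∩ S ∪ b = F ∪ b := by
    ext x
    simp only [Finset.mem_union, Finset.mem_inter]
    constructor
    · rintro (h | h)
      · exact Or.inl h.1
      · exact Or.inr h
    · rintro (h | h)
      · by_cases hx : x ∈ b
        · exact Or.inr hx
        · exact Or.inl ⟨h, hS x hx⟩
      · exact Or.inr h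
  have e2 : (F ∩ S) \ b = F \ b := by
    ext x
    simp only [Finset.mem_inter, Finset.mem_sdiff]
    constructor
    · rintro ⟨h, h'⟩
      exact ⟨h.1, h'⟩
    · rintro ⟨h, h'⟩
      exact ⟨⟨h, hS x h'⟩, h'⟩
  unfold Bf
  rw [e1, e2]

/-- A pair of edges in a block, far from the third edge. -/
theorem P3_near {q : ℝ} (h0 : 0 ≤ q) (h1 : q ≤ 1) {ρ ρ' m : ℕ} (hρ : 1 ≤ ρ) (hN : 2 * ρ < N)
    (hρ' : 1 ≤ ρ') (hN' : 2 * ρ' < N) {e f g : TE N} {v : TV N}
    (hf : f ∈ BL v m) (hg : g ∈ BL v m) (hfB : BL (ts f) ρ ⊆ BL v m)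
    (hgB : BL (ts g) ρ ⊆ BL v m) (heB : ρ' + m < vd (ts e) v)
    (hef : ρ' < vd (ts e) (ts f)) (heg : ρ' < vd (ts e) (ts g))
    (hfg : 2 * ρ < vd (ts f) (ts g)) (hef2 : ρ < vd (ts e) (ts f))
    (heg2 : ρ < vd (ts e) (ts g)) :
    P3 q e f g ≤ (a4 q ρ) ^ 2 * GG' q e ρ' m v := by
  have hok : Ok (fun _ : TE N => q) := fun _ => ⟨h0, h1⟩
  have nef := ne_of_vd hef
  have neg' := ne_of_vd heg
  have nfg := ne_of_vd hfg
  have k1 : P3 q e f g ≤ Pr (fun _ => q) (Finset.univ : Finset (TE N))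
      (fun F => LL ρ f F ∧ (LL ρ g F ∧ (LL ρ' e F ∧ Bf (AA ts tt e) (BL v m) F))) := by
    apply Pr_mono hok
    intro F _ h
    refine ⟨?_, ?_, ?_, ?_⟩
    · exact T3_LL hρ hN (by rw [vd_comm]; omega) (by omega) neg' h
    · exact T3_LL hρ hN (by rw [vd_comm]; omega) (by rw [vd_comm]; omega) nef
        ((T3_swap23 nfg F).mp h)
    · exact T3_LL (e := f) hρ' hN' hef heg nfg ((T3_swap12 nef F).mp h)
    · exact T3_Bf nef neg' nfg hf hg h
  have hdisE : Disjoint (BL (ts e) ρ') (BL v m) := BL_disj heB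
  have hloc : ∀ x : TE N, BL (ts x) ρ ⊆ BL v m → ∀ F : Finset (TE N),
      (LL ρ' e F ∧ Bf (AA ts tt e) (BL v m) F) ↔
      (LL ρ' e (F ∩ (Finset.univ \ BL (ts x) ρ)) ∧
        Bf (AA ts tt e) (BL v m) (F ∩ (Finset.univ \ BL (ts x) ρ))) := by
    intro x hx F
    apply and_congr
    · apply LL_local
      intro a ha
      rw [Finset.mem_sdiff]
      exact ⟨Finset.mem_univ _, fun h => Finset.disjoint_left.mp hdisE ha (hx h)⟩
    · apply Bf_loc
      ext a
      simp only [Finset.mem_union, Finset.mem_sdiff, Finset.mem_univ, true_and, iff_true]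
      by_cases ha : a ∈ BL (ts x) ρ
      · exact Or.inl (hx ha)
      · exact Or.inr ha
  have hgf : ∀ F : Finset (TE N), LL ρ g F ↔ LL ρ g (F ∩ (Finset.univ \ BL (ts f) ρ)) :=
    fun F => LL_local ρ g (BL_sub_compl (by rw [vd_comm]; omega)) F
  have k2 := Pr_and_le h0 h1 hN (f := f)
    (X := fun F => LL ρ g F ∧ (LL ρ' e F ∧ Bf (AA ts tt e) (BL v m) F))
    (fun F => and_congr (hgf F) (hloc f hfB F))
  have k3 := Pr_and_le h0 h1 hN (f := g)
    (X := fun F => LL ρ' e F ∧ Bf (AA ts tt e) (BL v m) F) (hloc g hgB)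
  have ha := a4_nonneg h0 h1 ρ
  calc P3 q e f g ≤ _ := k1
    _ ≤ _ := k2
    _ ≤ a4 q ρ * (a4 q ρ * GG' q e ρ' m v) := mul_le_mul_of_nonneg_left k3 ha
    _ = (a4 q ρ) ^ 2 * GG' q e ρ' m v := by ring

end Tor

end Pool.Agent.W2helper75.AU
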