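import Pool.Agent.W2helper75.AU.Sum
import Pool.Agent.W2helper75.AU.Cmp
import Pool.Agent.W2helper75.AU.Lan
import Pool.Agent.W424.NC.NearC

/-!
The connection probability off an edge: infinite volume limit and expansion at `1/2`.
-/

set_option autoImplicit false

namespace Pool.Agent.W2helper75.AU

open H974 H973N H12S Finset Filter Topology

/-- The fourth root of `2`. -/
noncomputable def rr : ℝ := (2:ℝ) ^ (1/4 : ℝ)

theorem rr4 : rr ^ 4 = 2 := by
  unfold rr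
  rw [← Real.rpow_natCast, ← Real.rpow_mul (by norm_num)]
  norm_num

theorem rr1 : 1 < rr := by
  unfold rr
  exact Real.one_lt_rpow (by norm_num) (by norm_num)

theorem rr_pow (J k : ℕ) : (((2 ^ J : ℕ) : ℝ)) ^ (-((k:ℝ) / 4)) = (rr⁻¹) ^ (k * J) := by
  have h0 : 0 < rr := by linarith [rr1]
  have e1 : (((2 ^ J : ℕ) : ℝ)) = rr ^ (4 * J) := by
    push_cast
    rw [pow_mul, rr4]
  rw [e1, ← Real.rpow_natCast rr (4 * J), ← Real.rpow_mul h0.le, inv_pow, ← Real.rpow_natCast rr,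
    ← Real.rpow_neg h0.le]
  congr 1
  push_cast
  ring

/-- The near-critical inputs. -/
theorem scale : ∃ κ b C : ℝ, 0 < b ∧ 1 ≤ C ∧ ∀ (J : ℕ) (q : ℝ),
    |q - 1/2| ≤ b * (rr⁻¹) ^ (3 * J) → Sc q κ C rr J := by
  obtain ⟨κ, b, c, C, _, hb, _, hC, h⟩ := Pool.Agent.W424.NC.nearS
  refine ⟨κ, b, max C 1, hb, le_max_right _ _, ?_⟩
  intro J q hq
  have h1 : |q - 1/2| ≤ b * (((2 ^ J : ℕ) : ℝ)) ^ (-(3/4 : ℝ)) := by
    have := rr_pow J 3
    push_cast at this ⊢
    rw [this]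
    exact hq
  obtain ⟨hW, ha⟩ := h (2 ^ J) Nat.one_le_two_pow q h1
  refine ⟨hW, ?_, rr4, rr1, le_max_right _ _⟩
  intro j hj
  have h2 := (ha (2 ^ j) Nat.one_le_two_pow (Nat.pow_le_pow_right (by norm_num) hj)).2
  have e := rr_pow j 5
  push_cast at e h2
  rw [e] at h2
  have h0 : 0 < rr := by linarith [rr1]
  refine h2.trans (mul_le_mul_of_nonneg_right (le_max_left _ _) ?_)
  positivity

/-! ### infinite volume -/

theorem hT_hT {N N' : ℕ} [NeZero N] [NeZero N'] {m : ℕ} (hm : 1 ≤ m) (h : 2 * m < N)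
    (h' : 2 * m < N') {q : ℝ} (h0 : 0 ≤ q) (h1 : q ≤ 1) :
    |hT N true q - hT N' true q| ≤ a4b q m true := by
  have k1 := hT_cmp (N := N) hm h true h0 h1
  have k2 := hT_cmp (N := N') hm h' true h0 h1
  rw [abs_le]
  constructor <;> linarith [k1.1, k1.2, k2.1, k2.2]

/-- Torus of side `n + 1`. -/
noncomputable def hn (n : ℕ) (q : ℝ) : ℝ := hT (n + 1) true q

/-- Infinite volume limit. -/
noncomputable def hI (q : ℝ) : ℝ := limUnder atTop (fun n => hn n q)

theorem arm_tend : Tendsto (fun m : ℕ => arm (1/2) m) atTop (𝓝 0) := by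
  obtain ⟨c, C, _, hC, h⟩ := Pool.Agent.W424.NC.arm_crit
  have h2 : Tendsto (fun m : ℕ => C * (m:ℝ) ^ (-(5/48) : ℝ)) atTop (𝓝 (C * 0)) := by
    apply Tendsto.const_mul
    exact (tendsto_rpow_neg_atTop (by norm_num)).comp tendsto_natCast_atTop_atTop
  rw [mul_zero] at h2
  refine squeeze_zero' (Eventually.of_forall fun m => arm_nonneg (by norm_num) (by norm_num) m) ?_ h2
  filter_upwards [eventually_ge_atTop 1] with m hm
  exact (h m hm).2

theorem hn_tend {q : ℝ} (h0 : 0 ≤ q) (h1 : q ≤ 1) : Tendsto (fun n => hn n q) atTop (𝓝 (hI q)) := by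
  have hc : CauchySeq (fun n => hn n q) := by
    rw [Metric.cauchySeq_iff']
    intro ε hε
    obtain ⟨m, hm1, hm2⟩ := ((arm_tend.eventually (gt_mem_nhds hε)).and
      (eventually_ge_atTop 1)).exists
    refine ⟨2 * m, fun n hn' => ?_⟩
    rw [Real.dist_eq]
    have := hT_hT (N := n + 1) (N' := 2 * m + 1) hm2 (by omega) (by omega) h0 h1
    exact lt_of_le_of_lt (this.trans (a4b_le_half h0 h1 hm2 true)) hm1
  exact hc.tendsto_limUnder

theorem hT_hI {N : ℕ} [NeZero N] {m : ℕ} (hm : 1 ≤ m) (h : 2 * m < N) {q : ℝ} (h0 : 0 ≤ q)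
    (h1 : q ≤ 1) : |hI q - hT N true q| ≤ a4b q m true := by
  have ht : Tendsto (fun n => |hn n q - hT N true q|) atTop (𝓝 (|hI q - hT N true q|)) :=
    ((hn_tend h0 h1).sub_const _).abs
  refine le_of_tendsto ht ?_
  filter_upwards [eventually_ge_atTop (2 * m)] with n hn'
  exact hT_hT hm (by omega) h h0 h1

theorem hI_unif {m : ℕ} (hm : 1 ≤ m) {n : ℕ} (h : 2 * m < n + 1) {q : ℝ} (h0 : 0 ≤ q)
    (h1 : q ≤ 1) : |hI q - hn n q| ≤ arm (1/2) m :=
  (hT_hI hm h h0 h1).trans (a4b_le_half h0 h1 hm true)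

/-! ### expansion at the critical point -/

theorem torus_deriv (J : ℕ) : ∃ D1 D2 : ℝ → ℝ,
    (∀ q, HasDerivAt (fun q => hT (2 ^ J) true q) (D1 q) q) ∧ (∀ q, HasDerivAt D1 (D2 q) q) ∧
    ∀ (q κ C : ℝ), 0 < J → Sc q κ C rr J → |D2 q| ≤ 6 * cW κ C rr * rr ^ J := by
  classical
  obtain ⟨D1, D2, h1, h2, h3⟩ := deriv_AA (s := ts) (t := tt)
    (Finset.univ : Finset (TE (2 ^ J))) (Finset.mem_univ (((0, 0, true) : TE (2 ^ J))))
  refine ⟨D1, D2, h1, h2, ?_⟩
  intro q κ C hJ hS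
  refine (h3 q hS.q0 hS.q1).trans ?_
  refine le_trans (le_of_eq ?_) (H_bound hS hJ (((0, 0, true) : TE (2 ^ J))))
  rw [← sum_ind_mem]
  apply Finset.sum_congr rfl
  intro f _
  rw [← sum_ind_mem, Finset.mul_sum]
  apply Finset.sum_congr rfl
  intro g _
  rw [← mul_assoc, ← ind_and]
  congr 1
  apply ind_congr
  simp only [Finset.mem_erase, Finset.mem_univ, and_true, ne_eq]
  unfold Ds
  constructor
  · rintro ⟨k1, k2, k3⟩
    exact ⟨fun h => k1 h.symm, fun h => k3 h.symm, fun h => k2 h.symm⟩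
  · rintro ⟨k1, k2, k3⟩
    exact ⟨fun h => k1 h.symm, fun h => k3 h.symm, fun h => k2 h.symm⟩

/-- **Expansion** of the connection probability off an edge at the critical point. -/
theorem hI_expand : ∃ L C δ : ℝ, 0 < C ∧ 0 < δ ∧ ∀ q, |q - 1/2| ≤ δ →
    |hI q - hI (1/2) - L * (q - 1/2)| ≤ C * |q - 1/2| ^ (5 / 3 : ℝ) := by
  obtain ⟨κ, b, C, hb, hC, hsc⟩ := scale
  choose D1 D2 h1 h2 h3 using torus_deriv
  have hr0 : 0 < rr := by linarith [rr1]
  have hκ4 : 0 < κ ^ 4 := by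
    have := (hsc 0 (1/2) (by rw [sub_self, abs_zero]; positivity)).win.kpos
    positivity
  have hcW : 0 ≤ cW κ C rr := by
    have h4 : 0 < rr - 1 := by linarith [rr1]
    have h5 : 0 < rr ^ 2 - 1 := by nlinarith [rr1]
    unfold cW
    positivity
  obtain ⟨L, C', hC', h⟩ := landau (h := hI) (f := fun J q => hT (2 ^ J) true q) (D1 := D1)
    (D2 := D2) (r := rr) (b := b) (A := C * rr ^ 10) (B := 6 * cW κ C rr) (J0 := 2) rr1 hb
    (by positivity) (by positivity) (fun J _ q => h1 J q) (fun J _ q => h2 J q) (by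
      intro J hJ q hq
      have hS := hsc J q hq
      have k := hT_hI (N := 2 ^ J) (m := 2 ^ (J - 2)) Nat.one_le_two_pow (by
        have e1 : 2 ^ J = 4 * 2 ^ (J - 2) := by
          rw [show (4:ℕ) = 2 ^ 2 by norm_num, ← pow_add]
          congr 1
          omega
        have e2 : 1 ≤ 2 ^ (J - 2) := Nat.one_le_two_pow
        omega) hS.q0 hS.q1
      refine k.trans ((a4b_le hS.q0 hS.q1 _ _).trans ?_)
      exact hS.XX_a4 hJ le_rfl) (by
      intro J hJ q hq
      exact h3 J q κ C (by omega) (hsc J q hq))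
  exact ⟨L, C', b * (rr⁻¹) ^ (3 * 2), hC', by positivity, h⟩

end Pool.Agent.W2helper75.AU
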